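import Mathlib

/-! MP_ae8ccf_nt: a random colouring of the primes gives many families of moduli,
coprime to each other, each of which still has large weight.

Proof. Let `P` be the set of all primes dividing some `n e`, `e ∈ F`.  For a colouring
`χ : P → Fin R` put `G i = {e ∈ F : every prime factor of n e has colour i}`.  Then (swap the sums)
`Σ_χ ∏_i Σ_{e ∈ G i} 1/n_e = Σ_{g : Fin R → F} ∏_i 1/n_{g i} * #{χ : all primes of n_{g i} have colour i}`
(`Finset.prod_univ_sum`).  If the `n_{g i}` are pairwise coprime this number of colourings is at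
least `R^|P| / R^(R s)` (the union `U` of the sets of prime factors has at most `R s` elements and
the colours outside `U` are free).  By induction on `j ≤ R` the sum of `∏ 1/n_{g i}` over the
tuples `g : Fin j → F` with pairwise coprime moduli is at least `(W/2)^j`: given `g`, the `e` whose
modulus shares a prime with one of the at most `j s` primes of the `n_{g i}` have weight at most
`j s η ≤ W/2`.  So some `χ` has `∏_i Σ_{e ∈ G i} 1/n_e ≥ (W/2)^R / R^(R s)`. -/

namespace H3SP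

open Finset

theorem eta_nonnegCO {ι : Type*} (F : Finset ι) (n : ι → ℕ) (η : ℝ)
    (hη : ∀ p : ℕ, p.Prime → ∑ e ∈ F.filter (fun e => p ∣ n e), 1 / (n e : ℝ) ≤ η) : 0 ≤ η :=
  le_trans (sum_nonneg fun e _ => by positivity) (hη 2 Nat.prime_two)

theorem sum_biUnion_leCO {α β : Type*} [DecidableEq α] [DecidableEq β] (s : Finset α)
    (t : α → Finset β) (f : β → ℝ) (hf : ∀ b, 0 ≤ f b) :
    ∑ x ∈ s.biUnion t, f x ≤ ∑ i ∈ s, ∑ x ∈ t i, f x := by
  induction s using Finset.induction_on with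
  | empty => simp
  | insert a s ha ih =>
    rw [biUnion_insert, sum_insert ha]
    have h1 := sum_union_inter (s₁ := t a) (s₂ := s.biUnion t) (f := f)
    have h2 : 0 ≤ ∑ x ∈ t a ∩ s.biUnion t, f x := sum_nonneg fun b _ => hf b
    linarith

/-- the weight of the moduli which are coprime to all `n (g a)` -/
theorem coprime_weightCO {ι : Type*} [DecidableEq ι] (F : Finset ι) (n : ι → ℕ) (R s : ℕ)
    (η W : ℝ)
    (hn : ∀ e ∈ F, 1 < n e) (hs : ∀ e ∈ F, (n e).primeFactors.card ≤ s)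
    (hW : W = ∑ e ∈ F, 1 / (n e : ℝ))
    (hη : ∀ p : ℕ, p.Prime → ∑ e ∈ F.filter (fun e => p ∣ n e), 1 / (n e : ℝ) ≤ η)
    (hRη : R * s * η ≤ W / 2) (j : ℕ) (hj : j ≤ R) (g : Fin j → ι) (hg : ∀ a, g a ∈ F) :
    W / 2 ≤ ∑ e ∈ F.filter (fun e => ∀ a, Nat.Coprime (n e) (n (g a))), 1 / (n e : ℝ) := by
  classical
  have hη0 := eta_nonnegCO F n η hη
  have hsplit := sum_filter_add_sum_filter_not F (fun e => ∀ a, Nat.Coprime (n e) (n (g a)))
    (fun e => 1 / (n e : ℝ))
  have hbad : ∑ e ∈ F.filter (fun e => ¬ ∀ a, Nat.Coprime (n e) (n (g a))), 1 / (n e : ℝ) ≤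
      j * s * η := by
    have hsub : F.filter (fun e => ¬ ∀ a, Nat.Coprime (n e) (n (g a))) ⊆
        univ.biUnion (fun a : Fin j => (n (g a)).primeFactors.biUnion
          (fun p => F.filter (fun e => p ∣ n e))) := by
      intro e he
      rw [mem_filter] at he
      obtain ⟨heF, he⟩ := he
      push Not at he
      obtain ⟨a, ha⟩ := he
      obtain ⟨p, hp, hp1, hp2⟩ := Nat.Prime.not_coprime_iff_dvd.1 ha
      rw [mem_biUnion]
      refine ⟨a, mem_univ _, ?_⟩
      rw [mem_biUnion]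
      refine ⟨p, ?_, ?_⟩
      · rw [Nat.mem_primeFactors]
        refine ⟨hp, hp2, ?_⟩
        have := hn _ (hg a)
        omega
      · rw [mem_filter]
        exact ⟨heF, hp1⟩
    calc _ ≤ ∑ e ∈ univ.biUnion (fun a : Fin j => (n (g a)).primeFactors.biUnion
          (fun p => F.filter (fun e => p ∣ n e))), 1 / (n e : ℝ) :=
          sum_le_sum_of_subset_of_nonneg hsub fun e _ _ => by positivity
      _ ≤ ∑ a : Fin j, ∑ e ∈ (n (g a)).primeFactors.biUnion
          (fun p => F.filter (fun e => p ∣ n e)), 1 / (n e : ℝ) :=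
          sum_biUnion_leCO _ _ _ fun e => by positivity
      _ ≤ ∑ a : Fin j, ∑ p ∈ (n (g a)).primeFactors,
          ∑ e ∈ F.filter (fun e => p ∣ n e), 1 / (n e : ℝ) :=
          sum_le_sum fun a _ => sum_biUnion_leCO _ _ _ fun e => by positivity
      _ ≤ ∑ a : Fin j, ∑ p ∈ (n (g a)).primeFactors, η :=
          sum_le_sum fun a _ => sum_le_sum fun p hp => hη p (Nat.prime_of_mem_primeFactors hp)
      _ ≤ ∑ _a : Fin j, s * η := by
          refine sum_le_sum fun a _ => ?_
          rw [sum_const, nsmul_eq_mul]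
          refine mul_le_mul_of_nonneg_right ?_ hη0
          exact_mod_cast hs _ (hg a)
      _ = j * s * η := by
          rw [sum_const, card_univ, Fintype.card_fin, nsmul_eq_mul]
          ring
  have h2 : (j : ℝ) * s * η ≤ R * s * η := by
    refine mul_le_mul_of_nonneg_right ?_ hη0
    refine mul_le_mul_of_nonneg_right ?_ (Nat.cast_nonneg _)
    exact_mod_cast hj
  rw [← hW] at hsplit
  linarith

/-- the tuple sum (induction on `j`) -/
theorem tuple_sum {ι : Type*} [DecidableEq ι] (F : Finset ι) (n : ι → ℕ) (R s : ℕ) (η W : ℝ)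
    (hn : ∀ e ∈ F, 1 < n e) (hs : ∀ e ∈ F, (n e).primeFactors.card ≤ s)
    (hW : W = ∑ e ∈ F, 1 / (n e : ℝ))
    (hη : ∀ p : ℕ, p.Prime → ∑ e ∈ F.filter (fun e => p ∣ n e), 1 / (n e : ℝ) ≤ η)
    (hRη : R * s * η ≤ W / 2) (j : ℕ) (hj : j ≤ R) :
    (W / 2) ^ j ≤ ∑ g ∈ (Fintype.piFinset fun _ : Fin j => F).filter
      (fun g => ∀ a b : Fin j, a ≠ b → Nat.Coprime (n (g a)) (n (g b))), ∏ i, 1 / (n (g i) : ℝ) := by
  classical
  induction j with
  | zero =>
    rw [pow_zero]
    have h1 : (fun a : Fin 0 => a.elim0 : Fin 0 → ι) ∈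
        (Fintype.piFinset fun _ : Fin 0 => F).filter
        (fun g => ∀ a b : Fin 0, a ≠ b → Nat.Coprime (n (g a)) (n (g b))) := by
      rw [mem_filter, Fintype.mem_piFinset]
      exact ⟨fun a => a.elim0, fun a => a.elim0⟩
    have h2 := single_le_sum (f := fun g : Fin 0 → ι => ∏ i, 1 / (n (g i) : ℝ))
      (fun g _ => prod_nonneg fun i _ => by positivity) h1
    simpa using h2
  | succ j ih =>
    have ih := ih (by omega)
    have hW0 : 0 ≤ W := by
      rw [hW]
      exact sum_nonneg fun e _ => by positivity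
    set S := (Fintype.piFinset fun _ : Fin j => F).filter
      (fun g => ∀ a b : Fin j, a ≠ b → Nat.Coprime (n (g a)) (n (g b))) with hS
    set Sig := S.sigma (fun g => F.filter (fun e => ∀ a, Nat.Coprime (n e) (n (g a)))) with hSig
    let φ : (Σ _ : Fin j → ι, ι) → (Fin (j + 1) → ι) := fun x => Fin.cons x.2 x.1
    have hφ : Set.InjOn φ Sig := by
      rintro ⟨g, e⟩ _ ⟨g', e'⟩ _ h
      have h1 := (Fin.cons_injective2 h)
      obtain ⟨h2, h3⟩ := h1
      dsimp only at h2 h3
      subst h2 h3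
      rfl
    have hsub : Sig.image φ ⊆ (Fintype.piFinset fun _ : Fin (j + 1) => F).filter
        (fun g => ∀ a b : Fin (j + 1), a ≠ b → Nat.Coprime (n (g a)) (n (g b))) := by
      intro g hg
      obtain ⟨⟨g', e⟩, h1, rfl⟩ := mem_image.1 hg
      rw [hSig, mem_sigma, hS, mem_filter, Fintype.mem_piFinset, mem_filter] at h1
      obtain ⟨⟨h2, h3⟩, h4, h5⟩ := h1
      rw [mem_filter, Fintype.mem_piFinset]
      constructor
      · intro a
        refine Fin.cases ?_ (fun a => ?_) a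
        · exact h4
        · exact h2 a
      · intro a b
        refine Fin.cases ?_ (fun a => ?_) a <;> refine Fin.cases ?_ (fun b => ?_) b
        · intro h
          exact absurd rfl h
        · intro _
          exact h5 b
        · intro _
          exact (h5 a).symm
        · intro h
          exact h3 a b fun h' => h (by rw [h'])
    calc (W / 2) ^ (j + 1) = (W / 2) ^ j * (W / 2) := pow_succ _ _
      _ ≤ (∑ g ∈ S, ∏ i, 1 / (n (g i) : ℝ)) * (W / 2) :=
          mul_le_mul_of_nonneg_right ih (by linarith)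
      _ = ∑ g ∈ S, (∏ i, 1 / (n (g i) : ℝ)) * (W / 2) := sum_mul _ _ _
      _ ≤ ∑ g ∈ S, (∏ i, 1 / (n (g i) : ℝ)) *
          ∑ e ∈ F.filter (fun e => ∀ a, Nat.Coprime (n e) (n (g a))), 1 / (n e : ℝ) := by
          refine sum_le_sum fun g hg => ?_
          rw [hS, mem_filter, Fintype.mem_piFinset] at hg
          exact mul_le_mul_of_nonneg_left
            (coprime_weightCO F n R s η W hn hs hW hη hRη j (by omega) g hg.1)
            (prod_nonneg fun i _ => by positivity)
      _ = ∑ x ∈ Sig, ∏ i, 1 / (n (φ x i) : ℝ) := by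
          rw [hSig, sum_sigma]
          refine sum_congr rfl fun g _ => ?_
          rw [mul_sum]
          refine sum_congr rfl fun e _ => ?_
          rw [Fin.prod_univ_succ]
          show (∏ i, 1 / (n (g i) : ℝ)) * (1 / (n e : ℝ)) = 1 / (n e : ℝ) * ∏ i, 1 / (n (g i) : ℝ)
          ring
      _ = ∑ g ∈ Sig.image φ, ∏ i, 1 / (n (g i) : ℝ) :=
          (sum_image (f := fun g : Fin (j + 1) → ι => ∏ i, 1 / (n (g i) : ℝ)) hφ).symm
      _ ≤ _ := sum_le_sum_of_subset_of_nonneg hsub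
          fun g _ _ => prod_nonneg fun i _ => by positivity

/-- the number of colourings with prescribed colours on the primes of pairwise coprime moduli -/
theorem count_colCO (P : Finset ℕ) (R s : ℕ) (N : Fin R → ℕ)
    (hN0 : ∀ i, N i ≠ 0) (hNs : ∀ i, (N i).primeFactors.card ≤ s)
    (hP : ∀ p ∈ P, p.Prime) (hcop : ∀ a b : Fin R, a ≠ b → Nat.Coprime (N a) (N b)) (hR : 1 ≤ R) :
    (R : ℝ) ^ P.card ≤ ((univ.filter (fun χ : P → Fin R =>
      ∀ i, ∀ p : P, (p : ℕ) ∣ N i → χ p = i)).card : ℝ) * ((R : ℝ) ^ s) ^ R := by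
  classical
  have e1 : univ.filter (fun χ : P → Fin R => ∀ i, ∀ p : P, (p : ℕ) ∣ N i → χ p = i) =
      Fintype.piFinset (fun p : P => univ.filter (fun c : Fin R => ∀ i, (p : ℕ) ∣ N i → c = i)) := by
    ext χ
    simp only [mem_filter, mem_univ, true_and, Fintype.mem_piFinset]
    exact forall_comm
  rw [e1, Fintype.card_piFinset]
  have h1 : ∀ p : P, R ≤ (univ.filter (fun c : Fin R => ∀ i, (p : ℕ) ∣ N i → c = i)).card *
      (if ∃ i, (p : ℕ) ∣ N i then R else 1) := by
    intro p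
    split_ifs with h
    · obtain ⟨i, hi⟩ := h
      have h2 : 1 ≤ (univ.filter (fun c : Fin R => ∀ i, (p : ℕ) ∣ N i → c = i)).card := by
        rw [Nat.one_le_iff_ne_zero, Ne, card_eq_zero]
        intro h3
        have h4 : i ∈ (∅ : Finset (Fin R)) := by
          rw [← h3, mem_filter]
          refine ⟨mem_univ _, fun i' hi' => ?_⟩
          by_contra hne
          exact Nat.Prime.not_coprime_iff_dvd.2 ⟨p, hP p p.2, hi, hi'⟩ (hcop i i' hne)
        exact notMem_empty _ h4
      nlinarith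
    · push Not at h
      have h3 : univ.filter (fun c : Fin R => ∀ i, (p : ℕ) ∣ N i → c = i) = univ := by
        rw [filter_eq_self]
        intro c _ i hi
        exact absurd hi (h i)
      rw [h3, card_univ, Fintype.card_fin, mul_one]
  have h2 : R ^ P.card ≤ (∏ p : P, (univ.filter (fun c : Fin R => ∀ i, (p : ℕ) ∣ N i → c = i)).card) *
      ∏ p : P, (if ∃ i, (p : ℕ) ∣ N i then R else 1) := by
    rw [← prod_mul_distrib]
    calc R ^ P.card = ∏ _p : P, R := by rw [prod_const, card_univ, Fintype.card_coe]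
      _ ≤ _ := prod_le_prod (fun _ _ => Nat.zero_le _) (fun p _ => h1 p)
  have h3 : ∏ p : P, (if ∃ i, (p : ℕ) ∣ N i then R else 1) ≤ (R ^ s) ^ R := by
    rw [prod_ite, prod_const, prod_const_one, mul_one, ← pow_mul]
    refine Nat.pow_le_pow_right hR ?_
    have h4 : (univ.filter (fun p : P => ∃ i, (p : ℕ) ∣ N i)).card ≤
        (univ.biUnion (fun i : Fin R => (N i).primeFactors)).card := by
      refine card_le_card_of_injOn (fun p => (p : ℕ)) ?_ (Subtype.val_injective.injOn)
      intro p hp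
      rw [mem_coe, mem_filter] at hp
      obtain ⟨-, i, hi⟩ := hp
      rw [mem_coe, mem_biUnion]
      exact ⟨i, mem_univ _, Nat.mem_primeFactors.2 ⟨hP p p.2, hi, hN0 i⟩⟩
    refine h4.trans ?_
    refine (card_biUnion_le_card_mul _ _ s fun i _ => hNs i).trans ?_
    rw [card_univ, Fintype.card_fin, mul_comm]
  have h5 := h2.trans (Nat.mul_le_mul_left _ h3)
  exact_mod_cast h5

theorem exists_coloring {ι : Type*} [DecidableEq ι] (F : Finset ι) (n : ι → ℕ) (R s : ℕ)
    (η W : ℝ) (hR : 1 ≤ R)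
    (hn : ∀ e ∈ F, 1 < n e) (hs : ∀ e ∈ F, (n e).primeFactors.card ≤ s)
    (hW : W = ∑ e ∈ F, 1 / (n e : ℝ))
    (hη : ∀ p : ℕ, p.Prime → ∑ e ∈ F.filter (fun e => p ∣ n e), 1 / (n e : ℝ) ≤ η)
    (hRη : R * s * η ≤ W / 2) :
    ∃ G : Fin R → Finset ι, (∀ i, G i ⊆ F) ∧
      (∀ i j, i ≠ j → ∀ e ∈ G i, ∀ e' ∈ G j, Nat.Coprime (n e) (n e')) ∧
      (W / (2 * (R : ℝ) ^ s)) ^ R ≤ ∏ i, ∑ e ∈ G i, 1 / (n e : ℝ) := by
  classical
  have : Nonempty (Fin R) := ⟨⟨0, by omega⟩⟩
  set P : Finset ℕ := F.biUnion (fun e => (n e).primeFactors) with hPdef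
  have hPp : ∀ p ∈ P, p.Prime := by
    intro p hp
    rw [hPdef, mem_biUnion] at hp
    obtain ⟨e, -, he⟩ := hp
    exact Nat.prime_of_mem_primeFactors he
  have hmemP : ∀ e ∈ F, ∀ p : ℕ, p.Prime → p ∣ n e → p ∈ P := by
    intro e he p hp hpe
    rw [hPdef, mem_biUnion]
    refine ⟨e, he, Nat.mem_primeFactors.2 ⟨hp, hpe, ?_⟩⟩
    have := hn e he
    omega
  let G : (P → Fin R) → Fin R → Finset ι := fun χ i =>
    F.filter (fun e => ∀ p : P, (p : ℕ) ∣ n e → χ p = i)
  set c : ℝ := (W / (2 * (R : ℝ) ^ s)) ^ R with hc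
  have hRpos : (0 : ℝ) < R := by
    have : 0 < R := hR
    exact_mod_cast this
  have hsum : ∑ _χ : P → Fin R, c ≤ ∑ χ : P → Fin R, ∏ i, ∑ e ∈ G χ i, 1 / (n e : ℝ) := by
    have e1 : ∀ χ : P → Fin R, ∏ i, ∑ e ∈ G χ i, 1 / (n e : ℝ) =
        ∑ g ∈ Fintype.piFinset fun _ : Fin R => F,
          if (∀ i, ∀ p : P, (p : ℕ) ∣ n (g i) → χ p = i) then ∏ i, 1 / (n (g i) : ℝ) else 0 := by
      intro χ
      rw [prod_univ_sum, ← sum_filter]
      refine sum_congr ?_ fun _ _ => rfl
      ext g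
      simp only [G, Fintype.mem_piFinset, mem_filter]
      exact ⟨fun h => ⟨fun i => (h i).1, fun i => (h i).2⟩, fun h i => ⟨h.1 i, h.2 i⟩⟩
    simp only [e1]
    rw [sum_comm]
    have e2 : ∀ g : Fin R → ι, ∑ χ : P → Fin R,
        (if (∀ i, ∀ p : P, (p : ℕ) ∣ n (g i) → χ p = i) then ∏ i, 1 / (n (g i) : ℝ) else 0) =
        ((univ.filter (fun χ : P → Fin R => ∀ i, ∀ p : P, (p : ℕ) ∣ n (g i) → χ p = i)).card : ℝ) *
          ∏ i, 1 / (n (g i) : ℝ) := by
      intro g
      rw [← sum_filter, sum_const, nsmul_eq_mul]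
    simp only [e2]
    rw [sum_const, nsmul_eq_mul, card_univ, Fintype.card_fun, Fintype.card_coe, Fintype.card_fin]
    have hts := tuple_sum F n R s η W hn hs hW hη hRη R le_rfl
    calc ((R ^ P.card : ℕ) : ℝ) * c = (R : ℝ) ^ P.card / ((R : ℝ) ^ s) ^ R * (W / 2) ^ R := by
          rw [hc, ← div_div, div_pow (W / 2)]
          push_cast
          ring
      _ ≤ (R : ℝ) ^ P.card / ((R : ℝ) ^ s) ^ R *
          ∑ g ∈ (Fintype.piFinset fun _ : Fin R => F).filter
            (fun g => ∀ a b : Fin R, a ≠ b → Nat.Coprime (n (g a)) (n (g b))),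
            ∏ i, 1 / (n (g i) : ℝ) := mul_le_mul_of_nonneg_left hts (by positivity)
      _ = ∑ g ∈ (Fintype.piFinset fun _ : Fin R => F).filter
            (fun g => ∀ a b : Fin R, a ≠ b → Nat.Coprime (n (g a)) (n (g b))),
            (R : ℝ) ^ P.card / ((R : ℝ) ^ s) ^ R * ∏ i, 1 / (n (g i) : ℝ) := mul_sum _ _ _
      _ ≤ ∑ g ∈ (Fintype.piFinset fun _ : Fin R => F).filter
            (fun g => ∀ a b : Fin R, a ≠ b → Nat.Coprime (n (g a)) (n (g b))),
          ((univ.filter (fun χ : P → Fin R => ∀ i, ∀ p : P, (p : ℕ) ∣ n (g i) →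
            χ p = i)).card : ℝ) * ∏ i, 1 / (n (g i) : ℝ) := by
          refine sum_le_sum fun g hg => ?_
          rw [mem_filter, Fintype.mem_piFinset] at hg
          refine mul_le_mul_of_nonneg_right ?_ (prod_nonneg fun i _ => by positivity)
          rw [div_le_iff₀ (by positivity)]
          exact count_colCO P R s (fun i => n (g i))
            (fun i => by have := hn _ (hg.1 i); omega) (fun i => hs _ (hg.1 i)) hPp hg.2 hR
      _ ≤ _ := sum_le_sum_of_subset_of_nonneg (filter_subset _ _)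
          fun g _ _ => mul_nonneg (Nat.cast_nonneg _) (prod_nonneg fun i _ => by positivity)
  obtain ⟨χ, -, hχ⟩ := exists_le_of_sum_le (univ_nonempty) hsum
  refine ⟨G χ, fun i => filter_subset _ _, ?_, hχ⟩
  intro i j hij e he e' he'
  rw [mem_filter] at he he'
  by_contra hnc
  obtain ⟨p, hp, h1, h2⟩ := Nat.Prime.not_coprime_iff_dvd.1 hnc
  have hpP := hmemP e he.1 p hp h1
  exact hij ((he.2 ⟨p, hpP⟩ h1).symm.trans (he'.2 ⟨p, hpP⟩ h2))

end H3SP
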