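import Pool.Agent.H3SP.Colored
import Pool.Agent.H3SP.Color

/-! MP_ae8ccf_nt: the abstract sieve bound. -/

namespace H3SP

open Finset

theorem sieve_abs {ι : Type*} [DecidableEq ι] (F : Finset ι) (n : ι → ℕ) (r : ι → ℤ)
    (R s z x : ℕ) (η W : ℝ) (hR : 1 ≤ R)
    (hn : ∀ e ∈ F, 1 < n e) (hz : ∀ e ∈ F, n e ≤ z)
    (hs : ∀ e ∈ F, (n e).primeFactors.card ≤ s)
    (hW : W = ∑ e ∈ F, 1 / (n e : ℝ))
    (hcomp : ∀ e ∈ F, ∑ e' ∈ F.filter (fun e' => 1 < Nat.gcd (n e) (n e') ∧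
      ((Nat.gcd (n e) (n e') : ℕ) : ℤ) ∣ r e - r e'), (Nat.gcd (n e) (n e') : ℝ) / n e' ≤ 2)
    (hη : ∀ p : ℕ, p.Prime → ∑ e ∈ F.filter (fun e => p ∣ n e), 1 / (n e : ℝ) ≤ η)
    (hRη : R * s * η ≤ W / 2) (hWR : 2 * (R : ℝ) ^ s ≤ W) :
    (((range x).filter (fun k : ℕ => ∀ e ∈ F, ¬ ((n e : ℤ) ∣ (k : ℤ) - r e))).card : ℝ) ≤
      x * (4 * (R : ℝ) ^ s / W) ^ R + 2 * ((F.card : ℝ) * z) ^ (2 * R) := by
  obtain ⟨G, hGF, hGc, hGW⟩ := exists_coloring F n R s η W hR hn hs hW hη hRη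
  have hcol := colored G n r z x F.card (fun i e he => hn e (hGF i he))
    (fun i e he => hz e (hGF i he)) (fun i => card_le_card (hGF i)) hGc
    (by
      intro i e he
      refine le_trans ?_ (hcomp e (hGF i he))
      refine sum_le_sum_of_subset_of_nonneg ?_ fun e' _ _ => by positivity
      intro e' he'
      rw [mem_filter] at he' ⊢
      exact ⟨hGF i he'.1, he'.2⟩)
  set V : Fin R → ℝ := fun i => ∑ e ∈ G i, 1 / (n e : ℝ) with hV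
  set w : ℝ := W / (2 * (R : ℝ) ^ s) with hw
  have hRs : (0 : ℝ) < (R : ℝ) ^ s := by
    have : (0 : ℝ) < R := by exact_mod_cast hR
    positivity
  have hw1 : 1 ≤ w := by
    rw [hw, le_div_iff₀ (by positivity)]; linarith
  have hP : w ^ R ≤ ∏ i, V i := hGW
  have hP1 : 1 ≤ ∏ i, V i := (one_le_pow₀ hw1).trans hP
  have hPpos : 0 < ∏ i, V i := by linarith
  set E : ℝ := (((range x).filter (fun k : ℕ => ∀ e ∈ F, ¬ ((n e : ℤ) ∣ (k : ℤ) - r e))).card : ℝ)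
    with hE
  have hE1 : E ≤ (((range x).filter
      (fun k : ℕ => ∀ i, ∀ e ∈ G i, ¬ ((n e : ℤ) ∣ (k : ℤ) - r e))).card : ℝ) := by
    rw [hE]
    have : (range x).filter (fun k : ℕ => ∀ e ∈ F, ¬ ((n e : ℤ) ∣ (k : ℤ) - r e)) ⊆
        (range x).filter (fun k : ℕ => ∀ i, ∀ e ∈ G i, ¬ ((n e : ℤ) ∣ (k : ℤ) - r e)) := by
      intro k hk
      rw [mem_filter] at hk ⊢
      exact ⟨hk.1, fun i e he => hk.2 e (hGF i he)⟩
    exact_mod_cast card_le_card this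
  have e1 : ∏ i, (∑ e ∈ G i, 1 / (n e : ℝ)) ^ 2 = (∏ i, V i) ^ 2 := by rw [← prod_pow]
  have e2 : ∏ i, (2 * ∑ e ∈ G i, 1 / (n e : ℝ)) = 2 ^ R * ∏ i, V i := by
    rw [prod_mul_distrib, prod_const, card_univ, Fintype.card_fin]
  rw [e1, e2] at hcol
  have hmain : E * (∏ i, V i) ^ 2 ≤
      x * (2 ^ R * ∏ i, V i) + 2 * ((F.card : ℝ) * z) ^ (2 * R) :=
    (mul_le_mul_of_nonneg_right hE1 (sq_nonneg _)).trans hcol
  have hdiv : E ≤ x * 2 ^ R / ∏ i, V i + 2 * ((F.card : ℝ) * z) ^ (2 * R) / (∏ i, V i) ^ 2 := by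
    have h2 : 0 < (∏ i, V i) ^ 2 := by positivity
    have : x * 2 ^ R / ∏ i, V i + 2 * ((F.card : ℝ) * z) ^ (2 * R) / (∏ i, V i) ^ 2
        = (x * (2 ^ R * ∏ i, V i) + 2 * ((F.card : ℝ) * z) ^ (2 * R)) / (∏ i, V i) ^ 2 := by
      field_simp
    rw [this, le_div_iff₀ h2]
    exact hmain
  refine hdiv.trans (add_le_add ?_ ?_)
  · have h3 : x * 2 ^ R / ∏ i, V i ≤ x * 2 ^ R / w ^ R :=
      div_le_div_of_nonneg_left (by positivity) (by positivity) hP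
    refine h3.trans (le_of_eq ?_)
    rw [hw, mul_div_assoc, ← div_pow]
    congr 2
    field_simp
    norm_num
  · refine div_le_self (by positivity) ?_
    exact one_le_pow₀ hP1

end H3SP
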