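import Mathlib

/-! MP_ae8ccf_nt: Brun's pure sieve for the numbers `Q c - 1`, `X ≤ c < 2X`.

Proof of `brun_pure`.  Let `P` be the set of primes `p ≤ y` with `p ∤ Q` (a prime dividing `Q` never
divides `Qc-1`, as `Q c ≥ 1`).  Bonferroni: for a finite set `s` of primes (those dividing `Qc-1`),
`[s = ∅] ≥ Σ_{D ⊆ s, |D| ≤ 2t-1} (-1)^|D|` (partial alternating sums of binomials:
`Σ_{j ≤ 2t-1} (-1)^j C(n,j) = - C(n-1,2t-1)` for `n ≥ 1`, Mathlib
`Int.alternating_sum_range_choose_eq_choose`?).  For `D ⊆ P` with product `d`, the number of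
`c ∈ [X,2X)` with `d ∣ Qc-1` is `X/d + θ`, `|θ| ≤ 1` (one residue class mod `d`).  So the count is
`≥ X Σ_{D ⊆ P, |D| ≤ 2t-1} (-1)^|D|/d - #{D : |D| ≤ 2t-1}`; the number of these `D` is at most
`(y)^(2t)`, and `Σ_{|D| ≤ 2t-1} (-1)^|D|/d ≥ ∏_{p ∈ P} (1-1/p) - Σ_{|D| = 2t} 1/d` (Bonferroni
again), `Σ_{|D|=2t} 1/d ≤ S^(2t)/(2t)! ≤ (eS/(2t))^(2t) ≤ e^(-2t) ≤ e^(-2S)/2` (using `8 S ≤ 2t`,
`1/2 ≤ S`), and `∏_{p ∈ P} (1 - 1/p) ≥ ∏ exp(-2/p) ≥ e^(-2S)` (`1 - x ≥ e^(-2x)` for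
`0 ≤ x ≤ 1/2`). -/

namespace H3SP

open Finset

/-- elementary symmetric sums -/
noncomputable def bE (x : ℕ → ℝ) (P : Finset ℕ) (j : ℕ) : ℝ :=
  ∑ D ∈ powersetCard j P, ∏ p ∈ D, x p

/-- truncated inclusion-exclusion sums -/
noncomputable def bF (x : ℕ → ℝ) (P : Finset ℕ) (k : ℕ) : ℝ :=
  ∑ j ∈ range k, (-1) ^ j * bE x P j

lemma bE_zero (x : ℕ → ℝ) (P : Finset ℕ) : bE x P 0 = 1 := by
  simp [bE]

lemma bE_succ (x : ℕ → ℝ) {P : Finset ℕ} {p : ℕ} (hp : p ∉ P) (j : ℕ) :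
    bE x (insert p P) (j + 1) = bE x P (j + 1) + x p * bE x P j := by
  unfold bE
  rw [show j + 1 = j.succ from rfl, powersetCard_succ_insert hp, sum_union]
  · congr 1
    rw [sum_image]
    · rw [mul_sum]
      apply sum_congr rfl
      intro D hD
      have hpD : p ∉ D := fun h => hp ((mem_powersetCard.1 hD).1 h)
      rw [prod_insert hpD]
    · intro D hD D' hD' h
      have hpD : p ∉ D := fun h => hp ((mem_powersetCard.1 hD).1 h)
      have hpD' : p ∉ D' := fun h => hp ((mem_powersetCard.1 hD').1 h)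
      have := congrArg (fun s => s.erase p) h
      simpa [erase_insert hpD, erase_insert hpD'] using this
  · rw [Finset.disjoint_left]
    intro D hD hD'
    obtain ⟨D', _, rfl⟩ := mem_image.1 hD'
    exact hp ((mem_powersetCard.1 hD).1 (mem_insert_self _ _))

lemma bF_succ (x : ℕ → ℝ) {P : Finset ℕ} {p : ℕ} (hp : p ∉ P) (k : ℕ) :
    bF x (insert p P) (k + 1) = bF x P (k + 1) - x p * bF x P k := by
  unfold bF
  rw [sum_range_succ', sum_range_succ' (fun j => (-1 : ℝ) ^ j * bE x P j), bE_zero, bE_zero,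
    mul_sum]
  have : ∑ j ∈ range k, (-1 : ℝ) ^ (j + 1) * bE x (insert p P) (j + 1) =
      ∑ j ∈ range k, (-1 : ℝ) ^ (j + 1) * bE x P (j + 1) -
        ∑ j ∈ range k, x p * ((-1 : ℝ) ^ j * bE x P j) := by
    rw [← sum_sub_distrib]
    apply sum_congr rfl
    intro j _
    rw [bE_succ x hp]
    ring
  rw [this]
  ring

lemma bF_sign (x : ℕ → ℝ) (P : Finset ℕ) (h0 : ∀ p ∈ P, 0 ≤ x p) (h1 : ∀ p ∈ P, x p ≤ 1)
    (k : ℕ) : 0 ≤ (-1 : ℝ) ^ (k + 1) * (bF x P k - ∏ p ∈ P, (1 - x p)) := by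
  induction P using Finset.induction_on generalizing k with
  | empty =>
    rcases k with _ | k
    · simp [bF]
    · have : bF x ∅ (k + 1) = 1 := by
        unfold bF
        rw [sum_range_succ', bE_zero]
        have : ∑ j ∈ range k, (-1 : ℝ) ^ (j + 1) * bE x ∅ (j + 1) = 0 := by
          apply sum_eq_zero
          intro j _
          have : bE x ∅ (j + 1) = 0 := by
            unfold bE
            rw [powersetCard_eq_empty.2 (by simp)]
            simp
          rw [this, mul_zero]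
        rw [this]
        simp
      rw [this]
      simp
  | insert p P hp ih =>
    have ih' := ih (fun q hq => h0 q (mem_insert_of_mem hq)) (fun q hq => h1 q (mem_insert_of_mem hq))
    have hx0 := h0 p (mem_insert_self _ _)
    have hx1 := h1 p (mem_insert_self _ _)
    rw [prod_insert hp]
    have hprod : 0 ≤ ∏ q ∈ P, (1 - x q) :=
      prod_nonneg (fun q hq => by linarith [h1 q (mem_insert_of_mem hq)])
    rcases k with _ | k
    · have : bF x (insert p P) 0 = 0 := by simp [bF]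
      rw [this]
      have h2 : 0 ≤ (1 - x p) * ∏ q ∈ P, (1 - x q) := mul_nonneg (by linarith) hprod
      simpa using h2
    · rw [bF_succ x hp]
      have e : (-1 : ℝ) ^ (k + 1 + 1) * (bF x P (k + 1) - x p * bF x P k -
          (1 - x p) * ∏ q ∈ P, (1 - x q)) =
          (-1 : ℝ) ^ (k + 1 + 1) * (bF x P (k + 1) - ∏ q ∈ P, (1 - x q)) +
          x p * ((-1 : ℝ) ^ (k + 1) * (bF x P k - ∏ q ∈ P, (1 - x q))) := by
        ring
      rw [e]
      exact add_nonneg (ih' (k + 1)) (mul_nonneg hx0 (ih' k))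

lemma bF_even_le (x : ℕ → ℝ) (P : Finset ℕ) (h0 : ∀ p ∈ P, 0 ≤ x p) (h1 : ∀ p ∈ P, x p ≤ 1)
    (t : ℕ) : bF x P (2 * t) ≤ ∏ p ∈ P, (1 - x p) := by
  have h := bF_sign x P h0 h1 (2 * t)
  have e : (-1 : ℝ) ^ (2 * t + 1) = -1 := by
    rw [pow_succ, pow_mul]
    norm_num
  rw [e] at h
  linarith

lemma bF_even_ge (x : ℕ → ℝ) (P : Finset ℕ) (h0 : ∀ p ∈ P, 0 ≤ x p) (h1 : ∀ p ∈ P, x p ≤ 1)
    (t : ℕ) : ∏ p ∈ P, (1 - x p) - bE x P (2 * t) ≤ bF x P (2 * t) := by
  have h := bF_sign x P h0 h1 (2 * t + 1)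
  have e : (-1 : ℝ) ^ (2 * t + 1 + 1) = 1 := by
    rw [pow_succ, pow_succ, pow_mul]
    norm_num
  have e' : bF x P (2 * t + 1) = bF x P (2 * t) + bE x P (2 * t) := by
    unfold bF
    rw [sum_range_succ, pow_mul]
    norm_num
  rw [e, e'] at h
  linarith

lemma bE_nonneg (x : ℕ → ℝ) (P : Finset ℕ) (h0 : ∀ p ∈ P, 0 ≤ x p) (j : ℕ) : 0 ≤ bE x P j :=
  sum_nonneg (fun D hD => prod_nonneg (fun p hp => h0 p ((mem_powersetCard.1 hD).1 hp)))

lemma pow_add_ge (s x : ℝ) (hs : 0 ≤ s) (hx : 0 ≤ x) (k : ℕ) :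
    s ^ (k + 1) + (k + 1) * x * s ^ k ≤ (s + x) ^ (k + 1) := by
  induction k with
  | zero => simp
  | succ k ih =>
    have h1 : (s + x) ^ (k + 1 + 1) = (s + x) ^ (k + 1) * (s + x) := pow_succ _ _
    rw [h1]
    have h2 : (s ^ (k + 1) + (k + 1) * x * s ^ k) * (s + x) ≤ (s + x) ^ (k + 1) * (s + x) :=
      mul_le_mul_of_nonneg_right ih (by linarith)
    refine le_trans ?_ h2
    have h3 : (s ^ (k + 1) + (k + 1) * x * s ^ k) * (s + x) =
        s ^ (k + 1 + 1) + ((k + 1 : ℕ) + 1) * x * s ^ (k + 1) + (k + 1) * x * s ^ k * x := by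
      push_cast
      ring
    rw [h3]
    have : 0 ≤ (k + 1) * x * s ^ k * x := by positivity
    linarith

lemma bE_le (x : ℕ → ℝ) (P : Finset ℕ) (h0 : ∀ p ∈ P, 0 ≤ x p) (j : ℕ) :
    bE x P j ≤ (∑ p ∈ P, x p) ^ j / (j.factorial : ℝ) := by
  induction P using Finset.induction_on generalizing j with
  | empty =>
    rcases j with _ | j
    · simp [bE_zero]
    · have : bE x ∅ (j + 1) = 0 := by
        unfold bE
        rw [powersetCard_eq_empty.2 (by simp)]
        simp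
      rw [this]
      positivity
  | insert p P hp ih =>
    have h0' : ∀ q ∈ P, 0 ≤ x q := fun q hq => h0 q (mem_insert_of_mem hq)
    have ih' := ih h0'
    have hx0 := h0 p (mem_insert_self _ _)
    have hs : 0 ≤ ∑ q ∈ P, x q := sum_nonneg h0'
    rcases j with _ | j
    · simp [bE_zero]
    · rw [bE_succ x hp, sum_insert hp]
      have h1 := ih' (j + 1)
      have h2 := ih' j
      have h3 := pow_add_ge (∑ q ∈ P, x q) (x p) hs hx0 j
      have hf : (0 : ℝ) < (j.factorial : ℝ) := by positivity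
      have hf' : (0 : ℝ) < ((j + 1).factorial : ℝ) := by positivity
      have e1 : ((j + 1).factorial : ℝ) = (j + 1) * j.factorial := by
        rw [Nat.factorial_succ]
        push_cast
        ring
      calc bE x P (j + 1) + x p * bE x P j
          ≤ (∑ q ∈ P, x q) ^ (j + 1) / ((j + 1).factorial : ℝ) +
            x p * ((∑ q ∈ P, x q) ^ j / (j.factorial : ℝ)) :=
            add_le_add h1 (mul_le_mul_of_nonneg_left h2 hx0)
        _ = ((∑ q ∈ P, x q) ^ (j + 1) + (j + 1) * x p * (∑ q ∈ P, x q) ^ j) /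
            ((j + 1).factorial : ℝ) := by
            rw [e1]
            field_simp
        _ ≤ (∑ q ∈ P, x q + x p) ^ (j + 1) / ((j + 1).factorial : ℝ) :=
            div_le_div_of_nonneg_right h3 hf'.le
        _ = (x p + ∑ q ∈ P, x q) ^ (j + 1) / ((j + 1).factorial : ℝ) := by rw [add_comm]

/-- The number of `c` in `[X, 2X)` with `d ∣ Q c - 1`. -/
lemma count_mod (Q X d : ℕ) (hQ : 1 ≤ Q) (hX : 1 ≤ X) (hd : 1 ≤ d) (hQd : Nat.Coprime Q d) :
    |(((Ico X (2 * X)).filter (fun c => d ∣ Q * c - 1)).card : ℝ) - X / d| ≤ 1 := by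
  obtain ⟨v, _, hv⟩ := Nat.exists_mul_mod_eq_of_coprime 1 hQd (by omega)
  have hv' : Q * v ≡ 1 [MOD d] := hv
  have e : (Ico X (2 * X)).filter (fun c => d ∣ Q * c - 1) =
      (Ico X (2 * X)).filter (fun c => c ≡ v [MOD d]) := by
    apply filter_congr
    intro c hc
    have hc1 : 1 ≤ c := le_trans hX (mem_Ico.1 hc).1
    have hQc : 1 ≤ Q * c := Nat.one_le_iff_ne_zero.2 (by positivity)
    rw [← Nat.modEq_iff_dvd' hQc]
    constructor
    · intro h
      have h2 : Q * c ≡ Q * v [MOD d] := h.symm.trans hv'.symm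
      exact Nat.ModEq.cancel_left_of_coprime (by rw [Nat.gcd_comm]; exact hQd) h2
    · intro h
      have h2 : Q * c ≡ Q * v [MOD d] := Nat.ModEq.mul_left Q h
      exact (h2.trans hv').symm
  rw [e]
  have h1 := Nat.Ico_filter_modEq_card X (2 * X) (r := d) (by omega) v
  have hd0 : (0 : ℚ) < (d : ℚ) := by exact_mod_cast hd
  set a := ⌈(((2 * X : ℕ) : ℚ) - v) / (d : ℚ)⌉ with ha
  set b := ⌈((X : ℚ) - v) / (d : ℚ)⌉ with hb
  have ha1 := Int.le_ceil ((((2 * X : ℕ) : ℚ) - v) / (d : ℚ))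
  have ha2 := Int.ceil_lt_add_one ((((2 * X : ℕ) : ℚ) - v) / (d : ℚ))
  have hb1 := Int.le_ceil (((X : ℚ) - v) / (d : ℚ))
  have hb2 := Int.ceil_lt_add_one (((X : ℚ) - v) / (d : ℚ))
  rw [← ha] at ha1 ha2
  rw [← hb] at hb1 hb2
  have e2 : (((2 * X : ℕ) : ℚ) - v) / (d : ℚ) = ((X : ℚ) - v) / (d : ℚ) + (X : ℚ) / d := by
    push_cast
    ring
  rw [e2] at ha1 ha2
  have hXd : (0 : ℚ) ≤ (X : ℚ) / d := by positivity
  have hab : b ≤ a := by
    rw [ha, hb]
    apply Int.ceil_le_ceil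
    rw [e2]
    linarith
  have h2 : ((((Ico X (2 * X)).filter (fun c => c ≡ v [MOD d])).card : ℤ) : ℤ) = a - b := by
    rw [h1]
    exact max_eq_left (by omega)
  have h3 : ((((Ico X (2 * X)).filter (fun c => c ≡ v [MOD d])).card : ℚ)) = (a : ℚ) - b := by
    exact_mod_cast h2
  have h4 : |((((Ico X (2 * X)).filter (fun c => c ≡ v [MOD d])).card : ℚ)) - X / d| ≤ 1 := by
    rw [h3, abs_le]
    constructor <;> linarith
  have h5 : |(((((Ico X (2 * X)).filter (fun c => c ≡ v [MOD d])).card : ℚ) - X / d : ℚ) : ℝ)| ≤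
      ((1 : ℚ) : ℝ) := by
    exact_mod_cast h4
  push_cast at h5
  exact h5

lemma one_sub_ge (x : ℝ) (h0 : 0 ≤ x) (h1 : x ≤ 1 / 2) : Real.exp (-2 * x) ≤ 1 - x := by
  have h2 : 1 + 2 * x ≤ Real.exp (2 * x) := by linarith [Real.add_one_le_exp (2 * x)]
  have h3 : Real.exp (-2 * x) = (Real.exp (2 * x))⁻¹ := by
    rw [← Real.exp_neg]
    congr 1
    ring
  rw [h3]
  have h4 : 0 < 1 + 2 * x := by linarith
  have h5 : (Real.exp (2 * x))⁻¹ ≤ (1 + 2 * x)⁻¹ := inv_anti₀ h4 h2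
  refine le_trans h5 ?_
  rw [inv_le_iff_one_le_mul₀ h4]
  nlinarith

lemma sum_choose_le (N k : ℕ) : ∑ j ∈ range k, N.choose j ≤ (N + 1) ^ k := by
  have h1 : ∑ j ∈ range k, N.choose j ≤ ∑ j ∈ range (k + 1), k.choose j * N ^ j := by
    rw [sum_range_succ]
    refine le_trans ?_ (Nat.le_add_right _ _)
    apply sum_le_sum
    intro j hj
    have h2 : N.choose j ≤ N ^ j := Nat.choose_le_pow N j
    have h3 : 1 ≤ k.choose j := Nat.choose_pos (by simp at hj; omega)
    calc N.choose j ≤ N ^ j := h2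
      _ = 1 * N ^ j := (one_mul _).symm
      _ ≤ k.choose j * N ^ j := Nat.mul_le_mul_right _ h3
  refine le_trans h1 ?_
  rw [add_pow]
  apply le_of_eq
  apply sum_congr rfl
  intro j _
  simp [mul_comm]

theorem brun_pure (Q X y t : ℕ) (S : ℝ) (hQ : 1 ≤ Q) (hX : 1 ≤ X) (hy : 2 ≤ y)
    (hS : ∑ p ∈ (range (y + 1)).filter Nat.Prime, 1 / (p : ℝ) ≤ S) (hS1 : 1 ≤ S)
    (ht : 8 * S ≤ 2 * t) :
    (X : ℝ) * (Real.exp (-2 * S) / 2) - (y : ℝ) ^ (2 * t) ≤
      (((Ico X (2 * X)).filter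
        (fun c => ∀ p ∈ (range (y + 1)).filter Nat.Prime, ¬ p ∣ Q * c - 1)).card : ℝ) := by
  classical
  set P : Finset ℕ := ((range (y + 1)).filter Nat.Prime).filter (fun p => ¬ p ∣ Q) with hP
  have hPp : ∀ p ∈ P, p.Prime := fun p hp => (mem_filter.1 (mem_filter.1 hp).1).2
  have hPQ : ∀ p ∈ P, ¬ p ∣ Q := fun p hp => (mem_filter.1 hp).2
  -- the filter
  have e1 : (Ico X (2 * X)).filter
        (fun c => ∀ p ∈ (range (y + 1)).filter Nat.Prime, ¬ p ∣ Q * c - 1) =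
      (Ico X (2 * X)).filter (fun c => ∀ p ∈ P, ¬ p ∣ Q * c - 1) := by
    apply filter_congr
    intro c hc
    have hc1 : 1 ≤ c := le_trans hX (mem_Ico.1 hc).1
    have hQc : 1 ≤ Q * c := Nat.one_le_iff_ne_zero.2 (by positivity)
    constructor
    · intro h p hp
      exact h p (mem_filter.1 hp).1
    · intro h p hp hdvd
      by_cases hpQ : p ∣ Q
      · have h1 : p ∣ Q * c := Dvd.dvd.mul_right hpQ c
        have h2 : p ∣ Q * c - (Q * c - 1) := Nat.dvd_sub h1 hdvd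
        have h3 : Q * c - (Q * c - 1) = 1 := by omega
        rw [h3] at h2
        exact (mem_filter.1 hp).2.one_lt.ne' (Nat.dvd_one.1 h2)
      · exact h p (mem_filter.2 ⟨hp, hpQ⟩) hdvd
  rw [e1]
  -- the indicator functions
  let ξ : ℕ → ℕ → ℝ := fun c p => if p ∣ Q * c - 1 then 1 else 0
  have hξ0 : ∀ c p, 0 ≤ ξ c p := by
    intro c p
    simp only [ξ]
    split_ifs <;> norm_num
  have hξ1 : ∀ c p, ξ c p ≤ 1 := by
    intro c p
    simp only [ξ]
    split_ifs <;> norm_num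
  have e2 : (((Ico X (2 * X)).filter (fun c => ∀ p ∈ P, ¬ p ∣ Q * c - 1)).card : ℝ) =
      ∑ c ∈ Ico X (2 * X), ∏ p ∈ P, (1 - ξ c p) := by
    rw [card_filter]
    push_cast
    apply sum_congr rfl
    intro c _
    split_ifs with h
    · symm
      apply prod_eq_one
      intro p hp
      simp only [ξ]
      rw [if_neg (h p hp)]
      ring
    · symm
      push Not at h
      obtain ⟨p, hp, hd⟩ := h
      apply prod_eq_zero hp
      simp only [ξ]
      rw [if_pos hd]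
      ring
  rw [e2]
  have h1 : ∑ c ∈ Ico X (2 * X), bF (ξ c) P (2 * t) ≤
      ∑ c ∈ Ico X (2 * X), ∏ p ∈ P, (1 - ξ c p) :=
    sum_le_sum (fun c _ => bF_even_le (ξ c) P (fun p _ => hξ0 c p) (fun p _ => hξ1 c p) t)
  refine le_trans ?_ h1
  -- the products over `D`
  have hprod : ∀ c, ∀ D ⊆ P, ∏ p ∈ D, ξ c p = if (∏ p ∈ D, p) ∣ Q * c - 1 then 1 else 0 := by
    intro c D hD
    split_ifs with h
    · apply prod_eq_one
      intro p hp
      simp only [ξ]
      rw [if_pos (dvd_trans (dvd_prod_of_mem (fun p => p) hp) h)]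
    · have : ∃ p ∈ D, ¬ p ∣ Q * c - 1 := by
        by_contra hcon
        push Not at hcon
        apply h
        exact Finset.prod_primes_dvd _ (fun p hp => (hPp p (hD hp)).prime) hcon
      obtain ⟨p, hp, hd⟩ := this
      apply prod_eq_zero hp
      simp only [ξ]
      rw [if_neg hd]
  have hcop : ∀ D ⊆ P, Nat.Coprime Q (∏ p ∈ D, p) := by
    intro D hD
    apply Nat.Coprime.prod_right
    intro p hp
    exact (((hPp p (hD hp)).coprime_iff_not_dvd).2 (hPQ p (hD hp))).symm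
  have hpos : ∀ D ⊆ P, 1 ≤ ∏ p ∈ D, p := by
    intro D hD
    exact Nat.one_le_iff_ne_zero.2 (prod_ne_zero_iff.2 (fun p hp => (hPp p (hD hp)).ne_zero))
  have h2 : ∀ j, |∑ c ∈ Ico X (2 * X), bE (ξ c) P j - X * bE (fun p => 1 / (p : ℝ)) P j| ≤
      P.card.choose j := by
    intro j
    unfold bE
    rw [sum_comm, mul_sum, ← sum_sub_distrib]
    refine le_trans (abs_sum_le_sum_abs _ _) ?_
    have : ((P.card.choose j : ℕ) : ℝ) = ∑ D ∈ powersetCard j P, (1 : ℝ) := by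
      rw [sum_const, card_powersetCard, nsmul_eq_mul, mul_one]
    rw [this]
    apply sum_le_sum
    intro D hD
    have hDP := (mem_powersetCard.1 hD).1
    have h3 := count_mod Q X (∏ p ∈ D, p) hQ hX (hpos D hDP) (hcop D hDP)
    have h4 : ∑ c ∈ Ico X (2 * X), ∏ p ∈ D, ξ c p =
        (((Ico X (2 * X)).filter (fun c => (∏ p ∈ D, p) ∣ Q * c - 1)).card : ℝ) := by
      rw [card_filter]
      push_cast
      apply sum_congr rfl
      intro c _
      exact hprod c D hDP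
    rw [h4]
    have h5 : (X : ℝ) * ∏ p ∈ D, (1 / (p : ℝ)) = X / ((∏ p ∈ D, p : ℕ) : ℝ) := by
      rw [prod_div_distrib]
      push_cast
      simp [div_eq_mul_inv]
    rw [h5]
    exact h3
  have h3 : X * bF (fun p => 1 / (p : ℝ)) P (2 * t) - ∑ j ∈ range (2 * t), (P.card.choose j : ℝ) ≤
      ∑ c ∈ Ico X (2 * X), bF (ξ c) P (2 * t) := by
    have h4 : ∑ c ∈ Ico X (2 * X), bF (ξ c) P (2 * t) =
        ∑ j ∈ range (2 * t), (-1 : ℝ) ^ j * ∑ c ∈ Ico X (2 * X), bE (ξ c) P j := by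
      unfold bF
      rw [sum_comm]
      apply sum_congr rfl
      intro j _
      rw [mul_sum]
    rw [h4]
    unfold bF
    rw [mul_sum, ← sum_sub_distrib]
    apply sum_le_sum
    intro j _
    have h5 := abs_le.1 (h2 j)
    rcases neg_one_pow_eq_or ℝ j with h6 | h6
    · rw [h6]
      linarith [h5.1]
    · rw [h6]
      linarith [h5.2]
  refine le_trans ?_ h3
  -- the number of subsets
  have hPc : P.card + 1 ≤ y := by
    have h5 : P ⊆ Ico 2 (y + 1) := by
      intro p hp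
      have h6 := (mem_filter.1 (mem_filter.1 hp).1)
      rw [mem_Ico]
      exact ⟨h6.2.two_le, mem_range.1 h6.1⟩
    have h6 := card_le_card h5
    rw [Nat.card_Ico] at h6
    omega
  have h4 : ∑ j ∈ range (2 * t), (P.card.choose j : ℝ) ≤ (y : ℝ) ^ (2 * t) := by
    have h5 : ∑ j ∈ range (2 * t), P.card.choose j ≤ y ^ (2 * t) :=
      le_trans (sum_choose_le _ _) (Nat.pow_le_pow_left hPc _)
    exact_mod_cast h5
  -- the main term
  have hx0 : ∀ p ∈ P, (0 : ℝ) ≤ 1 / (p : ℝ) := fun p _ => by positivity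
  have hxh : ∀ p ∈ P, 1 / (p : ℝ) ≤ 1 / 2 := by
    intro p hp
    have : (2 : ℝ) ≤ p := by exact_mod_cast (hPp p hp).two_le
    exact one_div_le_one_div_of_le (by norm_num) this
  have hsum : ∑ p ∈ P, 1 / (p : ℝ) ≤ S := by
    refine le_trans ?_ hS
    apply sum_le_sum_of_subset_of_nonneg (filter_subset _ _)
    intro p _ _
    positivity
  have hsum0 : 0 ≤ ∑ p ∈ P, 1 / (p : ℝ) := sum_nonneg hx0
  have h5 := bF_even_ge (fun p => 1 / (p : ℝ)) P hx0 (fun p hp => by linarith [hxh p hp]) t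
  have h6 : Real.exp (-2 * S) ≤ ∏ p ∈ P, (1 - 1 / (p : ℝ)) := by
    calc Real.exp (-2 * S) ≤ Real.exp (∑ p ∈ P, -2 * (1 / (p : ℝ))) := by
          apply Real.exp_le_exp.2
          rw [← mul_sum]
          linarith
      _ = ∏ p ∈ P, Real.exp (-2 * (1 / (p : ℝ))) := Real.exp_sum _ _
      _ ≤ ∏ p ∈ P, (1 - 1 / (p : ℝ)) := by
          apply prod_le_prod
          · intro p _
            exact (Real.exp_pos _).le
          · intro p hp
            exact one_sub_ge _ (hx0 p hp) (hxh p hp)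
  have h7 : bE (fun p => 1 / (p : ℝ)) P (2 * t) ≤ Real.exp (-2 * S) / 2 := by
    refine le_trans (bE_le _ P hx0 (2 * t)) ?_
    have hf : (0 : ℝ) < ((2 * t).factorial : ℝ) := by positivity
    have hn : (0 : ℝ) ≤ 2 * (t : ℝ) := by positivity
    have h8 : (∑ p ∈ P, 1 / (p : ℝ)) ^ (2 * t) ≤ (2 * (t : ℝ) / 8) ^ (2 * t) := by
      apply pow_le_pow_left₀ hsum0
      linarith
    have h9 := Real.pow_div_factorial_le_exp (2 * (t : ℝ)) hn (2 * t)
    have h10 : (2 * (t : ℝ) / 8) ^ (2 * t) / ((2 * t).factorial : ℝ) ≤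
        Real.exp (2 * t) / 8 ^ (2 * t) := by
      rw [div_pow]
      have e3 : (2 * (t : ℝ)) ^ (2 * t) / 8 ^ (2 * t) / ((2 * t).factorial : ℝ) =
          (2 * (t : ℝ)) ^ (2 * t) / ((2 * t).factorial : ℝ) / 8 ^ (2 * t) := by
        rw [div_right_comm]
      rw [e3]
      exact div_le_div_of_nonneg_right h9 (by positivity)
    have h11 : (∑ p ∈ P, 1 / (p : ℝ)) ^ (2 * t) / ((2 * t).factorial : ℝ) ≤
        Real.exp (2 * t) / 8 ^ (2 * t) :=
      le_trans (div_le_div_of_nonneg_right h8 hf.le) h10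
    refine le_trans h11 ?_
    -- `e² ≤ 8`
    have he : Real.exp 2 ≤ 8 := by
      have h12 := Real.exp_one_lt_d9
      have h13 : Real.exp 2 = Real.exp 1 * Real.exp 1 := by
        rw [← Real.exp_add]
        norm_num
      have h14 := Real.exp_pos 1
      rw [h13]
      nlinarith
    have h12 : Real.exp (2 * t) / 8 ^ (2 * t) ≤ Real.exp (-(2 * t)) := by
      rw [div_le_iff₀ (by positivity)]
      have h13 : Real.exp (2 * t) = Real.exp (-(2 * t)) * (Real.exp 2) ^ (2 * t) := by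
        rw [← Real.exp_nat_mul, ← Real.exp_add]
        congr 1
        push_cast
        ring
      rw [h13]
      apply mul_le_mul_of_nonneg_left _ (Real.exp_pos _).le
      exact pow_le_pow_left₀ (Real.exp_pos _).le he _
    refine le_trans h12 ?_
    have h13 : Real.exp (-(2 * (t : ℝ))) ≤ Real.exp (-2 * S - 1) := by
      apply Real.exp_le_exp.2
      linarith
    refine le_trans h13 ?_
    have h14 : Real.exp (-2 * S - 1) = Real.exp (-2 * S) * (Real.exp 1)⁻¹ := by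
      rw [sub_eq_add_neg, Real.exp_add, Real.exp_neg]
    rw [h14, div_eq_mul_inv]
    apply mul_le_mul_of_nonneg_left _ (Real.exp_pos _).le
    apply inv_anti₀ (by norm_num)
    linarith [Real.add_one_le_exp (1 : ℝ)]
  have h8 : Real.exp (-2 * S) / 2 ≤ bF (fun p => 1 / (p : ℝ)) P (2 * t) := by linarith
  have h9 : (X : ℝ) * (Real.exp (-2 * S) / 2) ≤ X * bF (fun p => 1 / (p : ℝ)) P (2 * t) :=
    mul_le_mul_of_nonneg_left h8 (by positivity)
  linarith

end H3SP
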