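import Pool.Agent.H3SP.Pair

/-! MP_ae8ccf_nt: the sieve bound for families of moduli which are coprime to each other. -/

namespace H3SP

open Finset

lemma abs_cen_le {n : ℕ} (hn : 0 < n) (r k : ℤ) : |cen n r k| ≤ 1 := by
  unfold cen ind
  have h1 : (1 : ℝ) ≤ n := by exact_mod_cast hn
  have h2 : 1 / (n : ℝ) ≤ 1 := by rw [div_le_one (by linarith)]; exact h1
  have h3 : 0 ≤ 1 / (n : ℝ) := by positivity
  rw [abs_le]
  split_ifs <;> constructor <;> linarith

theorem colored {ι : Type*} [DecidableEq ι] {R : ℕ} (G : Fin R → Finset ι) (n : ι → ℕ)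
    (r : ι → ℤ) (z x M : ℕ)
    (hn : ∀ i, ∀ e ∈ G i, 1 < n e) (hz : ∀ i, ∀ e ∈ G i, n e ≤ z) (hM : ∀ i, (G i).card ≤ M)
    (hcop : ∀ i j, i ≠ j → ∀ e ∈ G i, ∀ e' ∈ G j, Nat.Coprime (n e) (n e'))
    (hcomp : ∀ i, ∀ e ∈ G i, ∑ e' ∈ (G i).filter (fun e' => 1 < Nat.gcd (n e) (n e') ∧
      ((Nat.gcd (n e) (n e') : ℕ) : ℤ) ∣ r e - r e'), (Nat.gcd (n e) (n e') : ℝ) / n e' ≤ 2) :
    (((range x).filter (fun k : ℕ => ∀ i, ∀ e ∈ G i, ¬ ((n e : ℤ) ∣ (k : ℤ) - r e))).card : ℝ) *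
        ∏ i, (∑ e ∈ G i, 1 / (n e : ℝ)) ^ 2 ≤
      x * ∏ i, (2 * ∑ e ∈ G i, 1 / (n e : ℝ)) + 2 * ((M : ℝ) * z) ^ (2 * R) := by
  set H : ℤ → ℝ := fun k => ∏ i, (∑ e ∈ G i, cen (n e) (r e) k) ^ 2 with hH
  have hH0 : ∀ k, 0 ≤ H k := fun k => prod_nonneg fun i _ => sq_nonneg _
  set Ni : Fin R → ℕ := fun i => ∏ e ∈ G i, n e with hNi
  have hNi0 : ∀ i, 0 < Ni i := fun i => prod_pos fun e he => by have := hn i e he; omega
  set N : ℕ := ∏ i, Ni i with hN
  have hN0 : 0 < N := prod_pos fun i _ => hNi0 i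
  have hdi : ∀ i, ∀ e ∈ G i, n e ∣ Ni i := fun i e he => dvd_prod_of_mem _ he
  have hdN : ∀ i, Ni i ∣ N := fun i => dvd_prod_of_mem _ (mem_univ i)
  -- the filter
  have step1 : (((range x).filter
      (fun k : ℕ => ∀ i, ∀ e ∈ G i, ¬ ((n e : ℤ) ∣ (k : ℤ) - r e))).card : ℝ) *
        ∏ i, (∑ e ∈ G i, 1 / (n e : ℝ)) ^ 2 ≤ ∑ k ∈ range x, H k := by
    rw [← nsmul_eq_mul, ← sum_const]
    refine (le_of_eq (sum_congr rfl ?_)).trans
      (sum_le_sum_of_subset_of_nonneg (filter_subset _ _) fun k _ _ => hH0 k)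
    intro k hk
    rw [mem_filter] at hk
    simp only [hH]
    refine prod_congr rfl fun i _ => ?_
    have : ∑ e ∈ G i, cen (n e) (r e) k = - ∑ e ∈ G i, 1 / (n e : ℝ) := by
      rw [← sum_neg_distrib]
      refine sum_congr rfl fun e he => ?_
      unfold cen ind
      rw [if_neg (hk.2 i e he)]; ring
    rw [this]; ring
  refine step1.trans ?_
  -- expansion
  set T := Fintype.piFinset (fun i : Fin R => G i ×ˢ G i) with hT
  set h : (Fin R → ι × ι) → ℤ → ℝ := fun g k =>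
    ∏ i, (cen (n (g i).1) (r (g i).1) k * cen (n (g i).2) (r (g i).2) k) with hh
  have hexp : ∀ k, H k = ∑ g ∈ T, h g k := by
    intro k
    simp only [hH, hh, hT]
    have := Finset.prod_univ_sum (fun i : Fin R => G i ×ˢ G i)
      (fun i (p : ι × ι) => cen (n p.1) (r p.1) k * cen (n p.2) (r p.2) k)
    rw [← this]
    refine prod_congr rfl fun i _ => ?_
    rw [sq, sum_mul_sum, ← sum_product']
  have hgm : ∀ g ∈ T, ∀ i, (g i).1 ∈ G i ∧ (g i).2 ∈ G i := by
    intro g hg i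
    rw [hT, Fintype.mem_piFinset] at hg
    exact mem_product.1 (hg i)
  have hterm : ∀ g ∈ T, ∑ k ∈ range x, h g k ≤ x * mean N (h g) + 2 * (z : ℝ) ^ (2 * R) := by
    intro g hg
    set Mg : ℕ := ∏ i, Nat.lcm (n (g i).1) (n (g i).2) with hMg
    have hpos : ∀ i, 0 < n (g i).1 ∧ 0 < n (g i).2 := fun i => by
      have h1 := hn i _ (hgm g hg i).1
      have h2 := hn i _ (hgm g hg i).2
      omega
    have hMg0 : 0 < Mg := prod_pos fun i _ => Nat.lcm_pos (hpos i).1 (hpos i).2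
    have hMgN : Mg ∣ N := prod_dvd_prod_of_dvd _ _ fun i _ =>
      Nat.lcm_dvd (hdi i _ (hgm g hg i).1) (hdi i _ (hgm g hg i).2)
    have hper : Per Mg (h g) := by
      refine Per.prod _ fun i _ => Per.mul ?_ ?_
      · exact (per_cen _ _).of_dvd ((Nat.dvd_lcm_left _ _).trans (dvd_prod_of_mem _ (mem_univ i)))
      · exact (per_cen _ _).of_dvd ((Nat.dvd_lcm_right _ _).trans (dvd_prod_of_mem _ (mem_univ i)))
    have hb : ∀ k, |h g k| ≤ 1 := by
      intro k
      simp only [hh]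
      rw [abs_prod]
      refine prod_le_one (fun i _ => abs_nonneg _) fun i _ => ?_
      rw [abs_mul]
      exact mul_le_one₀ (abs_cen_le (hpos i).1 _ _) (abs_nonneg _) (abs_cen_le (hpos i).2 _ _)
    have h1 := abs_sum_range_sub_mean hMg0 hper hb x
    rw [← mean_of_dvd hMg0 hN0 hMgN hper] at h1
    have h2 := (abs_le.1 h1).2
    have h3 : (Mg : ℝ) ≤ (z : ℝ) ^ (2 * R) := by
      have : Mg ≤ ∏ _i : Fin R, z ^ 2 := by
        refine prod_le_prod' fun i _ => ?_
        have hle : Nat.lcm (n (g i).1) (n (g i).2) ≤ n (g i).1 * n (g i).2 :=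
          Nat.le_of_dvd (Nat.mul_pos (hpos i).1 (hpos i).2) (Nat.lcm_dvd_mul _ _)
        calc _ ≤ n (g i).1 * n (g i).2 := hle
          _ ≤ z * z := Nat.mul_le_mul (hz i _ (hgm g hg i).1) (hz i _ (hgm g hg i).2)
          _ = z ^ 2 := by ring
      rw [prod_const, card_univ, Fintype.card_fin, ← pow_mul] at this
      exact_mod_cast this
    linarith
  have step2 : ∑ k ∈ range x, H k ≤ x * mean N H + T.card * (2 * (z : ℝ) ^ (2 * R)) := by
    have e1 : ∑ k ∈ range x, H k = ∑ g ∈ T, ∑ k ∈ range x, h g k := by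
      rw [sum_comm]; exact sum_congr rfl fun k _ => hexp k
    have e2 : mean N H = ∑ g ∈ T, mean N (h g) := by
      rw [← mean_sum]; exact mean_congr hexp
    rw [e1, e2, mul_sum, ← nsmul_eq_mul, ← sum_const, ← sum_add_distrib]
    exact sum_le_sum hterm
  refine step2.trans ?_
  -- the mean
  have hmean : mean N H ≤ ∏ i, (2 * ∑ e ∈ G i, 1 / (n e : ℝ)) := by
    have hNc : ∀ i ∈ (univ : Finset (Fin R)), ∀ j ∈ (univ : Finset (Fin R)), i ≠ j →
        Nat.Coprime (Ni i) (Ni j) := by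
      intro i _ j _ hij
      exact Nat.Coprime.prod_left fun e he => Nat.Coprime.prod_right fun e' he' =>
        hcop i j hij e he e' he'
    have := mean_prod (univ : Finset (Fin R)) Ni
      (fun i k => (∑ e ∈ G i, cen (n e) (r e) k) ^ 2) (fun i _ => hNi0 i) hNc
      (fun i _ => by
        intro k
        have hp : Per (Ni i) (fun k => ∑ e ∈ G i, cen (n e) (r e) k) :=
          Per.sum _ fun e he => (per_cen _ _).of_dvd (hdi i e he)
        have := hp k
        simp only at this ⊢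
        rw [this])
    rw [hN, hH, this]
    refine prod_le_prod (fun i _ => mean_nonneg fun k => sq_nonneg _) fun i _ => ?_
    exact mean_sq_le (G i) n r (hNi0 i) (hdi i) (hcomp i)
  have hcard : (T.card : ℝ) ≤ (M : ℝ) ^ (2 * R) := by
    have : T.card ≤ ∏ _i : Fin R, M ^ 2 := by
      rw [hT, Fintype.card_piFinset]
      refine prod_le_prod' fun i _ => ?_
      rw [card_product, sq]
      exact Nat.mul_le_mul (hM i) (hM i)
    rw [prod_const, card_univ, Fintype.card_fin, ← pow_mul] at this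
    exact_mod_cast this
  have hz0 : (0 : ℝ) ≤ 2 * (z : ℝ) ^ (2 * R) := by positivity
  calc (x : ℝ) * mean N H + T.card * (2 * (z : ℝ) ^ (2 * R))
      ≤ x * ∏ i, (2 * ∑ e ∈ G i, 1 / (n e : ℝ)) + (M : ℝ) ^ (2 * R) * (2 * (z : ℝ) ^ (2 * R)) :=
        add_le_add (mul_le_mul_of_nonneg_left hmean (Nat.cast_nonneg _))
          (mul_le_mul_of_nonneg_right hcard hz0)
    _ = _ := by rw [mul_pow]; ring

end H3SP
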