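import Pool.Agent.H3SP.Defs

/-! MP_ae8ccf_nt: the events (residue classes) and their pair correlations. -/

namespace H3SP

open Finset

/-- modulus of the event `((Q,T),c)` -/
def nn (e : (ℕ × ℕ) × ℕ) : ℕ := e.1.1 * e.2 - 1

/-- residue of the event `((Q,T),c)` -/
def rr (e : (ℕ × ℕ) × ℕ) : ℤ := 2 - (e.1.2 : ℤ) - e.2

/-- the events: `c ∈ [X, 2X)` with `Q c - 1` free of primes `≤ y` -/
def Ev (D : Finset (ℕ × ℕ)) (X y : ℕ) : Finset ((ℕ × ℕ) × ℕ) :=
  (D ×ˢ Ico X (2 * X)).filter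
    (fun e => ∀ p ∈ (range (y + 1)).filter Nat.Prime, ¬ p ∣ e.1.1 * e.2 - 1)

lemma mem_Ev {D : Finset (ℕ × ℕ)} {X y : ℕ} {e : (ℕ × ℕ) × ℕ} :
    e ∈ Ev D X y ↔ e.1 ∈ D ∧ (X ≤ e.2 ∧ e.2 < 2 * X) ∧
      ∀ p : ℕ, p.Prime → p ≤ y → ¬ p ∣ nn e := by
  unfold Ev nn
  simp only [mem_filter, mem_product, mem_Ico, mem_range]
  constructor
  · rintro ⟨⟨h1, h2⟩, h3⟩
    exact ⟨h1, h2, fun p hp hy => h3 p ⟨by omega, hp⟩⟩
  · rintro ⟨h1, h2, h3⟩
    exact ⟨⟨h1, h2⟩, fun p hp => h3 p hp.2 (by omega)⟩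

lemma cast_nn {e : (ℕ × ℕ) × ℕ} (h1 : 1 ≤ e.1.1) (h2 : 1 ≤ e.2) :
    ((nn e : ℕ) : ℤ) = (e.1.1 : ℤ) * e.2 - 1 := by
  unfold nn
  have : 1 ≤ e.1.1 * e.2 := Nat.one_le_iff_ne_zero.2 (by positivity)
  rw [Nat.cast_sub this]; push_cast; ring

/-- the key lemma: compatible classes with a common factor have the same `(Q,T)` -/
lemma key {D : Finset (ℕ × ℕ)} {X y B : ℕ} (hD : ∀ q ∈ D, 1 ≤ q.1 ∧ q.1 ≤ B ∧ q.2 < q.1)
    (hy : B ^ 3 ≤ y) (_hX : 1 ≤ X) {e e' : (ℕ × ℕ) × ℕ} (he : e ∈ Ev D X y) (he' : e' ∈ Ev D X y)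
    (hg : 1 < Nat.gcd (nn e) (nn e'))
    (hc : ((Nat.gcd (nn e) (nn e') : ℕ) : ℤ) ∣ rr e - rr e') : e.1 = e'.1 := by
  obtain ⟨heD, heX, heR⟩ := mem_Ev.1 he
  obtain ⟨heD', heX', -⟩ := mem_Ev.1 he'
  obtain ⟨hQ1, hQB, hTQ⟩ := hD _ heD
  obtain ⟨hQ1', hQB', hTQ'⟩ := hD _ heD'
  obtain ⟨p, hp, hpg⟩ := Nat.exists_prime_and_dvd (by omega : Nat.gcd (nn e) (nn e') ≠ 1)
  have hpe : p ∣ nn e := hpg.trans (Nat.gcd_dvd_left _ _)
  have hpe' : p ∣ nn e' := hpg.trans (Nat.gcd_dvd_right _ _)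
  have hpy : y < p := by
    by_contra h
    exact heR p hp (by omega) hpe
  have h1 : (p : ℤ) ∣ (e.1.1 : ℤ) * e.2 - 1 := by
    rw [← cast_nn hQ1 (by omega)]; exact_mod_cast hpe
  have h2 : (p : ℤ) ∣ (e'.1.1 : ℤ) * e'.2 - 1 := by
    rw [← cast_nn hQ1' (by omega)]; exact_mod_cast hpe'
  have h3 : (p : ℤ) ∣ rr e - rr e' := (Int.natCast_dvd_natCast.2 hpg).trans hc
  unfold rr at h3
  set Q : ℤ := (e.1.1 : ℤ) with hQ
  set Q' : ℤ := (e'.1.1 : ℤ) with hQ'
  set T : ℤ := (e.1.2 : ℤ) with hT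
  set T' : ℤ := (e'.1.2 : ℤ) with hT'
  have h4 : (p : ℤ) ∣ Q * Q' * (T - T') + (Q' - Q) := by
    have : Q * Q' * (T - T') + (Q' - Q) = (-(Q * Q')) * (2 - T - e.2 - (2 - T' - e'.2))
        + (-Q') * (Q * e.2 - 1) + Q * (Q' * e'.2 - 1) := by ring
    rw [this]
    exact dvd_add (dvd_add (Dvd.dvd.mul_left h3 _) (Dvd.dvd.mul_left h1 _)) (Dvd.dvd.mul_left h2 _)
  have hB : (1 : ℤ) ≤ B := by
    have : 1 ≤ B := hQ1.trans hQB
    exact_mod_cast this
  have a1 : 1 ≤ Q := by rw [hQ]; exact_mod_cast hQ1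
  have a2 : Q ≤ B := by rw [hQ]; exact_mod_cast hQB
  have a3 : T < Q := by rw [hQ, hT]; exact_mod_cast hTQ
  have a4 : 0 ≤ T := by rw [hT]; positivity
  have b1 : 1 ≤ Q' := by rw [hQ']; exact_mod_cast hQ1'
  have b2 : Q' ≤ B := by rw [hQ']; exact_mod_cast hQB'
  have b3 : T' < Q' := by rw [hQ', hT']; exact_mod_cast hTQ'
  have b4 : 0 ≤ T' := by rw [hT']; positivity
  have hyZ : (B : ℤ) ^ 3 < p := by
    have : B ^ 3 < p := lt_of_le_of_lt hy hpy
    exact_mod_cast this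
  have habs : |Q * Q' * (T - T') + (Q' - Q)| < p := by
    have c1 : |Q * Q' * (T - T')| ≤ B * B * (B - 1) := by
      rw [abs_mul, abs_of_pos (by positivity : 0 < Q * Q')]
      have c2 : |T - T'| ≤ B - 1 := by rw [abs_le]; constructor <;> linarith
      have c3 : Q * Q' ≤ B * B := mul_le_mul a2 b2 (by linarith) (by linarith)
      exact mul_le_mul c3 c2 (abs_nonneg _) (by nlinarith)
    have c4 : |Q' - Q| ≤ B - 1 := by rw [abs_le]; constructor <;> linarith
    have c5 := abs_add_le (Q * Q' * (T - T')) (Q' - Q)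
    nlinarith
  have h0 : Q * Q' * (T - T') + (Q' - Q) = 0 := Int.eq_zero_of_abs_lt_dvd h4 habs
  have d1 : Q ∣ Q' := by
    have : Q' = Q * (1 - Q' * (T - T')) := by linarith
    exact ⟨_, this⟩
  have d2 : Q' ∣ Q := by
    have : Q = Q' * (1 + Q * (T - T')) := by linarith
    exact ⟨_, this⟩
  have hQQ : Q = Q' := Int.dvd_antisymm (by linarith) (by linarith) d1 d2
  have hTT : T = T' := by
    rw [← hQQ] at h0
    have : Q * Q * (T - T') = 0 := by linarith
    rcases mul_eq_zero.1 this with h | h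
    · exfalso; nlinarith
    · linarith
  refine Prod.ext ?_ ?_
  · rw [hQ, hQ'] at hQQ; exact_mod_cast hQQ
  · rw [hT, hT'] at hTT; exact_mod_cast hTT

/-- counting a residue class in `[X, 2X)` -/
lemma card_class_lt (X g c : ℕ) (hg : 0 < g) :
    (((Ico X (2 * X)).filter (fun c' : ℕ => (g : ℤ) ∣ (c' : ℤ) - c)).card : ℝ) < X / g + 1 := by
  have h1 : (Ico X (2 * X)).filter (fun c' : ℕ => (g : ℤ) ∣ (c' : ℤ) - c)
      = (Ico X (2 * X)).filter (fun c' => c' ≡ c [MOD g]) := by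
    refine filter_congr fun c' _ => ?_
    rw [← Int.natCast_modEq_iff, Int.modEq_comm, Int.modEq_iff_dvd]
  rw [h1]
  have h2 := Nat.Ico_filter_modEq_card X (2 * X) hg c
  have hg' : (0 : ℚ) < g := by exact_mod_cast hg
  have h3 : (⌈(((2 * X : ℕ) : ℚ) - c) / g⌉ : ℚ) < (((2 * X : ℕ) : ℚ) - c) / g + 1 :=
    Int.ceil_lt_add_one _
  have h4 : ((X : ℚ) - c) / g ≤ (⌈((X : ℚ) - c) / g⌉ : ℚ) := Int.le_ceil _
  have h5 : ((((Ico X (2 * X)).filter (fun c' => c' ≡ c [MOD g])).card : ℤ) : ℚ)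
      < X / g + 1 := by
    rw [h2]
    push_cast
    rw [max_lt_iff]
    constructor
    · have : (((2 * X : ℕ) : ℚ) - c) / g = ((X : ℚ) - c) / g + X / g := by
        push_cast; field_simp; ring
      push_cast at h3 this
      linarith
    · positivity
  have h6 : ((((Ico X (2 * X)).filter (fun c' => c' ≡ c [MOD g])).card : ℚ)) < X / g + 1 := by
    exact_mod_cast h5
  have h7 := (Rat.cast_lt (K := ℝ)).2 h6
  push_cast at h7
  exact h7

lemma pow_card_le {y n s : ℕ} (hy : 1 ≤ y) (hn : 0 < n) (hns : n < y ^ s)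
    (hr : ∀ p : ℕ, p.Prime → p ≤ y → ¬ p ∣ n) :
    n.primeFactors.card ≤ s ∧ n.divisors.card ≤ 2 ^ s := by
  -- y ^ Ω ≤ n
  have h0 : n ≠ 0 := hn.ne'
  set Om := ∑ p ∈ n.primeFactors, n.factorization p with hOm
  have h1 : y ^ Om ≤ n := by
    calc y ^ Om = ∏ p ∈ n.primeFactors, y ^ n.factorization p := by rw [prod_pow_eq_pow_sum]
      _ ≤ ∏ p ∈ n.primeFactors, p ^ n.factorization p := by
        refine prod_le_prod' fun p hp => Nat.pow_le_pow_left ?_ _
        have hpp := Nat.prime_of_mem_primeFactors hp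
        have hpd := Nat.dvd_of_mem_primeFactors hp
        by_contra h
        exact hr p hpp (by omega) hpd
      _ = n := Nat.prod_factorization_pow_eq_self h0
  have hOs : Om ≤ s := by
    by_contra h
    have : y ^ s ≤ y ^ Om := Nat.pow_le_pow_right hy (by omega)
    omega
  constructor
  · refine le_trans ?_ hOs
    rw [card_eq_sum_ones]
    refine sum_le_sum fun p hp => ?_
    have hpp := Nat.prime_of_mem_primeFactors hp
    exact (hpp.dvd_iff_one_le_factorization h0).1 (Nat.dvd_of_mem_primeFactors hp)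
  · rw [Nat.card_divisors h0]
    calc ∏ p ∈ n.primeFactors, (n.factorization p + 1)
        ≤ ∏ p ∈ n.primeFactors, 2 ^ n.factorization p :=
          prod_le_prod' fun p _ => Nat.lt_two_pow_self
      _ = 2 ^ Om := by rw [prod_pow_eq_pow_sum]
      _ ≤ 2 ^ s := Nat.pow_le_pow_right (by norm_num) hOs

lemma nn_lower {D : Finset (ℕ × ℕ)} {X y : ℕ} (hD : ∀ q ∈ D, 1 ≤ q.1) (hX : 2 ≤ X)
    {e : (ℕ × ℕ) × ℕ} (he : e ∈ Ev D X y) : (e.1.1 : ℝ) * X / 2 ≤ nn e := by
  obtain ⟨heD, heX, -⟩ := mem_Ev.1 he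
  have h1 := hD _ heD
  have h2 : ((nn e : ℕ) : ℝ) = (e.1.1 : ℝ) * e.2 - 1 := by
    have := cast_nn h1 (by omega : 1 ≤ e.2)
    exact_mod_cast this
  rw [h2]
  have h3 : (1 : ℝ) ≤ e.1.1 := by exact_mod_cast h1
  have h4 : (X : ℝ) ≤ e.2 := by exact_mod_cast heX.1
  have h5 : (2 : ℝ) ≤ X := by exact_mod_cast hX
  nlinarith

/-- the compatible pairs -/
lemma comp_sum {D : Finset (ℕ × ℕ)} {X y B s : ℕ}
    (hD : ∀ q ∈ D, 1 ≤ q.1 ∧ q.1 ≤ B ∧ q.2 < q.1) (hy1 : 1 ≤ y)
    (hy : B ^ 3 ≤ y) (hX : 2 ≤ X) (hBX : 2 * B * X ≤ y ^ s)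
    (hs : ∀ q ∈ D, 2 ^ (s + 1) ≤ q.1) {e : (ℕ × ℕ) × ℕ} (he : e ∈ Ev D X y) :
    ∑ e' ∈ (Ev D X y).filter (fun e' => 1 < Nat.gcd (nn e) (nn e') ∧
      ((Nat.gcd (nn e) (nn e') : ℕ) : ℤ) ∣ rr e - rr e'), (Nat.gcd (nn e) (nn e') : ℝ) / nn e'
      ≤ 2 := by
  obtain ⟨heD, heX, heR⟩ := mem_Ev.1 he
  obtain ⟨hQ1, hQB, hTQ⟩ := hD _ heD
  have hXR : (2 : ℝ) ≤ X := by exact_mod_cast hX
  have hQR : (1 : ℝ) ≤ e.1.1 := by exact_mod_cast hQ1
  have hlow := nn_lower (fun q hq => (hD q hq).1) hX he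
  have hnnpos : 0 < nn e := by
    have : (0 : ℝ) < nn e := lt_of_lt_of_le (by positivity) hlow
    exact_mod_cast this
  have hnlt : nn e < y ^ s := by
    have : e.1.1 * e.2 ≤ B * (2 * X) := Nat.mul_le_mul hQB (by omega)
    unfold nn
    have h2 : 0 < e.1.1 * e.2 := Nat.mul_pos hQ1 (by omega)
    have h3 : B * (2 * X) = 2 * B * X := by ring
    omega
  have hdiv := (pow_card_le hy1 hnnpos hnlt heR).2
  -- injection into pairs (g, c')
  set S := (Ev D X y).filter (fun e' => 1 < Nat.gcd (nn e) (nn e') ∧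
      ((Nat.gcd (nn e) (nn e') : ℕ) : ℤ) ∣ rr e - rr e') with hS
  have hsame : ∀ e' ∈ S, e.1 = e'.1 := by
    intro e' he'
    rw [hS, mem_filter] at he'
    exact key hD hy (by omega) he he'.1 he'.2.1 he'.2.2
  have hgc : ∀ e' ∈ S, ((Nat.gcd (nn e) (nn e') : ℕ) : ℤ) ∣ (e'.2 : ℤ) - e.2 := by
    intro e' he'
    have h1 := hsame e' he'
    rw [hS, mem_filter] at he'
    have h2 := he'.2.2
    unfold rr at h2
    rw [← h1] at h2
    have : (2 - (e.1.2 : ℤ) - e.2) - (2 - (e.1.2 : ℤ) - e'.2) = (e'.2 : ℤ) - e.2 := by ring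
    rwa [this] at h2
  have hterm : ∀ e' ∈ S, e' ≠ e → (Nat.gcd (nn e) (nn e') : ℝ) / nn e' ≤
      ∑ g ∈ (nn e).divisors, if (g : ℤ) ∣ (e'.2 : ℤ) - e.2 then
        2 * (g : ℝ) / (e.1.1 * X) else 0 := by
    intro e' he' _
    have h1 := hsame e' he'
    have h2 := hgc e' he'
    have h3 : Nat.gcd (nn e) (nn e') ∈ (nn e).divisors :=
      Nat.mem_divisors.2 ⟨Nat.gcd_dvd_left _ _, hnnpos.ne'⟩
    refine le_trans ?_ (single_le_sum (f := fun g : ℕ => if (g : ℤ) ∣ (e'.2 : ℤ) - e.2 then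
        2 * (g : ℝ) / (e.1.1 * X) else 0) (fun g _ => by split_ifs <;> positivity) h3)
    rw [if_pos h2]
    have he'' : e' ∈ Ev D X y := by rw [hS, mem_filter] at he'; exact he'.1
    have hlow' := nn_lower (fun q hq => (hD q hq).1) hX he''
    rw [← h1] at hlow'
    have hp : (0 : ℝ) < (e.1.1 : ℝ) * X / 2 := by positivity
    calc (Nat.gcd (nn e) (nn e') : ℝ) / nn e' ≤ (Nat.gcd (nn e) (nn e') : ℝ) / (e.1.1 * X / 2) :=
          div_le_div_of_nonneg_left (by positivity) hp hlow'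
      _ = 2 * (Nat.gcd (nn e) (nn e') : ℝ) / (e.1.1 * X) := by field_simp
  by_cases heS : e ∈ S
  swap
  · -- then S is empty (nn e > 1 would put e in S), but a direct bound works as well
    exfalso
    apply heS
    rw [hS, mem_filter]
    refine ⟨he, ?_, ?_⟩
    · rw [Nat.gcd_self]
      have h6 := hs _ heD
      have h7 : 2 ≤ 2 ^ (s + 1) := by
        calc 2 = 2 ^ 1 := by norm_num
          _ ≤ 2 ^ (s + 1) := Nat.pow_le_pow_right (by norm_num) (by omega)
      unfold nn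
      have : 2 * 2 ≤ e.1.1 * e.2 := Nat.mul_le_mul (by omega) (by omega)
      omega
    · simp
  rw [← add_sum_erase _ _ heS]
  have hfirst : (Nat.gcd (nn e) (nn e) : ℝ) / nn e = 1 := by
    rw [Nat.gcd_self]; exact div_self (by exact_mod_cast hnnpos.ne')
  rw [hfirst]
  have hrest : ∑ e' ∈ S.erase e, (Nat.gcd (nn e) (nn e') : ℝ) / nn e' ≤ 1 := by
    calc ∑ e' ∈ S.erase e, (Nat.gcd (nn e) (nn e') : ℝ) / nn e'
        ≤ ∑ e' ∈ S.erase e, ∑ g ∈ (nn e).divisors, if (g : ℤ) ∣ (e'.2 : ℤ) - e.2 then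
          2 * (g : ℝ) / (e.1.1 * X) else 0 :=
          sum_le_sum fun e' he' => hterm e' (mem_of_mem_erase he') (ne_of_mem_erase he')
      _ = ∑ g ∈ (nn e).divisors, ∑ e' ∈ S.erase e, if (g : ℤ) ∣ (e'.2 : ℤ) - e.2 then
          2 * (g : ℝ) / (e.1.1 * X) else 0 := sum_comm
      _ ≤ ∑ _g ∈ (nn e).divisors, 2 / (e.1.1 : ℝ) := by
          refine sum_le_sum fun g hg => ?_
          have hg0 : 0 < g := Nat.pos_of_mem_divisors hg
          have hg0' : (0 : ℝ) < g := by exact_mod_cast hg0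
          rw [← sum_filter, sum_const, nsmul_eq_mul]
          have hcard : (((S.erase e).filter (fun e' => (g : ℤ) ∣ (e'.2 : ℤ) - e.2)).card : ℝ)
              ≤ X / g := by
            have hinj : ((S.erase e).filter (fun e' => (g : ℤ) ∣ (e'.2 : ℤ) - e.2)).card
                ≤ (((Ico X (2 * X)).filter (fun c' : ℕ => (g : ℤ) ∣ (c' : ℤ) - e.2)).erase
                  e.2).card := by
              refine card_le_card_of_injOn (fun e' => e'.2) ?_ ?_
              · intro e' he'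
                have he1 := (mem_filter.1 he').1
                have he2 := (mem_filter.1 he').2
                have he3 := mem_of_mem_erase he1
                have he4 : e' ∈ Ev D X y := by rw [hS, mem_filter] at he3; exact he3.1
                have he5 := (mem_Ev.1 he4).2.1
                simp only [coe_erase, coe_filter, mem_Ico, Set.mem_sdiff, Set.mem_ofPred_eq,
                  Set.mem_singleton_iff]
                refine ⟨⟨he5, he2⟩, ?_⟩
                intro h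
                exact ne_of_mem_erase he1 (Prod.ext (hsame e' he3).symm h)
              · intro a ha b hb hab
                have ha1 := hsame a (mem_of_mem_erase (mem_filter.1 ha).1)
                have hb1 := hsame b (mem_of_mem_erase (mem_filter.1 hb).1)
                exact Prod.ext (ha1.symm.trans hb1) hab
            have hmem : e.2 ∈ (Ico X (2 * X)).filter
                (fun c' : ℕ => (g : ℤ) ∣ (c' : ℤ) - e.2) := by
              rw [mem_filter, mem_Ico]; exact ⟨heX, by simp⟩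
            rw [card_erase_of_mem hmem] at hinj
            have hlt := card_class_lt X g e.2 hg0
            have hpos : 1 ≤ ((Ico X (2 * X)).filter
                (fun c' : ℕ => (g : ℤ) ∣ (c' : ℤ) - e.2)).card := card_pos.2 ⟨_, hmem⟩
            have h8 : (((S.erase e).filter (fun e' => (g : ℤ) ∣ (e'.2 : ℤ) - e.2)).card : ℝ)
                ≤ (((Ico X (2 * X)).filter
                (fun c' : ℕ => (g : ℤ) ∣ (c' : ℤ) - e.2)).card : ℝ) - 1 := by
              have := (Nat.cast_le (α := ℝ)).2 hinj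
              rwa [Nat.cast_sub hpos, Nat.cast_one] at this
            linarith
          calc _ ≤ (X : ℝ) / g * (2 * g / (e.1.1 * X)) :=
                mul_le_mul_of_nonneg_right hcard (by positivity)
            _ = 2 / (e.1.1 : ℝ) := by field_simp
      _ = (nn e).divisors.card * (2 / (e.1.1 : ℝ)) := by rw [sum_const, nsmul_eq_mul]
      _ ≤ 2 ^ s * (2 / (e.1.1 : ℝ)) :=
          mul_le_mul_of_nonneg_right (by exact_mod_cast hdiv) (by positivity)
      _ ≤ 1 := by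
          rw [← mul_div_assoc, div_le_one (by positivity)]
          have := hs _ heD
          have h9 : ((2 : ℝ)) ^ (s + 1) ≤ e.1.1 := by exact_mod_cast this
          rw [pow_succ] at h9
          exact h9
  linarith

/-- the weight of the events whose modulus is divisible by a given prime -/
lemma eta_sum {D : Finset (ℕ × ℕ)} {X y : ℕ} (hD : ∀ q ∈ D, 1 ≤ q.1) (hy : 1 ≤ y)
    (hX : 2 ≤ X) (hyX : y ≤ X) (p : ℕ) (hp : p.Prime) :
    ∑ e ∈ (Ev D X y).filter (fun e => p ∣ nn e), 1 / (nn e : ℝ) ≤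
      4 / y * ∑ q ∈ D, 1 / (q.1 : ℝ) := by
  have hyR : (1 : ℝ) ≤ y := by exact_mod_cast hy
  have hXR : (2 : ℝ) ≤ X := by exact_mod_cast hX
  have hyXR : (y : ℝ) ≤ X := by exact_mod_cast hyX
  by_cases hpy : p ≤ y
  · have : (Ev D X y).filter (fun e => p ∣ nn e) = ∅ := by
      rw [filter_eq_empty_iff]
      intro e he
      exact (mem_Ev.1 he).2.2 p hp hpy
    rw [this, sum_empty]
    exact mul_nonneg (by positivity) (sum_nonneg fun q _ => by positivity)
  push Not at hpy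
  have hpR : (y : ℝ) < p := by exact_mod_cast hpy
  have h1 : ∑ e ∈ (Ev D X y).filter (fun e => p ∣ nn e), 1 / (nn e : ℝ)
      ≤ ∑ e ∈ (D ×ˢ Ico X (2 * X)).filter (fun e => p ∣ e.1.1 * e.2 - 1),
        2 / ((e.1.1 : ℝ) * X) := by
    have hsub : (Ev D X y).filter (fun e => p ∣ nn e) ⊆
        (D ×ˢ Ico X (2 * X)).filter (fun e => p ∣ e.1.1 * e.2 - 1) := by
      intro e he
      have he1 := (mem_filter.1 he).1
      have he2 := (mem_filter.1 he).2
      rw [mem_filter, mem_product, mem_Ico]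
      exact ⟨⟨(mem_Ev.1 he1).1, (mem_Ev.1 he1).2.1⟩, he2⟩
    refine le_trans (sum_le_sum (g := fun e : (ℕ × ℕ) × ℕ => 2 / ((e.1.1 : ℝ) * X))
      fun e he => ?_) (sum_le_sum_of_subset_of_nonneg hsub fun e _ _ => by positivity)
    · have he1 := (mem_filter.1 he).1
      have hlow := nn_lower hD hX he1
      have hq := hD _ (mem_Ev.1 he1).1
      have hqR : (1 : ℝ) ≤ e.1.1 := by exact_mod_cast hq
      have : 2 / ((e.1.1 : ℝ) * X) = 1 / (e.1.1 * X / 2) := by field_simp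
      rw [this]
      exact one_div_le_one_div_of_le (by positivity) hlow
  refine h1.trans ?_
  rw [sum_filter, sum_product, mul_sum]
  refine sum_le_sum fun q hq => ?_
  have hq1 := hD q hq
  have hqR : (1 : ℝ) ≤ q.1 := by exact_mod_cast hq1
  simp only
  rw [← sum_filter, sum_const, nsmul_eq_mul]
  have hcard : (((Ico X (2 * X)).filter (fun c => p ∣ q.1 * c - 1)).card : ℝ) ≤ X / p + 1 := by
    by_cases hem : (Ico X (2 * X)).filter (fun c => p ∣ q.1 * c - 1) = ∅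
    · rw [hem, card_empty, Nat.cast_zero]; positivity
    · obtain ⟨c0, hc0⟩ := nonempty_iff_ne_empty.2 hem
      rw [mem_filter, mem_Ico] at hc0
      have hcop : IsCoprime (p : ℤ) (q.1 : ℤ) := by
        rw [Nat.isCoprime_iff_coprime, Nat.Prime.coprime_iff_not_dvd hp]
        intro hd
        have h1 : 1 ≤ q.1 * c0 := Nat.one_le_iff_ne_zero.2 (by
          have : 0 < q.1 * c0 := Nat.mul_pos hq1 (by omega)
          omega)
        have h2 : p ∣ 1 := by
          have := (Nat.dvd_sub (dvd_mul_of_dvd_left hd c0) hc0.2)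
          rwa [Nat.sub_sub_self h1] at this
        exact hp.one_lt.ne' (Nat.dvd_one.1 h2)
      refine le_trans ?_ (card_class_lt X p c0 hp.pos).le
      have : (Ico X (2 * X)).filter (fun c => p ∣ q.1 * c - 1) ⊆
          (Ico X (2 * X)).filter (fun c' : ℕ => (p : ℤ) ∣ (c' : ℤ) - c0) := by
        intro c hc
        rw [mem_filter, mem_Ico] at hc ⊢
        refine ⟨hc.1, ?_⟩
        have e1 : (p : ℤ) ∣ (q.1 : ℤ) * c - 1 := by
          have h3 : 1 ≤ q.1 * c := Nat.mul_pos hq1 (by omega)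
          have := Int.natCast_dvd_natCast.2 hc.2
          rw [Nat.cast_sub h3] at this
          push_cast at this; exact this
        have e2 : (p : ℤ) ∣ (q.1 : ℤ) * c0 - 1 := by
          have h3 : 1 ≤ q.1 * c0 := Nat.mul_pos hq1 (by omega)
          have := Int.natCast_dvd_natCast.2 hc0.2
          rw [Nat.cast_sub h3] at this
          push_cast at this; exact this
        have e3 : (p : ℤ) ∣ (q.1 : ℤ) * (c - c0) := by
          have : (q.1 : ℤ) * (c - c0) = (q.1 * c - 1) - (q.1 * c0 - 1) := by ring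
          rw [this]; exact dvd_sub e1 e2
        exact hcop.dvd_of_dvd_mul_left e3
      exact_mod_cast card_le_card this
  calc (((Ico X (2 * X)).filter (fun c => p ∣ q.1 * c - 1)).card : ℝ) * (2 / ((q.1 : ℝ) * X))
      ≤ (X / p + 1) * (2 / ((q.1 : ℝ) * X)) :=
        mul_le_mul_of_nonneg_right hcard (by positivity)
    _ = 2 / q.1 * (1 / p + 1 / X) := by
        have : (p : ℝ) ≠ 0 := by have := hp.pos; positivity
        field_simp
    _ ≤ 2 / q.1 * (1 / y + 1 / y) := by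
        refine mul_le_mul_of_nonneg_left ?_ (by positivity)
        exact add_le_add (one_div_le_one_div_of_le (by linarith) hpR.le)
          (one_div_le_one_div_of_le (by linarith) hyXR)
    _ = 4 / y * (1 / (q.1 : ℝ)) := by field_simp; ring

/-- lower bound for the total weight -/
lemma weight_lower {D : Finset (ℕ × ℕ)} {X y : ℕ} (hD : ∀ q ∈ D, 1 ≤ q.1) (hX : 2 ≤ X)
    {N0 : ℝ} (hN : ∀ q ∈ D, N0 ≤ (((Ico X (2 * X)).filter
      (fun c => ∀ p ∈ (range (y + 1)).filter Nat.Prime, ¬ p ∣ q.1 * c - 1)).card : ℝ)) :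
    N0 / (2 * X) * ∑ q ∈ D, 1 / (q.1 : ℝ) ≤ ∑ e ∈ Ev D X y, 1 / (nn e : ℝ) := by
  have hXR : (2 : ℝ) ≤ X := by exact_mod_cast hX
  have h1 : ∑ e ∈ Ev D X y, 1 / ((e.1.1 : ℝ) * (2 * X)) ≤ ∑ e ∈ Ev D X y, 1 / (nn e : ℝ) := by
    refine sum_le_sum fun e he => ?_
    have hlow := nn_lower hD hX he
    have hq := hD _ (mem_Ev.1 he).1
    have hqR : (1 : ℝ) ≤ e.1.1 := by exact_mod_cast hq
    have hpos : (0 : ℝ) < nn e := lt_of_lt_of_le (by positivity) hlow
    refine one_div_le_one_div_of_le hpos ?_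
    have h2 : nn e ≤ e.1.1 * (2 * X) := by
      unfold nn
      have := Nat.mul_le_mul_left e.1.1 (mem_Ev.1 he).2.1.2.le
      omega
    exact_mod_cast h2
  refine le_trans ?_ h1
  unfold Ev
  rw [sum_filter, sum_product, mul_sum]
  refine sum_le_sum fun q hq => ?_
  have hq1 := hD q hq
  have hqR : (1 : ℝ) ≤ q.1 := by exact_mod_cast hq1
  simp only
  rw [← sum_filter, sum_const, nsmul_eq_mul]
  calc N0 / (2 * X) * (1 / (q.1 : ℝ)) = N0 * (1 / ((q.1 : ℝ) * (2 * X))) := by field_simp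
    _ ≤ _ := mul_le_mul_of_nonneg_right (hN q hq) (by positivity)

end H3SP
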