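import Mathlib

/-! MP_ae8ccf_nt: many distinct pairs (product, sum of (a-1)).

Proof of `family`.  `B j = Ico (ρ^(2j+1)) (ρ^(2j+2))`, `D 0 = {(1,0)}`,
`D (j+1) = image (fun ((Q,T),a) => (Q*a, T+(a-1))) (D j ×ˢ B j)`.  For `(Q,T) ∈ D j`:
`T ≤ Σ_{i<j} ρ^(2i+2) ≤ 2 ρ^(2j)`, `ρ^(j²) ≤ Q ≤ ρ^(j(j+1))`, and `(Q,T)` comes from a multiset.
Call `((Q,T),a) ∈ D j ×ˢ B j` bad if some other `((Q₂,T₂),a₂)` has the same image.  Then `a ≠ a₂`,
`|a - a₂| = |T - T₂| ≤ 2 ρ^(2j)`; with `g = gcd(a,a₂)`, `a = g u`, `a₂ = g v` one gets `v ∣ Q`,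
`u ∣ a`, `u ≠ v`, `|u - v| ≤ 2ρ^(2j)/g ≤ 2u/ρ` (because `a = gu ≥ ρ^(2j+1)`).  So the weight
`Σ 1/(Qa)` of the bad triples is at most
`Σ_{(Q,T) ∈ D j} (1/Q) Σ_{v ∣ Q} Σ_{u : 0 < |u-v| ≤ 2u/ρ} Σ_{a ∈ B j, u ∣ a} 1/a
  ≤ (7/ρ)(1 + log ρ) Σ_{(Q,T) ∈ D j} d(Q)/Q`
(`bad_inner` below), and `V j = Σ_{D j} d(Q)/Q ≤ ∏_{i<j} Σ_{a ∈ B i} d(a)/a ≤ (1 + 2 m log ρ)^(2 j)`
(`d(Qa) ≤ d(Q) d(a)`, `sum_divisors_div_le`).  The map is injective on the good triples, so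
`W (j+1) ≥ W j * Σ_{a ∈ B j} 1/a - 1 ≥ W j * log ρ - 1 ≥ W j * (log ρ - 1)` (as `W j ≥ 1`),
`W j = Σ_{D j} 1/Q`. -/

namespace H3SP

open Finset

/-- harmonic sum over an interval -/
theorem log_le_sum_Ico {X Y : ℕ} (hX : 1 ≤ X) (hXY : X ≤ Y) :
    Real.log (Y / X) ≤ ∑ a ∈ Ico X Y, 1 / (a : ℝ) := by
  have hX0 : (0 : ℝ) < X := by exact_mod_cast hX
  induction Y, hXY using Nat.le_induction with
  | base => rw [Ico_self, sum_empty, div_self hX0.ne', Real.log_one]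
  | succ K hK ih =>
    have hK0 : (0 : ℝ) < K := by exact_mod_cast (lt_of_lt_of_le hX hK)
    rw [Finset.sum_Ico_succ_top hK]
    have h1 : Real.log (((K + 1 : ℕ) : ℝ) / X) = Real.log (K / X) + Real.log ((K + 1) / K) := by
      rw [← Real.log_mul (by positivity) (by positivity)]
      congr 1
      push_cast
      field_simp
    have h2 : Real.log (((K : ℝ) + 1) / K) ≤ 1 / K := by
      have := Real.log_le_sub_one_of_pos (x := ((K : ℝ) + 1) / K) (by positivity)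
      have e : ((K : ℝ) + 1) / K - 1 = 1 / K := by field_simp; ring
      linarith
    rw [h1]
    linarith

theorem harm_le {k0 K : ℕ} (h0 : 1 ≤ k0) (hK : k0 ≤ K) :
    ∑ k ∈ Ico k0 (K + 1), 1 / (k : ℝ) ≤ 1 / k0 + Real.log (K / k0) := by
  have hX0 : (0 : ℝ) < k0 := by exact_mod_cast h0
  induction K, hK using Nat.le_induction with
  | base =>
    rw [Finset.sum_Ico_succ_top le_rfl, Ico_self, sum_empty, div_self hX0.ne', Real.log_one]
    linarith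
  | succ K hK ih =>
    have hK0 : (0 : ℝ) < K := by exact_mod_cast (lt_of_lt_of_le h0 hK)
    rw [Finset.sum_Ico_succ_top (by omega)]
    have h1 : Real.log (((K + 1 : ℕ) : ℝ) / k0) = Real.log (K / k0) + Real.log ((K + 1) / K) := by
      rw [← Real.log_mul (by positivity) (by positivity)]
      congr 1
      push_cast
      field_simp
    have h2 : 1 / ((K + 1 : ℕ) : ℝ) ≤ Real.log (((K : ℝ) + 1) / K) := by
      have := Real.log_le_sub_one_of_pos (x := (K : ℝ) / (K + 1)) (by positivity)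
      have e : (K : ℝ) / (K + 1) - 1 = -(1 / ((K + 1 : ℕ) : ℝ)) := by push_cast; field_simp; ring
      have e2 : Real.log ((K : ℝ) / (K + 1)) = -Real.log (((K : ℝ) + 1) / K) := by
        rw [← Real.log_inv, inv_div]
      linarith
    rw [h1]
    linarith

theorem harm_one {Y : ℕ} (hY : 1 ≤ Y) :
    ∑ k ∈ Ico 1 Y, 1 / (k : ℝ) ≤ 1 + Real.log Y := by
  rcases Nat.lt_or_ge 1 Y with h | h
  · obtain ⟨K, rfl⟩ : ∃ K, Y = K + 1 := ⟨Y - 1, by omega⟩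
    have h1 := harm_le (k0 := 1) (K := K) le_rfl (by omega)
    rw [Nat.cast_one, div_one, div_one] at h1
    have hK0 : (0 : ℝ) < K := by exact_mod_cast (by omega : 0 < K)
    have h2 : Real.log (K : ℝ) ≤ Real.log ((K + 1 : ℕ) : ℝ) := by
      apply Real.log_le_log hK0
      push_cast; linarith
    linarith
  · have : Y = 1 := le_antisymm h hY
    subst this
    simp

/-- multiples of `u` in an interval `[X, ρX)` -/
theorem sum_mult_le {X ρ u : ℕ} (hX : 1 ≤ X) (hρ : 1 ≤ ρ) (hu : 1 ≤ u) :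
    ∑ a ∈ (Ico X (ρ * X)).filter (fun a => u ∣ a), 1 / (a : ℝ) ≤ (1 + Real.log ρ) / u := by
  have hu0 : (0 : ℝ) < u := by exact_mod_cast hu
  have hlog : 0 ≤ Real.log ρ := Real.log_nonneg (by exact_mod_cast hρ)
  obtain ⟨k0, hk0⟩ : ∃ k0, k0 = (X + u - 1) / u := ⟨_, rfl⟩
  obtain ⟨K1, hK1⟩ : ∃ K1, K1 = (ρ * X + u - 1) / u := ⟨_, rfl⟩
  have hlow : ∀ k, k0 ≤ k ↔ X ≤ u * k := by
    intro k
    rw [hk0]
    constructor
    · intro h
      have h1 : X + u - 1 < u * ((X + u - 1) / u + 1) := Nat.lt_mul_div_succ _ hu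
      have h2 : u * ((X + u - 1) / u + 1) ≤ u * (k + 1) := Nat.mul_le_mul_left u (by omega)
      have h3 : u * (k + 1) = u * k + u := by ring
      omega
    · intro h
      by_contra hc
      push Not at hc
      have h1 : k + 1 ≤ (X + u - 1) / u := hc
      rw [Nat.le_div_iff_mul_le hu] at h1
      have h3 : (k + 1) * u = u * k + u := by ring
      omega
  have hhigh : ∀ k, k < K1 ↔ u * k < ρ * X := by
    intro k
    rw [hK1]
    constructor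
    · intro h
      have h1 : k + 1 ≤ (ρ * X + u - 1) / u := h
      rw [Nat.le_div_iff_mul_le hu] at h1
      have h3 : (k + 1) * u = u * k + u := by ring
      omega
    · intro h
      by_contra hc
      push Not at hc
      have h1 : ρ * X + u - 1 < u * ((ρ * X + u - 1) / u + 1) := Nat.lt_mul_div_succ _ hu
      have h2 : u * ((ρ * X + u - 1) / u + 1) ≤ u * (k + 1) := Nat.mul_le_mul_left u (by omega)
      have h3 : u * (k + 1) = u * k + u := by ring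
      omega
  have hset : (Ico X (ρ * X)).filter (fun a => u ∣ a) = (Ico k0 K1).image (fun k => u * k) := by
    ext a
    rw [mem_filter, mem_Ico, mem_image]
    constructor
    · rintro ⟨⟨h1, h2⟩, ⟨k, rfl⟩⟩
      exact ⟨k, by rw [mem_Ico, hlow, hhigh]; exact ⟨h1, h2⟩, rfl⟩
    · rintro ⟨k, hk, rfl⟩
      rw [mem_Ico, hlow, hhigh] at hk
      exact ⟨hk, dvd_mul_right u k⟩
  have hinj : ∀ x ∈ Ico k0 K1, ∀ y ∈ Ico k0 K1, u * x = u * y → x = y := by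
    intro x _ y _ h
    exact Nat.eq_of_mul_eq_mul_left hu h
  rw [hset, sum_image hinj]
  have hk01 : 1 ≤ k0 := by
    rw [hk0, Nat.le_div_iff_mul_le hu]
    omega
  have hk00 : (0 : ℝ) < k0 := by exact_mod_cast hk01
  have hmain : ∑ k ∈ Ico k0 K1, 1 / (k : ℝ) ≤ 1 + Real.log ρ := by
    rcases Nat.lt_or_ge k0 K1 with h | h
    · obtain ⟨K, rfl⟩ : ∃ K, K1 = K + 1 := ⟨K1 - 1, by omega⟩
      refine (harm_le hk01 (by omega)).trans ?_
      have h1 : (1 : ℝ) / k0 ≤ 1 := by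
        rw [div_le_one hk00]
        exact_mod_cast hk01
      have h2 : Real.log ((K : ℝ) / k0) ≤ Real.log ρ := by
        have hK0 : (0 : ℝ) < K := by exact_mod_cast (by omega : 0 < K)
        apply Real.log_le_log (by positivity)
        rw [div_le_iff₀ hk00]
        have h3 := (hlow k0).1 le_rfl
        have h4 := (hhigh K).1 (by omega)
        have h5 : u * K < u * (ρ * k0) := by
          calc u * K < ρ * X := h4
            _ ≤ ρ * (u * k0) := Nat.mul_le_mul_left ρ h3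
            _ = u * (ρ * k0) := by ring
        have h6 : K < ρ * k0 := lt_of_mul_lt_mul_left h5 (Nat.zero_le u)
        exact_mod_cast h6.le
      linarith
    · rw [Ico_eq_empty (by omega), sum_empty]
      linarith
  calc ∑ k ∈ Ico k0 K1, 1 / ((u * k : ℕ) : ℝ) = (∑ k ∈ Ico k0 K1, 1 / (k : ℝ)) / u := by
        rw [sum_div]
        refine sum_congr rfl fun k hk => ?_
        push_cast
        rw [div_div, mul_comm]
    _ ≤ (1 + Real.log ρ) / u := by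
        apply div_le_div_of_nonneg_right hmain hu0.le

/-- the numbers `u ≠ v` close to `v` -/
theorem sum_close_le {v ρ : ℕ} (hρ : 8 ≤ ρ) (hv : 1 ≤ v) :
    ∑ u ∈ (Icc 1 (2 * v)).filter (fun u => u ≠ v ∧ |(u : ℝ) - v| ≤ 2 * u / ρ), 1 / (u : ℝ)
      ≤ 7 / ρ := by
  have hv0 : (1 : ℝ) ≤ v := by exact_mod_cast hv
  have hρ0 : (8 : ℝ) ≤ ρ := by exact_mod_cast hρ
  have hρ00 : (0 : ℝ) < ρ := by linarith
  set S := (Icc 1 (2 * v)).filter (fun u => u ≠ v ∧ |(u : ℝ) - v| ≤ 2 * u / ρ) with hS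
  have hfac : ∀ u ∈ S, (1 : ℝ) ≤ u ∧ |(u : ℝ) - v| ≤ 2 * u / ρ ∧ (4 / 5 : ℝ) * v ≤ u ∧
      (u : ℝ) ≤ 4 / 3 * v := by
    intro u hu
    rw [hS, mem_filter, mem_Icc] at hu
    obtain ⟨⟨h1, h2⟩, h3, h4⟩ := hu
    have h5 : (1 : ℝ) ≤ u := by exact_mod_cast h1
    have h6 : 2 * (u : ℝ) / ρ ≤ u / 4 := by
      rw [div_le_iff₀ hρ00]
      nlinarith
    have h7 := abs_le.mp (h4.trans h6)
    exact ⟨h5, h4, by linarith, by linarith⟩
  obtain ⟨k, hk⟩ : ∃ k : ℕ, k = ⌊(8 / 3 : ℝ) * v / ρ⌋₊ := ⟨_, rfl⟩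
  have hkle : (k : ℝ) ≤ (8 / 3 : ℝ) * v / ρ := by
    rw [hk]
    exact Nat.floor_le (by positivity)
  have hsub : S ⊆ (Icc (v - k) (v + k)).erase v := by
    intro u hu
    obtain ⟨h1, h2, h3, h4⟩ := hfac u hu
    have h5 : u ≠ v := by
      rw [hS, mem_filter] at hu
      exact hu.2.1
    have h6 : |(u : ℝ) - v| ≤ (8 / 3 : ℝ) * v / ρ := by
      refine h2.trans ?_
      apply div_le_div_of_nonneg_right _ hρ00.le
      linarith
    have h7 : Int.natAbs ((u : ℤ) - v) ≤ k := by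
      have h8 : ((Int.natAbs ((u : ℤ) - v) : ℕ) : ℝ) ≤ (8 / 3 : ℝ) * v / ρ := by
        have : ((Int.natAbs ((u : ℤ) - v) : ℕ) : ℝ) = |(u : ℝ) - v| := by
          rw [Nat.cast_natAbs]
          push_cast
          rfl
        rw [this]; exact h6
      rw [hk]
      exact Nat.le_floor h8
    rw [mem_erase, mem_Icc]
    refine ⟨h5, ?_, ?_⟩ <;> omega
  have hcard : S.card ≤ 2 * k := by
    refine (card_le_card hsub).trans ?_
    rw [card_erase_of_mem (by rw [mem_Icc]; omega), Nat.card_Icc]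
    omega
  have hcard' : (S.card : ℝ) ≤ 2 * ((8 / 3 : ℝ) * v / ρ) := by
    have : (S.card : ℝ) ≤ 2 * k := by exact_mod_cast hcard
    linarith
  calc ∑ u ∈ S, 1 / (u : ℝ) ≤ ∑ u ∈ S, (5 / 4 : ℝ) / v := by
        refine sum_le_sum fun u hu => ?_
        obtain ⟨h1, h2, h3, h4⟩ := hfac u hu
        rw [div_le_div_iff₀ (by linarith) (by linarith)]
        linarith
    _ = S.card * ((5 / 4 : ℝ) / v) := by rw [sum_const, nsmul_eq_mul]
    _ ≤ 2 * ((8 / 3 : ℝ) * v / ρ) * ((5 / 4 : ℝ) / v) := by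
        apply mul_le_mul_of_nonneg_right hcard' (by positivity)
    _ = (20 / 3) / ρ := by field_simp; ring
    _ ≤ 7 / ρ := by
        apply div_le_div_of_nonneg_right _ hρ00.le
        norm_num

theorem sum_divisors_div_le {Y : ℕ} (hY : 1 ≤ Y) :
    ∑ a ∈ Ico 1 Y, ((Nat.divisors a).card : ℝ) / a ≤ (1 + Real.log Y) ^ 2 := by
  have hH := harm_one hY
  have hH0 : 0 ≤ ∑ k ∈ Ico 1 Y, 1 / (k : ℝ) := sum_nonneg fun k _ => by positivity
  have h1 : ∑ a ∈ Ico 1 Y, ((Nat.divisors a).card : ℝ) / a =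
      ∑ a ∈ Ico 1 Y, ∑ x ∈ Ico 1 Y, if x ∣ a then 1 / (a : ℝ) else 0 := by
    refine sum_congr rfl fun a ha => ?_
    rw [mem_Ico] at ha
    rw [← sum_filter, sum_const, nsmul_eq_mul, div_eq_mul_one_div]
    congr 2
    congr 1
    ext x
    rw [Nat.mem_divisors, mem_filter, mem_Ico]
    constructor
    · rintro ⟨h2, h3⟩
      have h4 := Nat.le_of_dvd (by omega) h2
      have h5 := Nat.pos_of_dvd_of_pos h2 (by omega)
      exact ⟨⟨h5, by omega⟩, h2⟩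
    · rintro ⟨_, h2⟩
      exact ⟨h2, by omega⟩
  rw [h1, sum_comm]
  have h2 : ∀ x ∈ Ico 1 Y, (∑ a ∈ Ico 1 Y, if x ∣ a then 1 / (a : ℝ) else 0) ≤
      1 / (x : ℝ) * ∑ k ∈ Ico 1 Y, 1 / (k : ℝ) := by
    intro x hx
    rw [mem_Ico] at hx
    rw [← sum_filter, mul_sum]
    have h3 : (Ico 1 Y).filter (fun a => x ∣ a) ⊆ (Ico 1 Y).image (fun k => x * k) := by
      intro a ha
      rw [mem_filter, mem_Ico] at ha
      obtain ⟨⟨h4, h5⟩, ⟨k, rfl⟩⟩ := ha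
      rw [mem_image]
      refine ⟨k, ?_, rfl⟩
      rw [mem_Ico]
      constructor
      · rcases Nat.eq_zero_or_pos k with h6 | h6
        · subst h6; omega
        · exact h6
      · calc k ≤ x * k := Nat.le_mul_of_pos_left k hx.1
          _ < Y := h5
    calc ∑ a ∈ (Ico 1 Y).filter (fun a => x ∣ a), 1 / (a : ℝ) ≤
          ∑ a ∈ (Ico 1 Y).image (fun k => x * k), 1 / (a : ℝ) :=
          sum_le_sum_of_subset_of_nonneg h3 fun a _ _ => by positivity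
      _ = ∑ k ∈ Ico 1 Y, 1 / ((x * k : ℕ) : ℝ) := by
          rw [sum_image]
          intro a _ b _ hab
          exact Nat.eq_of_mul_eq_mul_left hx.1 hab
      _ ≤ ∑ k ∈ Ico 1 Y, 1 / (x : ℝ) * (1 / (k : ℝ)) := by
          refine sum_le_sum fun k _ => ?_
          push_cast
          rw [one_div_mul_one_div]
  calc ∑ x ∈ Ico 1 Y, (∑ a ∈ Ico 1 Y, if x ∣ a then 1 / (a : ℝ) else 0) ≤
        ∑ x ∈ Ico 1 Y, 1 / (x : ℝ) * ∑ k ∈ Ico 1 Y, 1 / (k : ℝ) := sum_le_sum h2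
    _ = (∑ k ∈ Ico 1 Y, 1 / (k : ℝ)) ^ 2 := by rw [← sum_mul, pow_two]
    _ ≤ (1 + Real.log Y) ^ 2 := pow_le_pow_left₀ hH0 hH 2

theorem sum_image_le_fam {α β : Type*} [DecidableEq α] [DecidableEq β] (s : Finset α) (g : α → β)
    (F : β → ℝ) (hF : ∀ x, 0 ≤ F x) : ∑ x ∈ s.image g, F x ≤ ∑ y ∈ s, F (g y) := by
  rw [← sum_fiberwise_of_maps_to (s := s) (t := s.image g) (g := g)
    (fun y hy => mem_image_of_mem g hy)]
  refine sum_le_sum fun x hx => ?_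
  obtain ⟨y, hy, rfl⟩ := mem_image.mp hx
  exact single_le_sum (f := fun z => F (g z)) (fun z _ => hF _)
    (mem_filter.mpr ⟨hy, rfl⟩)

/-- the blocks -/
def Blk (ρ j : ℕ) : Finset ℕ := Ico (ρ ^ (2 * j + 1)) (ρ * ρ ^ (2 * j + 1))

/-- the sets of pairs -/
def Dset (ρ : ℕ) : ℕ → Finset (ℕ × ℕ)
  | 0 => {(1, 0)}
  | j + 1 => (Dset ρ j ×ˢ Blk ρ j).image (fun p => (p.1.1 * p.2, p.1.2 + (p.2 - 1)))

theorem Dset_succ (ρ j : ℕ) : Dset ρ (j + 1) =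
    (Dset ρ j ×ˢ Blk ρ j).image (fun p => (p.1.1 * p.2, p.1.2 + (p.2 - 1))) := rfl

theorem mem_Dset_succ {ρ j : ℕ} {q : ℕ × ℕ} (hq : q ∈ Dset ρ (j + 1)) :
    ∃ Q T a, (Q, T) ∈ Dset ρ j ∧ a ∈ Blk ρ j ∧ q = (Q * a, T + (a - 1)) := by
  rw [Dset_succ, mem_image] at hq
  obtain ⟨⟨⟨Q, T⟩, a⟩, hp, rfl⟩ := hq
  rw [mem_product] at hp
  exact ⟨Q, T, a, hp.1, hp.2, rfl⟩

theorem mem_Blk {ρ j a : ℕ} : a ∈ Blk ρ j ↔ ρ ^ (2 * j + 1) ≤ a ∧ a < ρ ^ (2 * j + 2) := by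
  unfold Blk
  rw [mem_Ico]
  have e : ρ * ρ ^ (2 * j + 1) = ρ ^ (2 * j + 2) := by rw [pow_succ' ρ (2 * j + 1)]
  rw [e]

theorem Blk_two {ρ j a : ℕ} (hρ : 8 ≤ ρ) (ha : a ∈ Blk ρ j) : 2 ≤ a := by
  rw [mem_Blk] at ha
  have h1 : ρ ≤ ρ ^ (2 * j + 1) := Nat.le_self_pow (by omega) ρ
  omega

theorem Dset_multiset {ρ : ℕ} (hρ : 8 ≤ ρ) : ∀ j, ∀ q ∈ Dset ρ j, ∃ s : Multiset ℕ,
    Multiset.card s = j ∧ (∀ a ∈ s, 2 ≤ a) ∧ s.prod = q.1 ∧
      (s.map (fun a => a - 1)).sum = q.2 := by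
  intro j
  induction j with
  | zero =>
    intro q hq
    have : q = (1, 0) := by
      have h : q ∈ ({(1, 0)} : Finset (ℕ × ℕ)) := hq
      exact mem_singleton.mp h
    subst this
    exact ⟨0, by simp, by simp, by simp, by simp⟩
  | succ j ih =>
    intro q hq
    obtain ⟨Q, T, a, hQ, ha, rfl⟩ := mem_Dset_succ hq
    obtain ⟨s, h1, h2, h3, h4⟩ := ih _ hQ
    refine ⟨a ::ₘ s, ?_, ?_, ?_, ?_⟩
    · rw [Multiset.card_cons, h1]
    · intro x hx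
      rcases Multiset.mem_cons.mp hx with rfl | hx
      · exact Blk_two hρ ha
      · exact h2 x hx
    · rw [Multiset.prod_cons, h3, mul_comm]
    · rw [Multiset.map_cons, Multiset.sum_cons, h4, add_comm]

theorem Dset_bounds {ρ : ℕ} : ∀ j, ∀ q ∈ Dset ρ j,
    ρ ^ (j ^ 2) ≤ q.1 ∧ q.1 ≤ ρ ^ (j * (j + 1)) := by
  intro j
  induction j with
  | zero =>
    intro q hq
    have : q = (1, 0) := by
      have h : q ∈ ({(1, 0)} : Finset (ℕ × ℕ)) := hq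
      exact mem_singleton.mp h
    subst this
    simp
  | succ j ih =>
    intro q hq
    obtain ⟨Q, T, a, hQ, ha, rfl⟩ := mem_Dset_succ hq
    obtain ⟨h1, h2⟩ := ih _ hQ
    rw [mem_Blk] at ha
    constructor
    · calc ρ ^ ((j + 1) ^ 2) = ρ ^ (j ^ 2) * ρ ^ (2 * j + 1) := by
            rw [← pow_add]; congr 1; ring
        _ ≤ Q * a := Nat.mul_le_mul h1 ha.1
    · calc Q * a ≤ ρ ^ (j * (j + 1)) * ρ ^ (2 * j + 2) := Nat.mul_le_mul h2 ha.2.le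
        _ = ρ ^ ((j + 1) * (j + 1 + 1)) := by
            rw [← pow_add]; congr 1; ring

theorem Dset_sum {ρ : ℕ} (hρ : 8 ≤ ρ) : ∀ j, ∀ q ∈ Dset ρ j, q.2 ≤ 2 * ρ ^ (2 * j) := by
  intro j
  induction j with
  | zero =>
    intro q hq
    have : q = (1, 0) := by
      have h : q ∈ ({(1, 0)} : Finset (ℕ × ℕ)) := hq
      exact mem_singleton.mp h
    subst this
    simp
  | succ j ih =>
    intro q hq
    obtain ⟨Q, T, a, hQ, ha, rfl⟩ := mem_Dset_succ hq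
    have h1 := ih _ hQ
    rw [mem_Blk] at ha
    simp only at h1 ⊢
    have e : ρ ^ (2 * (j + 1)) = ρ ^ (2 * j + 2) := by congr 1
    have e2 : ρ ^ (2 * j + 2) = ρ ^ (2 * j) * (ρ * ρ) := by rw [pow_add]; ring
    have h3 : 2 * ρ ^ (2 * j) ≤ ρ ^ (2 * j + 2) := by
      rw [e2]
      calc 2 * ρ ^ (2 * j) = ρ ^ (2 * j) * 2 := by ring
        _ ≤ ρ ^ (2 * j) * (ρ * ρ) := Nat.mul_le_mul_left _ (by nlinarith)
    rw [e]
    omega

/-- close divisors: the condition satisfied by all collisions -/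
def BadT (ρ : ℕ) (p : (ℕ × ℕ) × ℕ) : Prop :=
  ∃ v ∈ Nat.divisors p.1.1, ∃ u ∈ (Icc 1 (2 * v)).filter
    (fun u => u ≠ v ∧ |(u : ℝ) - v| ≤ 2 * u / ρ), u ∣ p.2

theorem bad_of_collision {ρ j : ℕ} (hρ : 8 ≤ ρ) {p p' : (ℕ × ℕ) × ℕ}
    (hp : p ∈ Dset ρ j ×ˢ Blk ρ j) (hp' : p' ∈ Dset ρ j ×ˢ Blk ρ j) (hne : p ≠ p')
    (h1 : p.1.1 * p.2 = p'.1.1 * p'.2) (h2 : p.1.2 + (p.2 - 1) = p'.1.2 + (p'.2 - 1)) :
    BadT ρ p := by
  obtain ⟨⟨Q, T⟩, a⟩ := p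
  obtain ⟨⟨Q', T'⟩, a'⟩ := p'
  rw [mem_product] at hp hp'
  simp only at hp hp' h1 h2
  have ha := Blk_two hρ hp.2
  have ha' := Blk_two hρ hp'.2
  have hρ0 : 0 < ρ := by omega
  have hQ0 : 0 < Q := lt_of_lt_of_le (pow_pos hρ0 _) (Dset_bounds j _ hp.1).1
  have hT := Dset_sum hρ j _ hp.1
  have hT' := Dset_sum hρ j _ hp'.1
  simp only at hT hT'
  have haa : a ≠ a' := by
    rintro rfl
    have e1 : Q = Q' := Nat.eq_of_mul_eq_mul_right (by omega) h1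
    have e2 : T = T' := by omega
    exact hne (by rw [e1, e2])
  obtain ⟨g, hg⟩ : ∃ g, g = Nat.gcd a a' := ⟨_, rfl⟩
  have hg0 : 0 < g := by rw [hg]; exact Nat.gcd_pos_of_pos_left _ (by omega)
  obtain ⟨u, hu⟩ : g ∣ a := by rw [hg]; exact Nat.gcd_dvd_left _ _
  obtain ⟨v, hv⟩ : g ∣ a' := by rw [hg]; exact Nat.gcd_dvd_right _ _
  have hcop : Nat.Coprime u v := by
    have h3 := Nat.coprime_div_gcd_div_gcd (m := a) (n := a') (by rw [← hg]; exact hg0)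
    rw [← hg, hu, hv, Nat.mul_div_cancel_left _ hg0, Nat.mul_div_cancel_left _ hg0] at h3
    exact h3
  have hu0 : 0 < u := by
    rcases Nat.eq_zero_or_pos u with h | h
    · rw [h, mul_zero] at hu; omega
    · exact h
  have hv0 : 0 < v := by
    rcases Nat.eq_zero_or_pos v with h | h
    · rw [h, mul_zero] at hv; omega
    · exact h
  have huv : u ≠ v := by
    rintro rfl
    exact haa (hu.trans hv.symm)
  have hvQ : v ∣ Q := by
    have h3 : Q * u = Q' * v := by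
      apply Nat.eq_of_mul_eq_mul_left hg0
      calc g * (Q * u) = Q * (g * u) := by ring
        _ = Q' * (g * v) := by rw [← hu, ← hv, h1]
        _ = g * (Q' * v) := by ring
    have h4 : v ∣ Q * u := ⟨Q', by rw [h3]; ring⟩
    exact hcop.symm.dvd_of_dvd_mul_right h4
  have hρr : (0 : ℝ) < ρ := by exact_mod_cast hρ0
  have hgr : (0 : ℝ) < g := by exact_mod_cast hg0
  have hur : (0 : ℝ) < u := by exact_mod_cast hu0
  have hdist : |(u : ℝ) - v| ≤ 2 * u / ρ := by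
    rw [le_div_iff₀ hρr]
    have e1 : (g : ℝ) * |(u : ℝ) - v| = |(a : ℝ) - a'| := by
      rw [hu, hv]
      push_cast
      rw [← mul_sub, abs_mul, abs_of_pos hgr]
    have e2 : |(a : ℝ) - a'| = |(T' : ℝ) - T| := by
      have h3 : ((T + (a - 1) : ℕ) : ℝ) = ((T' + (a' - 1) : ℕ) : ℝ) := by rw [h2]
      push_cast [Nat.cast_sub (by omega : 1 ≤ a), Nat.cast_sub (by omega : 1 ≤ a')] at h3
      congr 1
      linarith
    have e3 : |(T' : ℝ) - T| ≤ 2 * (ρ : ℝ) ^ (2 * j) := by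
      have t1 : (T : ℝ) ≤ 2 * (ρ : ℝ) ^ (2 * j) := by exact_mod_cast hT
      have t2 : (T' : ℝ) ≤ 2 * (ρ : ℝ) ^ (2 * j) := by exact_mod_cast hT'
      have t3 : (0 : ℝ) ≤ T := Nat.cast_nonneg T
      have t4 : (0 : ℝ) ≤ T' := Nat.cast_nonneg T'
      rw [abs_le]
      constructor <;> linarith
    have e4 : (ρ : ℝ) ^ (2 * j) * ρ ≤ a := by
      rw [← pow_succ]
      exact_mod_cast (mem_Blk.mp hp.2).1
    have e5 : (a : ℝ) = g * u := by rw [hu]; push_cast; ring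
    have e6 : (g : ℝ) * (|(u : ℝ) - v| * ρ) ≤ g * (2 * u) := by
      calc (g : ℝ) * (|(u : ℝ) - v| * ρ) = |(T' : ℝ) - T| * ρ := by
            rw [← e2, ← e1]; ring
        _ ≤ 2 * (ρ : ℝ) ^ (2 * j) * ρ := mul_le_mul_of_nonneg_right e3 hρr.le
        _ = 2 * ((ρ : ℝ) ^ (2 * j) * ρ) := by ring
        _ ≤ 2 * a := by linarith
        _ = g * (2 * u) := by rw [e5]; ring
    exact le_of_mul_le_mul_left e6 hgr
  refine ⟨v, Nat.mem_divisors.mpr ⟨hvQ, by simp only; omega⟩, u, ?_, ⟨g, by rw [hu]; ring⟩⟩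
  rw [mem_filter, mem_Icc]
  refine ⟨⟨hu0, ?_⟩, huv, hdist⟩
  have h8 : (8 : ℝ) ≤ ρ := by exact_mod_cast hρ
  have h9 : 2 * (u : ℝ) / ρ ≤ u / 4 := by
    rw [div_le_iff₀ hρr]
    nlinarith
  have h10 := abs_le.mp (hdist.trans h9)
  have h11 : (u : ℝ) ≤ 2 * v := by
    have : (0 : ℝ) ≤ v := Nat.cast_nonneg v
    linarith
  exact_mod_cast h11

open Classical in
theorem bad_weight {ρ j : ℕ} (hρ : 8 ≤ ρ) :
    ∑ p ∈ (Dset ρ j ×ˢ Blk ρ j).filter (BadT ρ), 1 / ((p.1.1 * p.2 : ℕ) : ℝ) ≤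
      (7 / ρ) * (1 + Real.log ρ) * ∑ q ∈ Dset ρ j, ((Nat.divisors q.1).card : ℝ) / q.1 := by
  have hρ0 : 0 < ρ := by omega
  have hlog : 0 ≤ Real.log ρ := Real.log_nonneg (by exact_mod_cast hρ0)
  obtain ⟨C, hC⟩ : ∃ C : ℕ → Finset ℕ, C = fun v : ℕ => (Icc 1 (2 * v)).filter
    (fun u : ℕ => u ≠ v ∧ |(u : ℝ) - (v : ℝ)| ≤ 2 * u / ρ) := ⟨_, rfl⟩
  have h1 : ∑ p ∈ (Dset ρ j ×ˢ Blk ρ j).filter (BadT ρ), 1 / ((p.1.1 * p.2 : ℕ) : ℝ) ≤
      ∑ p ∈ Dset ρ j ×ˢ Blk ρ j, (1 / (p.1.1 : ℝ)) * ∑ v ∈ Nat.divisors p.1.1, ∑ u ∈ C v,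
        (if u ∣ p.2 then 1 / (p.2 : ℝ) else 0) := by
    rw [sum_filter]
    refine sum_le_sum fun p _ => ?_
    have hnn : ∀ v u : ℕ, (0 : ℝ) ≤ if u ∣ p.2 then 1 / (p.2 : ℝ) else 0 := by
      intro v u
      split_ifs
      · positivity
      · exact le_rfl
    split_ifs with hb
    · obtain ⟨v, hv, u, hu, hup⟩ := hb
      have e : (1 : ℝ) / ((p.1.1 * p.2 : ℕ) : ℝ) = (1 / (p.1.1 : ℝ)) * (1 / (p.2 : ℝ)) := by
        push_cast
        rw [one_div_mul_one_div]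
      rw [e]
      apply mul_le_mul_of_nonneg_left _ (by positivity)
      have hu' : u ∈ C v := by rw [hC]; exact hu
      calc (1 : ℝ) / (p.2 : ℝ) = if u ∣ p.2 then 1 / (p.2 : ℝ) else 0 := by rw [if_pos hup]
        _ ≤ ∑ u ∈ C v, (if u ∣ p.2 then 1 / (p.2 : ℝ) else 0) :=
            single_le_sum (f := fun u => if u ∣ p.2 then 1 / (p.2 : ℝ) else 0)
              (fun u _ => hnn v u) hu'
        _ ≤ _ := single_le_sum (f := fun v => ∑ u ∈ C v, (if u ∣ p.2 then 1 / (p.2 : ℝ) else 0))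
              (fun v _ => sum_nonneg fun u _ => hnn v u) hv
    · apply mul_nonneg (by positivity)
      exact sum_nonneg fun v _ => sum_nonneg fun u _ => hnn v u
  refine h1.trans ?_
  rw [sum_product, mul_sum]
  refine sum_le_sum fun q _ => ?_
  simp only
  rw [← mul_sum, sum_comm]
  have h2 : ∀ v ∈ Nat.divisors q.1, ∑ a ∈ Blk ρ j, ∑ u ∈ C v,
      (if u ∣ a then 1 / (a : ℝ) else 0) ≤ (7 / ρ) * (1 + Real.log ρ) := by
    intro v hv
    have hv0 : 1 ≤ v := Nat.pos_of_mem_divisors hv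
    rw [sum_comm]
    have h3 : ∀ u ∈ C v, ∑ a ∈ Blk ρ j, (if u ∣ a then 1 / (a : ℝ) else 0) ≤
        (1 + Real.log ρ) * (1 / (u : ℝ)) := by
      intro u hu
      have hu0 : 1 ≤ u := by
        rw [hC] at hu
        simp only [mem_filter, mem_Icc] at hu
        exact hu.1.1
      rw [← sum_filter, mul_one_div]
      exact sum_mult_le (Nat.one_le_pow _ _ hρ0) hρ0 hu0
    calc ∑ u ∈ C v, ∑ a ∈ Blk ρ j, (if u ∣ a then 1 / (a : ℝ) else 0) ≤
          ∑ u ∈ C v, (1 + Real.log ρ) * (1 / (u : ℝ)) := sum_le_sum h3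
      _ = (1 + Real.log ρ) * ∑ u ∈ C v, 1 / (u : ℝ) := by rw [mul_sum]
      _ ≤ (1 + Real.log ρ) * (7 / ρ) := by
          apply mul_le_mul_of_nonneg_left _ (by linarith)
          rw [hC]
          exact sum_close_le hρ hv0
      _ = (7 / ρ) * (1 + Real.log ρ) := by ring
  have h4 : ∑ v ∈ Nat.divisors q.1, ∑ a ∈ Blk ρ j, ∑ u ∈ C v,
      (if u ∣ a then 1 / (a : ℝ) else 0) ≤
      ((Nat.divisors q.1).card : ℝ) * ((7 / ρ) * (1 + Real.log ρ)) := by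
    refine (sum_le_sum h2).trans ?_
    rw [sum_const, nsmul_eq_mul]
  calc 1 / (q.1 : ℝ) * ∑ v ∈ Nat.divisors q.1, ∑ a ∈ Blk ρ j, ∑ u ∈ C v,
      (if u ∣ a then 1 / (a : ℝ) else 0) ≤
      1 / (q.1 : ℝ) * (((Nat.divisors q.1).card : ℝ) * ((7 / ρ) * (1 + Real.log ρ))) :=
        mul_le_mul_of_nonneg_left h4 (by positivity)
    _ = (7 / ρ) * (1 + Real.log ρ) * (((Nat.divisors q.1).card : ℝ) / q.1) := by ring

theorem V_bound {ρ m : ℕ} (hρ : 8 ≤ ρ) : ∀ j ≤ m,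
    ∑ q ∈ Dset ρ j, ((Nat.divisors q.1).card : ℝ) / q.1 ≤
      (1 + 2 * m * Real.log ρ) ^ (2 * j) := by
  have hρ0 : 0 < ρ := by omega
  have hlog : 0 ≤ Real.log ρ := Real.log_nonneg (by exact_mod_cast hρ0)
  intro j
  induction j with
  | zero =>
    intro _
    have : Dset ρ 0 = {(1, 0)} := rfl
    rw [this]
    simp
  | succ j ih =>
    intro hj
    rw [Dset_succ]
    refine (sum_image_le_fam _ _ (fun q : ℕ × ℕ => ((Nat.divisors q.1).card : ℝ) / q.1)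
      (fun q => by positivity)).trans ?_
    simp only
    have h1 : ∀ p ∈ Dset ρ j ×ˢ Blk ρ j, ((Nat.divisors (p.1.1 * p.2)).card : ℝ) /
        ((p.1.1 * p.2 : ℕ) : ℝ) ≤ (((Nat.divisors p.1.1).card : ℝ) / p.1.1) *
          (((Nat.divisors p.2).card : ℝ) / p.2) := by
      intro p _
      rw [div_mul_div_comm]
      push_cast
      apply div_le_div_of_nonneg_right _ (by positivity)
      rw [Nat.divisors_mul]
      exact_mod_cast card_mul_le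
    refine (sum_le_sum h1).trans ?_
    rw [sum_product]
    simp only
    have h2 : ∀ q ∈ Dset ρ j, ∑ a ∈ Blk ρ j, ((Nat.divisors q.1).card : ℝ) / q.1 *
        (((Nat.divisors a).card : ℝ) / a) = ((Nat.divisors q.1).card : ℝ) / q.1 *
          ∑ a ∈ Blk ρ j, ((Nat.divisors a).card : ℝ) / a := by
      intro q _
      rw [mul_sum]
    rw [sum_congr rfl h2, ← sum_mul]
    have h3 : ∑ a ∈ Blk ρ j, ((Nat.divisors a).card : ℝ) / a ≤ (1 + 2 * m * Real.log ρ) ^ 2 := by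
      calc ∑ a ∈ Blk ρ j, ((Nat.divisors a).card : ℝ) / a ≤
            ∑ a ∈ Ico 1 (ρ ^ (2 * j + 2)), ((Nat.divisors a).card : ℝ) / a := by
            apply sum_le_sum_of_subset_of_nonneg
            · intro a ha
              have := Blk_two hρ ha
              rw [mem_Blk] at ha
              rw [mem_Ico]
              omega
            · intro a _ _
              positivity
        _ ≤ (1 + Real.log ((ρ ^ (2 * j + 2) : ℕ) : ℝ)) ^ 2 :=
            sum_divisors_div_le (Nat.one_le_pow _ _ hρ0)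
        _ ≤ (1 + 2 * m * Real.log ρ) ^ 2 := by
            push_cast
            rw [Real.log_pow]
            apply pow_le_pow_left₀ (by positivity)
            have h4 : ((2 * j + 2 : ℕ) : ℝ) ≤ 2 * m := by exact_mod_cast (by omega : 2 * j + 2 ≤ 2 * m)
            have := mul_le_mul_of_nonneg_right h4 hlog
            linarith
    calc (∑ q ∈ Dset ρ j, ((Nat.divisors q.1).card : ℝ) / q.1) *
          ∑ a ∈ Blk ρ j, ((Nat.divisors a).card : ℝ) / a ≤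
          (1 + 2 * m * Real.log ρ) ^ (2 * j) * (1 + 2 * m * Real.log ρ) ^ 2 :=
          mul_le_mul (ih (by omega)) h3 (sum_nonneg fun a _ => by positivity) (by positivity)
      _ = (1 + 2 * m * Real.log ρ) ^ (2 * (j + 1)) := by rw [← pow_add]; congr 1

open Classical in
theorem W_step {ρ m j : ℕ} (hρ : 8 ≤ ρ)
    (hcond : 7 * (1 + Real.log ρ) * (1 + 2 * m * Real.log ρ) ^ (2 * m) ≤ ρ) (hj : j ≤ m) :
    (∑ q ∈ Dset ρ j, 1 / (q.1 : ℝ)) * Real.log ρ - 1 ≤ ∑ q ∈ Dset ρ (j + 1), 1 / (q.1 : ℝ) := by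
  have hρ0 : 0 < ρ := by omega
  have hρr : (0 : ℝ) < ρ := by exact_mod_cast hρ0
  have hlog : 0 ≤ Real.log ρ := Real.log_nonneg (by exact_mod_cast hρ0)
  obtain ⟨G, hG⟩ : ∃ G, G = (Dset ρ j ×ˢ Blk ρ j).filter (fun p => ¬ BadT ρ p) := ⟨_, rfl⟩
  have hinj : ∀ p ∈ G, ∀ p' ∈ G, ((p.1.1 * p.2, p.1.2 + (p.2 - 1)) : ℕ × ℕ) =
      (p'.1.1 * p'.2, p'.1.2 + (p'.2 - 1)) → p = p' := by
    intro p hp p' hp' h
    rw [hG, mem_filter] at hp hp'
    by_contra hne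
    rw [Prod.mk.injEq] at h
    exact hp.2 (bad_of_collision hρ hp.1 hp'.1 hne h.1 h.2)
  have h1 : ∑ p ∈ G, 1 / ((p.1.1 * p.2 : ℕ) : ℝ) ≤ ∑ q ∈ Dset ρ (j + 1), 1 / (q.1 : ℝ) := by
    have e : ∑ p ∈ G, 1 / ((p.1.1 * p.2 : ℕ) : ℝ) =
        ∑ q ∈ G.image (fun p => ((p.1.1 * p.2, p.1.2 + (p.2 - 1)) : ℕ × ℕ)), 1 / (q.1 : ℝ) := by
      rw [sum_image hinj]
    rw [e]
    apply sum_le_sum_of_subset_of_nonneg
    · rw [Dset_succ]
      apply image_subset_image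
      rw [hG]
      exact filter_subset _ _
    · intro q _ _
      positivity
  have h2 : ∑ p ∈ Dset ρ j ×ˢ Blk ρ j, 1 / ((p.1.1 * p.2 : ℕ) : ℝ) =
      ∑ p ∈ (Dset ρ j ×ˢ Blk ρ j).filter (BadT ρ), 1 / ((p.1.1 * p.2 : ℕ) : ℝ) +
        ∑ p ∈ G, 1 / ((p.1.1 * p.2 : ℕ) : ℝ) := by
    rw [hG]
    exact (sum_filter_add_sum_filter_not _ _ _).symm
  have h3 : ∑ p ∈ Dset ρ j ×ˢ Blk ρ j, 1 / ((p.1.1 * p.2 : ℕ) : ℝ) =
      (∑ q ∈ Dset ρ j, 1 / (q.1 : ℝ)) * ∑ a ∈ Blk ρ j, 1 / (a : ℝ) := by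
    rw [sum_product, sum_mul]
    refine sum_congr rfl fun q _ => ?_
    rw [mul_sum]
    refine sum_congr rfl fun a _ => ?_
    simp only
    push_cast
    rw [one_div_mul_one_div]
  have h4 : Real.log ρ ≤ ∑ a ∈ Blk ρ j, 1 / (a : ℝ) := by
    have hX : 1 ≤ ρ ^ (2 * j + 1) := Nat.one_le_pow _ _ hρ0
    have h5 := log_le_sum_Ico hX (Nat.le_mul_of_pos_left (ρ ^ (2 * j + 1)) hρ0)
    have h6 : (((ρ * ρ ^ (2 * j + 1) : ℕ) : ℝ) / ((ρ ^ (2 * j + 1) : ℕ) : ℝ)) = ρ := by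
      push_cast
      field_simp
    rw [h6] at h5
    exact h5
  have h7 : ∑ p ∈ (Dset ρ j ×ˢ Blk ρ j).filter (BadT ρ), 1 / ((p.1.1 * p.2 : ℕ) : ℝ) ≤ 1 := by
    refine (bad_weight hρ).trans ?_
    have h8 := V_bound (m := m) hρ j hj
    have h9 : (1 + 2 * m * Real.log ρ) ^ (2 * j) ≤ (1 + 2 * m * Real.log ρ) ^ (2 * m) := by
      apply pow_le_pow_right₀
      · have : 0 ≤ 2 * (m : ℝ) * Real.log ρ := by positivity
        linarith
      · omega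
    calc (7 / ρ) * (1 + Real.log ρ) * ∑ q ∈ Dset ρ j, ((Nat.divisors q.1).card : ℝ) / q.1 ≤
          (7 / ρ) * (1 + Real.log ρ) * (1 + 2 * m * Real.log ρ) ^ (2 * m) :=
          mul_le_mul_of_nonneg_left (h8.trans h9) (by positivity)
      _ = (7 * (1 + Real.log ρ) * (1 + 2 * m * Real.log ρ) ^ (2 * m)) / ρ := by ring
      _ ≤ 1 := by
          rw [div_le_one hρr]
          exact hcond
  have h10 : (∑ q ∈ Dset ρ j, 1 / (q.1 : ℝ)) * Real.log ρ ≤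
      (∑ q ∈ Dset ρ j, 1 / (q.1 : ℝ)) * ∑ a ∈ Blk ρ j, 1 / (a : ℝ) :=
    mul_le_mul_of_nonneg_left h4 (sum_nonneg fun q _ => by positivity)
  linarith

theorem W_bound {ρ m : ℕ} (hρ : 8 ≤ ρ)
    (hcond : 7 * (1 + Real.log ρ) * (1 + 2 * m * Real.log ρ) ^ (2 * m) ≤ ρ) : ∀ j ≤ m,
    1 ≤ ∑ q ∈ Dset ρ j, 1 / (q.1 : ℝ) ∧
      (Real.log ρ - 1) ^ j ≤ ∑ q ∈ Dset ρ j, 1 / (q.1 : ℝ) := by
  have hlog2 : 2 ≤ Real.log ρ := by
    have h1 : Real.log 8 ≤ Real.log ρ := Real.log_le_log (by norm_num) (by exact_mod_cast hρ)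
    have h2 : Real.log 8 = 3 * Real.log 2 := by
      rw [show (8 : ℝ) = 2 ^ 3 by norm_num, Real.log_pow]
      norm_num
    have h3 := Real.log_two_gt_d9
    linarith
  intro j
  induction j with
  | zero =>
    intro _
    have : Dset ρ 0 = {(1, 0)} := rfl
    rw [this]
    simp
  | succ j ih =>
    intro hj
    obtain ⟨h1, h2⟩ := ih (by omega)
    have h3 := W_step (m := m) hρ hcond (j := j) (by omega)
    have h4 : (∑ q ∈ Dset ρ j, 1 / (q.1 : ℝ)) * (Real.log ρ - 1) ≤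
        ∑ q ∈ Dset ρ (j + 1), 1 / (q.1 : ℝ) := by nlinarith
    constructor
    · nlinarith
    · rw [pow_succ]
      refine le_trans ?_ h4
      exact mul_le_mul_of_nonneg_right h2 (by linarith)

theorem family (ρ m : ℕ) (hρ : 8 ≤ ρ)
    (hcond : 7 * (1 + Real.log ρ) * (1 + 2 * m * Real.log ρ) ^ (2 * m) ≤ ρ) :
    ∃ D : Finset (ℕ × ℕ),
      (∀ q ∈ D, ∃ s : Multiset ℕ, Multiset.card s = m ∧ (∀ a ∈ s, 2 ≤ a) ∧ s.prod = q.1 ∧
        (s.map (fun a => a - 1)).sum = q.2) ∧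
      (∀ q ∈ D, ρ ^ (m ^ 2) ≤ q.1 ∧ q.1 ≤ ρ ^ (m * (m + 1))) ∧
      (Real.log ρ - 1) ^ m ≤ ∑ q ∈ D, 1 / (q.1 : ℝ) :=
  ⟨Dset ρ m, Dset_multiset hρ m, Dset_bounds m, (W_bound hρ hcond m le_rfl).2⟩

end H3SP
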