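import Pool.Agent.H3SP.Abs
import Pool.Agent.H3SP.Events
import Pool.Agent.H3SP.Family
import Pool.Agent.H3SP.Brun

/-! MP_ae8ccf_nt: the counting bound with explicit parameters. -/

namespace H3SP

open Finset

lemma multiset_T_lt_prod (s : Multiset ℕ) (h : ∀ a ∈ s, 2 ≤ a) :
    (s.map (fun a => a - 1)).sum < s.prod := by
  induction s using Multiset.induction_on with
  | empty => simp
  | cons a s ih =>
    have h1 := h a (Multiset.mem_cons_self a s)
    have h2 := ih fun b hb => h b (Multiset.mem_cons_of_mem hb)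
    simp only [Multiset.map_cons, Multiset.sum_cons, Multiset.prod_cons]
    obtain ⟨b, rfl⟩ : ∃ b, a = b + 1 := ⟨a - 1, by omega⟩
    simp only [Nat.add_sub_cancel]
    have h3 : b * 1 ≤ b * s.prod := Nat.mul_le_mul_left b (by omega)
    have h4 : (b + 1) * s.prod = b * s.prod + s.prod := by ring
    omega

theorem count_bound (ρ m y t R x : ℕ) (S : ℝ) (hρ : 8 ≤ ρ) (hm : 1 ≤ m)
    (hcond : 7 * (1 + Real.log ρ) * (1 + 2 * m * Real.log ρ) ^ (2 * m) ≤ ρ)
    (hy : (ρ ^ (m * (m + 1))) ^ 3 ≤ y)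
    (hS : ∑ p ∈ (range (y + 1)).filter Nat.Prime, 1 / (p : ℝ) ≤ S) (hS1 : 1 ≤ S)
    (ht : 8 * S ≤ 2 * t) (hyS : 4 * Real.exp (2 * S) ≤ y)
    (h2 : 2 ^ (2 * t + 3) ≤ ρ ^ (m ^ 2)) (hR : 1 ≤ R)
    (hRy : 64 * R * (2 * t + 2) * Real.exp (2 * S) ≤ y)
    (hW : 2 * (R : ℝ) ^ (2 * t + 2) ≤ Real.exp (-2 * S) / 8 * (Real.log ρ - 1) ^ m)
    (hmk : m + 2 ≤ 2 * y ^ (2 * t + 2)) :
    ({k : ℕ | k < x ∧ Exceptional k}.ncard : ℝ) ≤ 2 * (y : ℝ) ^ (2 * t + 2) +
      (x * (4 * (R : ℝ) ^ (2 * t + 2) / (Real.exp (-2 * S) / 8 * (Real.log ρ - 1) ^ m)) ^ R +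
        2 * ((y : ℝ) ^ (2 * t + 2) * (y : ℝ) ^ (2 * t + 2)) ^ (2 * R)) := by
  obtain ⟨D, hDs, hDQ, hDW⟩ := family ρ m hρ hcond
  set B : ℕ := ρ ^ (m * (m + 1)) with hB
  set X : ℕ := y ^ (2 * t + 1) with hX
  set s : ℕ := 2 * t + 2 with hs
  have hB1 : 2 ≤ B := by
    calc 2 ≤ ρ := by omega
      _ = ρ ^ 1 := (pow_one ρ).symm
      _ ≤ ρ ^ (m * (m + 1)) := Nat.pow_le_pow_right (by omega) (by nlinarith)
  have hy1 : 2 * B ≤ y := by
    refine le_trans ?_ hy
    have : 4 ≤ B ^ 2 := by nlinarith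
    calc 2 * B ≤ B ^ 2 * B := Nat.mul_le_mul_right B (by omega)
      _ = B ^ 3 := by ring
  have hBB : B ^ 2 ≤ y := le_trans (Nat.pow_le_pow_right (by omega) (by norm_num)) hy
  have hy2 : 2 ≤ y := by omega
  have hX2 : 2 ≤ X := by
    calc 2 ≤ y := hy2
      _ = y ^ 1 := (pow_one y).symm
      _ ≤ y ^ (2 * t + 1) := Nat.pow_le_pow_right (by omega) (by omega)
  have hyX : y ≤ X := by
    calc y = y ^ 1 := (pow_one y).symm
      _ ≤ y ^ (2 * t + 1) := Nat.pow_le_pow_right (by omega) (by omega)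
  have hXs : y * X = y ^ s := by rw [hX, hs]; ring
  have hBX : 2 * B * X ≤ y ^ s := by rw [← hXs]; exact Nat.mul_le_mul_right X hy1
  have hD : ∀ q ∈ D, 1 ≤ q.1 ∧ q.1 ≤ B ∧ q.2 < q.1 := by
    intro q hq
    obtain ⟨ms, -, hms2, hms3, hms4⟩ := hDs q hq
    have h1 := multiset_T_lt_prod ms hms2
    rw [hms3, hms4] at h1
    exact ⟨by omega, (hDQ q hq).2, h1⟩
  have hD1 : ∀ q ∈ D, 1 ≤ q.1 := fun q hq => (hD q hq).1
  have hDs2 : ∀ q ∈ D, 2 ^ (s + 1) ≤ q.1 := fun q hq => h2.trans (hDQ q hq).1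
  have hyR : (2 : ℝ) ≤ y := by exact_mod_cast hy2
  have hXR : (2 : ℝ) ≤ X := by exact_mod_cast hX2
  -- Brun
  set δ : ℝ := Real.exp (-2 * S) / 8 with hδ
  have hexp : Real.exp (-2 * S) * Real.exp (2 * S) = 1 := by
    rw [← Real.exp_add]; simp
  have hexp0 : 0 < Real.exp (-2 * S) := Real.exp_pos _
  have hexp1 : 0 < Real.exp (2 * S) := Real.exp_pos _
  have hN : ∀ q ∈ D, (X : ℝ) * (2 * δ) ≤ (((Ico X (2 * X)).filter
      (fun c => ∀ p ∈ (range (y + 1)).filter Nat.Prime, ¬ p ∣ q.1 * c - 1)).card : ℝ) := by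
    intro q hq
    refine le_trans ?_ (brun_pure q.1 X y t S (hD1 q hq) (by omega) hy2 hS hS1 ht)
    have h3 : (y : ℝ) ^ (2 * t) ≤ X * (Real.exp (-2 * S) / 4) := by
      have h4 : (X : ℝ) = (y : ℝ) ^ (2 * t) * y := by rw [hX]; push_cast; ring
      rw [h4, mul_assoc]
      have h5 : 1 ≤ (y : ℝ) * (Real.exp (-2 * S) / 4) := by
        have : 4 * Real.exp (2 * S) * (Real.exp (-2 * S) / 4) ≤ y * (Real.exp (-2 * S) / 4) :=
          mul_le_mul_of_nonneg_right hyS (by positivity)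
        have h6 : 4 * Real.exp (2 * S) * (Real.exp (-2 * S) / 4) = 1 := by
          linear_combination hexp
        linarith
      exact le_mul_of_one_le_right (by positivity) h5
    rw [hδ]
    linarith
  set W0 : ℝ := ∑ q ∈ D, 1 / (q.1 : ℝ) with hW0
  have hWl := weight_lower hD1 hX2 hN
  have hWl2 : δ * W0 ≤ ∑ e ∈ Ev D X y, 1 / (nn e : ℝ) := by
    refine le_trans (le_of_eq ?_) hWl
    have : (X : ℝ) ≠ 0 := by positivity
    rw [← hW0]
    field_simp
  have hδ0 : 0 < δ := by rw [hδ]; positivity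
  have hlog1 : 1 ≤ Real.log ρ - 1 := by
    have h7 : (8 : ℝ) ≤ ρ := by exact_mod_cast hρ
    have h8 : Real.log 8 ≤ Real.log ρ := Real.log_le_log (by norm_num) h7
    have h9 : (2 : ℝ) ≤ Real.log 8 := by
      have : Real.log 8 = 3 * Real.log 2 := by
        rw [show (8 : ℝ) = 2 ^ 3 by norm_num, Real.log_pow]; norm_num
      have := Real.log_two_gt_d9
      linarith
    linarith
  have hW01 : 1 ≤ W0 := (one_le_pow₀ hlog1).trans hDW
  set W : ℝ := ∑ e ∈ Ev D X y, 1 / (nn e : ℝ) with hWdef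
  set U : ℝ := δ * (Real.log ρ - 1) ^ m with hU
  have hU0 : 0 < U := by
    have : 0 < Real.log ρ - 1 := by linarith
    positivity
  have hUW : U ≤ W := (mul_le_mul_of_nonneg_left hDW hδ0.le).trans hWl2
  have hab := sieve_abs (Ev D X y) nn rr R s (y ^ s) x (4 / y * W0) W hR
    (by
      intro e he
      have h6 := hDs2 _ (mem_Ev.1 he).1
      have h7 : 2 ≤ 2 ^ (s + 1) := by
        calc 2 = 2 ^ 1 := by norm_num
          _ ≤ 2 ^ (s + 1) := Nat.pow_le_pow_right (by norm_num) (by omega)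
      have h8 := (mem_Ev.1 he).2.1
      unfold nn
      have : 2 * 2 ≤ e.1.1 * e.2 := Nat.mul_le_mul (by omega) (by omega)
      omega)
    (by
      intro e he
      have h8 := (mem_Ev.1 he).2.1
      have h9 := (hD _ (mem_Ev.1 he).1).2.1
      unfold nn
      have : e.1.1 * e.2 ≤ B * (2 * X) := Nat.mul_le_mul h9 (by omega)
      have h3 : B * (2 * X) = 2 * B * X := by ring
      omega)
    (by
      intro e he
      have h8 := (mem_Ev.1 he).2.1
      obtain ⟨h9, h10, -⟩ := hD _ (mem_Ev.1 he).1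
      have h11 : e.1.1 * e.2 ≤ B * (2 * X) := Nat.mul_le_mul h10 (by omega)
      have h3 : B * (2 * X) = 2 * B * X := by ring
      have h6 := hDs2 _ (mem_Ev.1 he).1
      have h7 : 2 ≤ 2 ^ (s + 1) := by
        calc 2 = 2 ^ 1 := by norm_num
          _ ≤ 2 ^ (s + 1) := Nat.pow_le_pow_right (by norm_num) (by omega)
      have h12 : 2 * 2 ≤ e.1.1 * e.2 := Nat.mul_le_mul (by omega) (by omega)
      exact (pow_card_le (by omega : 1 ≤ y) (by unfold nn; omega) (by unfold nn; omega)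
        (mem_Ev.1 he).2.2).1)
    hWdef
    (fun e he => comp_sum hD (by omega) hy hX2 hBX hDs2 he)
    (fun p hp => eta_sum hD1 (by omega) hX2 hyX p hp)
    (by
      have h3 : (R : ℝ) * s * (4 / y * W0) ≤ δ * W0 / 2 := by
        have h4 : 64 * (R : ℝ) * s * Real.exp (2 * S) ≤ y := by
          rw [hs]; push_cast; exact hRy
        have h5 : 8 * (R : ℝ) * s ≤ y * δ := by
          have : 64 * (R : ℝ) * s * Real.exp (2 * S) * Real.exp (-2 * S) ≤
              y * Real.exp (-2 * S) := mul_le_mul_of_nonneg_right h4 hexp0.le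
          have h6 : 64 * (R : ℝ) * s * Real.exp (2 * S) * Real.exp (-2 * S)
              = 64 * (R : ℝ) * s := by
            linear_combination 64 * (R : ℝ) * s * hexp
          rw [hδ]
          linarith
        have h7 : (R : ℝ) * s * (4 / y * W0) = (8 * R * s) / y * (W0 / 2) := by ring
        rw [h7]
        have h8 : 8 * (R : ℝ) * s / y ≤ δ := by
          rw [div_le_iff₀ (by positivity)]; linarith
        have h9 := mul_le_mul_of_nonneg_right h8 (by positivity : 0 ≤ W0 / 2)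
        linarith
      linarith)
    (by linarith)
  -- the exceptional numbers
  have hcardF : ((Ev D X y).card : ℝ) ≤ (y : ℝ) ^ s := by
    have h3 : (Ev D X y).card ≤ (D ×ˢ Ico X (2 * X)).card := card_le_card (filter_subset _ _)
    have h4 : D.card ≤ B * B := by
      have : D ⊆ Icc 1 B ×ˢ range B := by
        intro q hq
        obtain ⟨h5, h6, h7⟩ := hD q hq
        rw [mem_product, mem_Icc, mem_range]
        exact ⟨⟨h5, h6⟩, by omega⟩
      have := card_le_card this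
      simpa using this
    have h5 : (D ×ˢ Ico X (2 * X)).card = D.card * X := by
      rw [card_product, Nat.card_Ico]; congr 1; omega
    have h6 : (Ev D X y).card ≤ y ^ s := by
      rw [h5] at h3
      refine h3.trans ?_
      rw [← hXs]
      exact Nat.mul_le_mul_right X (h4.trans (by rw [← sq]; exact hBB))
    exact_mod_cast h6
  have hset : {k : ℕ | k < x ∧ Exceptional k} ⊆
      ((range (2 * y ^ s) ∪ (range x).filter
        (fun k : ℕ => ∀ e ∈ Ev D X y, ¬ ((nn e : ℤ) ∣ (k : ℤ) - rr e)) : Finset ℕ) : Set ℕ) := by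
    rintro k ⟨hkx, hkE⟩
    rw [mem_coe, mem_union, mem_range, mem_filter, mem_range]
    by_cases hk : k < 2 * y ^ s
    · exact Or.inl hk
    · right
      refine ⟨hkx, fun e he => ?_⟩
      obtain ⟨heD, heX, -⟩ := mem_Ev.1 he
      obtain ⟨ms, hms1, hms2, hms3, hms4⟩ := hDs _ heD
      have h10 := (hD _ heD).2.1
      have h11 : e.1.1 * e.2 ≤ B * (2 * X) := Nat.mul_le_mul h10 (by omega)
      have h12 : B * (2 * X) = 2 * B * X := by ring
      have := exceptional_avoid hkE ms e.2 (by omega) hms2 (by omega) (by omega)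
        (by rw [hms3]; omega)
      rw [hms3, hms4] at this
      exact this
  have hfin := Set.ncard_le_ncard hset (Finset.finite_toSet _)
  rw [Set.ncard_coe_finset] at hfin
  have hfin2 : ({k : ℕ | k < x ∧ Exceptional k}.ncard : ℝ) ≤ 2 * (y : ℝ) ^ s +
      (((range x).filter
        (fun k : ℕ => ∀ e ∈ Ev D X y, ¬ ((nn e : ℤ) ∣ (k : ℤ) - rr e))).card : ℝ) := by
    have h3 := hfin.trans (card_union_le _ _)
    rw [card_range] at h3
    exact_mod_cast h3
  refine hfin2.trans (add_le_add le_rfl (hab.trans (add_le_add ?_ ?_)))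
  · refine mul_le_mul_of_nonneg_left (pow_le_pow_left₀ (by positivity) ?_ R) (Nat.cast_nonneg x)
    exact div_le_div_of_nonneg_left (by positivity) hU0 hUW
  · refine mul_le_mul_of_nonneg_left (pow_le_pow_left₀ (by positivity) ?_ _) (by norm_num)
    refine mul_le_mul hcardF (le_of_eq (by push_cast; rfl)) (by positivity) (by positivity)

end H3SP
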