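import Mathlib

/-! MP_ae8ccf_nt: definitions and the residue classes avoided by exceptional numbers. -/

namespace H3SP

open Finset

/-- `s` is (up to order) a solution of `a₁ ⋯ a_k = a₁ + ⋯ + a_k` in positive integers -/
def IsSol (k : ℕ) (s : Multiset ℕ) : Prop :=
  Multiset.card s = k ∧ (∀ a ∈ s, 0 < a) ∧ s.prod = s.sum

/-- `k ≥ 2` is exceptional if the equation has exactly one solution up to order -/
def Exceptional (k : ℕ) : Prop := 2 ≤ k ∧ ∃! s : Multiset ℕ, IsSol k s

lemma sum_map_pred (s : Multiset ℕ) (h : ∀ a ∈ s, 1 ≤ a) :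
    (s.map (fun a => a - 1)).sum + Multiset.card s = s.sum := by
  induction s using Multiset.induction_on with
  | empty => simp
  | cons a s ih =>
    have h1 := h a (Multiset.mem_cons_self a s)
    have h2 := ih fun b hb => h b (Multiset.mem_cons_of_mem hb)
    simp only [Multiset.map_cons, Multiset.sum_cons, Multiset.card_cons]
    omega

lemma trivial_sol {k : ℕ} (hk : 2 ≤ k) :
    IsSol k (2 ::ₘ k ::ₘ Multiset.replicate (k - 2) 1) := by
  refine ⟨?_, ?_, ?_⟩
  · simp; omega
  · intro a ha
    simp only [Multiset.mem_cons, Multiset.mem_replicate] at ha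
    rcases ha with h | h | h <;> omega
  · simp [Multiset.sum_replicate]; omega

/-- an exceptional number avoids the residue class `2 - T - c` modulo `Q c - 1` -/
theorem exceptional_avoid {k : ℕ} (hk : Exceptional k) (s : Multiset ℕ) (c : ℕ)
    (hs : 1 ≤ Multiset.card s) (hs2 : ∀ a ∈ s, 2 ≤ a) (hc : 2 ≤ c)
    (hkm : Multiset.card s + 2 ≤ k) (hkQ : 2 * (s.prod * c) ≤ k) :
    ¬ (((s.prod * c - 1 : ℕ) : ℤ) ∣
      (k : ℤ) - (2 - (((s.map (fun a => a - 1)).sum : ℕ) : ℤ) - c)) := by
  rintro ⟨b, hb⟩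
  set Q := s.prod with hQ
  set T := (s.map (fun a => a - 1)).sum with hT
  set m := Multiset.card s with hm
  have hsum : T + m = s.sum := sum_map_pred s fun a ha => by have := hs2 a ha; omega
  have hQ1 : 1 ≤ Q := Nat.one_le_iff_ne_zero.2 (by
    intro h0
    have := Multiset.prod_eq_zero_iff.1 h0
    have := hs2 0 this
    omega)
  have hQc : 2 ≤ Q * c := le_trans hc (Nat.le_mul_of_pos_left c hQ1)
  have hcast : ((Q * c - 1 : ℕ) : ℤ) = (Q : ℤ) * c - 1 := by
    rw [Nat.cast_sub (by omega)]; push_cast; ring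
  rw [hcast] at hb
  have hQc' : (2 : ℤ) ≤ (Q : ℤ) * c := by exact_mod_cast hQc
  have hkQ' : 2 * ((Q : ℤ) * c) ≤ k := by exact_mod_cast hkQ
  have hc' : (2 : ℤ) ≤ c := by exact_mod_cast hc
  have hT0 : (0 : ℤ) ≤ T := by positivity
  have hb2 : 2 ≤ b := by
    by_contra hlt
    have hb1 : b ≤ 1 := by omega
    have : ((Q : ℤ) * c - 1) * b ≤ ((Q : ℤ) * c - 1) * 1 :=
      mul_le_mul_of_nonneg_left hb1 (by linarith)
    linarith
  obtain ⟨d, rfl⟩ := Int.eq_ofNat_of_zero_le (by linarith : 0 ≤ b)
  have hd2 : 2 ≤ d := by exact_mod_cast hb2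
  -- the second solution
  have hsol : IsSol k (c ::ₘ d ::ₘ (s + Multiset.replicate (k - m - 2) 1)) := by
    refine ⟨?_, ?_, ?_⟩
    · simp only [Multiset.card_cons, Multiset.card_add, Multiset.card_replicate]
      omega
    · intro a ha
      simp only [Multiset.mem_cons, Multiset.mem_add, Multiset.mem_replicate] at ha
      rcases ha with h | h | h | h
      · omega
      · omega
      · have := hs2 a h; omega
      · omega
    · simp only [Multiset.prod_cons, Multiset.prod_add, Multiset.prod_replicate, one_pow, mul_one,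
        Multiset.sum_cons, Multiset.sum_add, Multiset.sum_replicate, smul_eq_mul]
      rw [← hsum]
      have h1 : ((c * (d * Q) : ℕ) : ℤ) = ((c + (d + (T + m + (k - m - 2))) : ℕ) : ℤ) := by
        have h2 : ((k - m - 2 : ℕ) : ℤ) = (k : ℤ) - m - 2 := by omega
        have h4 : (k : ℤ) - (2 - T - c) = ((Q : ℤ) * c - 1) * d := hb
        rw [Nat.cast_add, Nat.cast_add, Nat.cast_add, Nat.cast_add, h2, Nat.cast_mul,
          Nat.cast_mul]
        linarith
      exact_mod_cast h1
  have heq := hk.2.unique (trivial_sol hk.1) hsol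
  have hc1 : Multiset.card ((2 ::ₘ k ::ₘ Multiset.replicate (k - 2) 1).filter (fun a => 2 ≤ a))
      ≤ 2 := by
    rw [Multiset.filter_cons, Multiset.filter_cons]
    have : (Multiset.replicate (k - 2) 1).filter (fun a => 2 ≤ a) = 0 := by
      rw [Multiset.filter_eq_nil]
      intro a ha
      rw [Multiset.mem_replicate] at ha
      omega
    rw [this]
    split_ifs <;> simp
  have hc2 : 3 ≤ Multiset.card
      ((c ::ₘ d ::ₘ (s + Multiset.replicate (k - m - 2) 1)).filter (fun a => 2 ≤ a)) := by
    rw [Multiset.filter_cons, Multiset.filter_cons, if_pos hc, if_pos hd2, Multiset.filter_add,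
      Multiset.filter_eq_self.2 hs2]
    simp only [Multiset.card_add, Multiset.card_singleton]
    omega
  rw [heq] at hc1
  omega

end H3SP
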