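import Pool.Agent.H3SP.Params

/-! MP_ae8ccf_nt: the final asymptotic statement. -/

namespace H3SP

open Finset Filter

/-- constant in the bound for `K` -/
noncomputable def C1 : ℝ := 1200000000000

lemma K_le {L : ℝ} (hL : 6 ≤ Real.log L) (hL1 : 1 ≤ L) {m l : ℕ} (hm : (m : ℝ) ≤ 301 * L)
    (hm100 : 100 ≤ m) (hl : l = Nat.clog 2 m) :
    ((JJ m l * (88 * l + 2) : ℕ) : ℝ) ≤ C1 * (L ^ 3 * (Real.log L) ^ 2) := by
  obtain ⟨h7, -, hml⟩ := clog_facts hm100 hl
  have h7R : (7 : ℝ) ≤ l := by exact_mod_cast h7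
  have hL0 : 0 < L := by linarith
  set M := Real.log L with hM
  have hlM : (l : ℝ) ≤ 4 * M := by
    have h1 : ((2 ^ (l - 1) : ℕ) : ℝ) ≤ 301 * L := by
      refine le_trans ?_ hm
      exact_mod_cast hml.le
    have h2 : Real.log ((2 ^ (l - 1) : ℕ) : ℝ) ≤ Real.log (301 * L) :=
      Real.log_le_log (by positivity) h1
    rw [log_rho, Real.log_mul (by norm_num) hL0.ne'] at h2
    have h3 : Real.log 301 ≤ 6 := by
      rw [Real.log_le_iff_le_exp (by norm_num)]
      have : Real.exp 6 = (Real.exp 1) ^ 6 := by rw [← Real.exp_nat_mul]; norm_num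
      rw [this]
      calc (301 : ℝ) ≤ (2.7182818283 : ℝ) ^ 6 := by norm_num
        _ ≤ (Real.exp 1) ^ 6 := pow_le_pow_left₀ (by norm_num) Real.exp_one_gt_d9.le 6
    have h4 : ((l - 1 : ℕ) : ℝ) = (l : ℝ) - 1 := by
      rw [Nat.cast_sub (by omega)]; simp
    rw [h4] at h2
    have h5 := log2_ge
    nlinarith
  unfold JJ
  push_cast
  have hm0 : (0 : ℝ) ≤ m := Nat.cast_nonneg m
  have e1 : (m : ℝ) ^ 2 ≤ (301 * L) ^ 2 := pow_le_pow_left₀ hm0 hm 2
  have e2 : (m : ℝ) + 1 ≤ 302 * L := by linarith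
  have e3 : 88 * (l : ℝ) + 2 ≤ 360 * M := by linarith
  have hM0 : 0 < M := by linarith
  calc 30 * (m : ℝ) ^ 2 * (m + 1) * l * (88 * l + 2)
      ≤ 30 * (301 * L) ^ 2 * (302 * L) * (4 * M) * (360 * M) := by gcongr
    _ = (30 * 301 ^ 2 * 302 * 4 * 360) * (L ^ 3 * M ^ 2) := by ring
    _ ≤ C1 * (L ^ 3 * M ^ 2) := by
        refine mul_le_mul_of_nonneg_right ?_ (by positivity)
        unfold C1; norm_num

theorem exceptional_sparse : ∃ c : ℝ, 0 < c ∧ ∃ x₀ : ℝ, ∀ x : ℝ, x₀ ≤ x →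
    ({k : ℕ | (k : ℝ) ≤ x ∧ Exceptional k}.ncard : ℝ) ≤
      x * Real.exp (-(c * (Real.log x / ((Real.log (Real.log x)) ^ 2 *
        (Real.log (Real.log (Real.log x))) ^ 2)))) := by
  have hC1 : (0 : ℝ) < C1 := by unfold C1; norm_num
  set c : ℝ := 1 / (64 * C1) with hc
  have hc0 : 0 < c := by positivity
  refine ⟨c, hc0, ?_⟩
  have E1 : ∀ᶠ L : ℝ in atTop, 6 ≤ Real.log L := Real.tendsto_log_atTop.eventually_ge_atTop 6
  have E2 : ∀ᶠ L : ℝ in atTop, (1 : ℝ) ≤ L := eventually_ge_atTop 1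
  have E3 : ∀ᶠ L : ℝ in atTop, 16 * C1 * L ^ 5 ≤ Real.exp (1 / 2 * L) := by
    have h := (isLittleO_pow_exp_pos_mul_atTop (k := 5) (b := 1 / 2) (by norm_num)).def
      (c := 1 / (16 * C1)) (by positivity)
    filter_upwards [h, E2] with L hL h1
    rw [Real.norm_of_nonneg (by positivity), Real.norm_of_nonneg (Real.exp_pos _).le] at hL
    have := mul_le_mul_of_nonneg_left hL (by positivity : (0 : ℝ) ≤ 16 * C1)
    have e : 16 * C1 * (1 / (16 * C1) * Real.exp (1 / 2 * L)) = Real.exp (1 / 2 * L) := by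
      field_simp
    rw [e] at this
    exact this
  have E4 : ∀ᶠ L : ℝ in atTop, 2 * L ^ 4 ≤ c * Real.exp L := by
    have h := (isLittleO_pow_exp_pos_mul_atTop (k := 4) (b := 1) (by norm_num)).def
      (c := c / 2) (by positivity)
    filter_upwards [h, E2] with L hL h1
    rw [Real.norm_of_nonneg (by positivity), Real.norm_of_nonneg (Real.exp_pos _).le,
      one_mul] at hL
    linarith
  have E5 : ∀ᶠ L : ℝ in atTop, 8 ≤ Real.exp (Real.exp L / 4) :=
    (Real.tendsto_exp_atTop.comp (Real.tendsto_exp_atTop.atTop_div_const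
      (by norm_num : (0 : ℝ) < 4))).eventually_ge_atTop 8
  obtain ⟨L0, hL0⟩ := (E1.and (E2.and (E3.and (E4.and E5)))).exists_forall_of_atTop
  refine ⟨Real.exp (Real.exp L0), fun x hx => ?_⟩
  have hx0 : 0 < x := lt_of_lt_of_le (Real.exp_pos _) hx
  have hu1 : Real.exp L0 ≤ Real.log x := (Real.le_log_iff_exp_le hx0).2 hx
  have hu0 : 0 < Real.log x := lt_of_lt_of_le (Real.exp_pos _) hu1
  have hLL : L0 ≤ Real.log (Real.log x) := (Real.le_log_iff_exp_le hu0).2 hu1
  obtain ⟨h1, h2, h3, h4, h5⟩ := hL0 _ hLL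
  set u := Real.log x with hu
  set L := Real.log u with hL
  set M := Real.log L with hM
  have huL : Real.exp L = u := Real.exp_log hu0
  have hxu : Real.exp u = x := Real.exp_log hx0
  have hLpos : 0 < L := by linarith
  have hML : M ≤ L := by
    have := Real.log_le_sub_one_of_pos hLpos
    linarith
  have hL6 : 6 ≤ L := by linarith
  -- parameters
  set m : ℕ := ⌈300 * L⌉₊ with hm
  have hm1 : 300 * L ≤ m := Nat.le_ceil _
  have hm2 : (m : ℝ) ≤ 301 * L := by
    have := (Nat.ceil_lt_add_one (by positivity : 0 ≤ 300 * L)).le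
    linarith
  have hm100 : 100 ≤ m := by
    have : (100 : ℝ) ≤ m := by linarith
    exact_mod_cast this
  set l : ℕ := Nat.clog 2 m with hl
  set K : ℕ := JJ m l * (88 * l + 2) with hK
  have hKle : (K : ℝ) ≤ C1 * (L ^ 3 * M ^ 2) := K_le h1 h2 hm2 hm100 hl
  have hKpos : 0 < K := by
    have := J_ge hm100 hl
    exact Nat.mul_pos (by omega) (by omega)
  have hKR : (0 : ℝ) < K := by exact_mod_cast hKpos
  have hK16 : 16 * (K : ℝ) ≤ Real.exp (L / 2) := by
    have a1 : L ^ 3 * M ^ 2 ≤ L ^ 5 := by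
      have : M ^ 2 ≤ L ^ 2 := pow_le_pow_left₀ (by linarith) hML 2
      calc L ^ 3 * M ^ 2 ≤ L ^ 3 * L ^ 2 := mul_le_mul_of_nonneg_left this (by positivity)
        _ = L ^ 5 := by ring
    have a2 : 16 * (K : ℝ) ≤ 16 * C1 * L ^ 5 := by
      have a3 : C1 * (L ^ 3 * M ^ 2) ≤ C1 * L ^ 5 := mul_le_mul_of_nonneg_left a1 hC1.le
      linarith
    refine a2.trans (h3.trans (le_of_eq ?_))
    congr 1; ring
  have huexp : u = Real.exp (L / 2) * Real.exp (L / 2) := by
    rw [← Real.exp_add, ← huL]; congr 1; ring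
  have hexpL : 0 < Real.exp (L / 2) := Real.exp_pos _
  have hbig : Real.exp (L / 2) ≤ u / (16 * K) := by
    rw [le_div_iff₀ (by positivity), huexp]
    exact mul_le_mul_of_nonneg_left hK16 hexpL.le
  have hexp1 : 1 ≤ Real.exp (L / 2) := Real.one_le_exp (by positivity)
  set R : ℕ := ⌊u / (8 * K)⌋₊ with hR
  have hu8 : u / (8 * K) = 2 * (u / (16 * K)) := by field_simp; ring
  have hR1 : u / (16 * K) ≤ R := by
    have := (Nat.lt_floor_add_one (u / (8 * K))).le
    rw [← hR] at this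
    have h6 : 1 ≤ u / (16 * K) := hexp1.trans hbig
    linarith
  have hR2 : (R : ℝ) ≤ u / (8 * K) := Nat.floor_le (by positivity)
  have hRe : Real.exp (L / 2) ≤ R := hbig.trans hR1
  have hRge1 : 1 ≤ R := by
    have : (1 : ℝ) ≤ R := hexp1.trans hRe
    exact_mod_cast this
  have hR0 : (0 : ℝ) < R := by exact_mod_cast hRge1
  have hRL : (R : ℝ) ≤ Real.exp L := by
    rw [huL]
    refine hR2.trans (div_le_self hu0.le ?_)
    have : (1 : ℝ) ≤ K := by exact_mod_cast hKpos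
    linarith
  have hKR8 : (K : ℝ) * R ≤ u / 8 := by
    have := mul_le_mul_of_nonneg_left hR2 hKR.le
    have e : (K : ℝ) * (u / (8 * K)) = u / 8 := by field_simp
    linarith
  set N : ℕ := ⌊x⌋₊ + 1 with hN
  have hcore := core L h2 m l R N hm100 hm1 hl hRge1 hRL
  have hx1 : 1 ≤ x := by
    rw [← hxu]; exact Real.one_le_exp hu0.le
  have hNx : (N : ℝ) ≤ 2 * x := by
    have := Nat.floor_le hx0.le
    rw [hN]; push_cast; linarith
  have hset : {k : ℕ | (k : ℝ) ≤ x ∧ Exceptional k} = {k : ℕ | k < N ∧ Exceptional k} := by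
    ext k
    constructor
    · rintro ⟨a, b⟩
      exact ⟨by rw [hN]; exact Nat.lt_succ_of_le (Nat.le_floor a), b⟩
    · rintro ⟨a, b⟩
      refine ⟨?_, b⟩
      rw [hN] at a
      exact (Nat.le_floor_iff hx0.le).1 (Nat.lt_succ_iff.1 a)
  rw [hset]
  refine hcore.trans ?_
  -- the three terms
  set g : ℝ := u / (L ^ 2 * M ^ 2) with hg
  have hM0 : 0 < M := by linarith
  have hg0 : 0 < g := by positivity
  have t1 : (2 : ℝ) ^ K ≤ Real.exp (u / 2) := by
    have b1 : (2 : ℝ) ^ K = Real.exp (Real.log 2 * K) := by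
      rw [Real.exp_mul, Real.exp_log (by norm_num)]; norm_cast
    rw [b1]
    apply Real.exp_le_exp.2
    have b2 : (K : ℝ) * 1 ≤ K * R :=
      mul_le_mul_of_nonneg_left (by exact_mod_cast hRge1) hKR.le
    have b3 : (K : ℝ) ≤ u / 8 := by linarith
    calc Real.log 2 * K ≤ 0.7 * (u / 8) := mul_le_mul log2_le b3 hKR.le (by norm_num)
      _ ≤ u / 2 := by linarith
  have t3 : (2 : ℝ) ^ (4 * K * R) ≤ Real.exp (u / 2) := by
    have b1 : (2 : ℝ) ^ (4 * K * R) = Real.exp (Real.log 2 * (4 * K * R : ℕ)) := by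
      rw [Real.exp_mul, Real.exp_log (by norm_num)]; norm_cast
    rw [b1]
    apply Real.exp_le_exp.2
    push_cast
    have h7 : 4 * (K : ℝ) * R ≤ 4 * (u / 8) := by linarith
    calc Real.log 2 * (4 * (K : ℝ) * R) ≤ 0.7 * (4 * (u / 8)) :=
          mul_le_mul log2_le h7 (by positivity) (by norm_num)
      _ ≤ u / 2 := by linarith
  have t2 : (1 / (R : ℝ)) ^ R ≤ Real.exp (-(2 * c * g)) := by
    have b1 : (1 / (R : ℝ)) ^ R = Real.exp (-(R * Real.log R)) := by
      rw [Real.exp_neg, mul_comm, Real.exp_mul, Real.exp_log hR0, Real.rpow_natCast,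
        one_div, inv_pow]
    rw [b1]
    apply Real.exp_le_exp.2
    apply neg_le_neg
    have b2 : L / 2 ≤ Real.log R := (Real.le_log_iff_exp_le hR0).2 hRe
    have b3 : u / (16 * K) * (L / 2) ≤ R * Real.log R :=
      mul_le_mul hR1 b2 (by positivity) hR0.le
    refine le_trans ?_ b3
    have b4 : u / (16 * (C1 * (L ^ 3 * M ^ 2))) * (L / 2) ≤ u / (16 * K) * (L / 2) := by
      refine mul_le_mul_of_nonneg_right ?_ (by positivity)
      exact div_le_div_of_nonneg_left hu0.le (by positivity) (by linarith)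
    refine le_trans (le_of_eq ?_) b4
    rw [hc, hg]
    field_simp
    ring
  have hgu : g ≤ u := by
    rw [hg]
    refine div_le_self hu0.le ?_
    have a1 : 1 ≤ L ^ 2 := one_le_pow₀ h2
    have a2 : 1 ≤ M ^ 2 := one_le_pow₀ (by linarith)
    exact one_le_mul_of_one_le_of_one_le a1 a2
  have hc4 : c ≤ 1 / 4 := by
    rw [hc]; unfold C1; norm_num
  have hcg : c * g ≤ u / 4 := by
    calc c * g ≤ 1 / 4 * u := mul_le_mul hc4 hgu hg0.le (by norm_num)
      _ = u / 4 := by ring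
  have hcg2 : 2 ≤ c * g := by
    rw [hg, ← mul_div_assoc, le_div_iff₀ (by positivity)]
    have a1 : L ^ 2 * M ^ 2 ≤ L ^ 4 := by
      have : M ^ 2 ≤ L ^ 2 := pow_le_pow_left₀ hM0.le hML 2
      calc L ^ 2 * M ^ 2 ≤ L ^ 2 * L ^ 2 := mul_le_mul_of_nonneg_left this (by positivity)
        _ = L ^ 4 := by ring
    rw [huL] at h4
    linarith
  have hxg : x * Real.exp (-(c * g)) = Real.exp (u - c * g) := by
    rw [← hxu, ← Real.exp_add]; congr 1
  have f1 : 4 * Real.exp (u / 2) ≤ 1 / 2 * Real.exp (u - c * g) := by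
    have a1 : Real.exp (u - c * g) = Real.exp (u / 2) * Real.exp (u / 2 - c * g) := by
      rw [← Real.exp_add]; congr 1; ring
    have a2 : 8 ≤ Real.exp (u / 2 - c * g) := by
      rw [huL] at h5
      exact h5.trans (Real.exp_le_exp.2 (by linarith))
    rw [a1]
    have := mul_le_mul_of_nonneg_left a2 (Real.exp_pos (u / 2)).le
    linarith
  have f2 : 2 * x * Real.exp (-(2 * c * g)) ≤ 1 / 2 * Real.exp (u - c * g) := by
    have a1 : Real.exp (-(2 * c * g)) = Real.exp (-(c * g)) * Real.exp (-(c * g)) := by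
      rw [← Real.exp_add]; congr 1; ring
    have a2 : Real.exp (-(c * g)) ≤ 1 / 4 := by
      rw [Real.exp_neg, inv_eq_one_div]
      refine one_div_le_one_div_of_le (by norm_num) ?_
      have b1 : Real.exp 2 ≤ Real.exp (c * g) := Real.exp_le_exp.2 hcg2
      have b2 : Real.exp 2 = (Real.exp 1) ^ 2 := by rw [← Real.exp_nat_mul]; norm_num
      have b3 := Real.exp_one_gt_d9
      have b4 : (2 : ℝ) ^ 2 ≤ (Real.exp 1) ^ 2 := pow_le_pow_left₀ (by norm_num) (by linarith) 2
      linarith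
    rw [← hxg, a1]
    have a3 : 0 < Real.exp (-(c * g)) := Real.exp_pos _
    have a4 : 0 < x * Real.exp (-(c * g)) := by positivity
    have a5 := mul_le_mul_of_nonneg_left a2 a4.le
    linarith
  have hterm2 : (N : ℝ) * (1 / (R : ℝ)) ^ R ≤ 2 * x * Real.exp (-(2 * c * g)) :=
    mul_le_mul hNx t2 (by positivity) (by positivity)
  rw [hxg]
  linarith

end H3SP
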