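import Mathlib

/-! Mean values of periodic functions on the integers (MP_ae8ccf_nt). -/

namespace H3SP

open Finset

/-- indicator of the residue class `r` modulo `n` -/
noncomputable def ind (n : ℕ) (r k : ℤ) : ℝ := if (n : ℤ) ∣ k - r then 1 else 0

/-- centered indicator -/
noncomputable def cen (n : ℕ) (r k : ℤ) : ℝ := ind n r k - 1 / (n : ℝ)

/-- mean over `0, ..., N-1` -/
noncomputable def mean (N : ℕ) (h : ℤ → ℝ) : ℝ := (∑ k ∈ range N, h k) / N

/-- `h` is periodic modulo `M` -/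
def Per (M : ℕ) (h : ℤ → ℝ) : Prop := ∀ k : ℤ, h (k + M) = h k

lemma Per.add_nat_mul {M : ℕ} {h : ℤ → ℝ} (hp : Per M h) (k : ℤ) (j : ℕ) :
    h (k + j * M) = h k := by
  induction j with
  | zero => simp
  | succ j ih =>
    have : k + ((j + 1 : ℕ) : ℤ) * M = (k + j * M) + M := by push_cast; ring
    rw [this, hp, ih]

lemma Per.add_int_mul {M : ℕ} {h : ℤ → ℝ} (hp : Per M h) (k : ℤ) (j : ℤ) :
    h (k + j * M) = h k := by
  obtain ⟨n, rfl | rfl⟩ := j.eq_nat_or_neg
  · exact hp.add_nat_mul k n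
  · have := hp.add_nat_mul (k + (-(n : ℤ)) * M) n
    rw [← this]; congr 1; ring

lemma Per.of_dvd {M N : ℕ} {h : ℤ → ℝ} (hp : Per M h) (hd : M ∣ N) : Per N h := by
  obtain ⟨c, rfl⟩ := hd
  intro k
  have := hp.add_nat_mul k c
  rw [← this]; congr 1; push_cast; ring

lemma Per.mul {M : ℕ} {g h : ℤ → ℝ} (hg : Per M g) (hh : Per M h) :
    Per M (fun k => g k * h k) := fun k => by simp only [hg k, hh k]

lemma Per.add {M : ℕ} {g h : ℤ → ℝ} (hg : Per M g) (hh : Per M h) :
    Per M (fun k => g k + h k) := fun k => by simp only [hg k, hh k]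

lemma Per.prod {ι : Type*} {M : ℕ} {h : ι → ℤ → ℝ} (I : Finset ι) (hp : ∀ i ∈ I, Per M (h i)) :
    Per M (fun k => ∏ i ∈ I, h i k) := fun k => prod_congr rfl fun i hi => hp i hi k

lemma Per.sum {ι : Type*} {M : ℕ} {h : ι → ℤ → ℝ} (I : Finset ι) (hp : ∀ i ∈ I, Per M (h i)) :
    Per M (fun k => ∑ i ∈ I, h i k) := fun k => sum_congr rfl fun i hi => hp i hi k

lemma Per.emod {M : ℕ} {h : ℤ → ℝ} (hp : Per M h) (k : ℤ) : h (k % M) = h k := by
  have := hp.add_int_mul (k % M) (k / M)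
  rw [← this]; congr 1
  have := Int.emod_add_mul_ediv k M
  linarith

lemma per_ind (n : ℕ) (r : ℤ) : Per n (ind n r) := by
  intro k
  unfold ind
  have : (n : ℤ) ∣ k + n - r ↔ (n : ℤ) ∣ k - r := by
    have : k + n - r = (k - r) + n := by ring
    rw [this, dvd_add_self_right]
  simp only [this]

lemma per_cen (n : ℕ) (r : ℤ) : Per n (cen n r) := by
  intro k
  unfold cen
  rw [per_ind n r k]

lemma Per.sum_range_mul {M : ℕ} {h : ℤ → ℝ} (hp : Per M h) (q : ℕ) :
    ∑ k ∈ range (q * M), h k = q * ∑ k ∈ range M, h k := by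
  induction q with
  | zero => simp
  | succ q ih =>
    rw [Nat.succ_mul, sum_range_add, ih]
    have : ∀ x ∈ range M, h ((q * M + x : ℕ) : ℤ) = h x := by
      intro x _
      have := hp.add_nat_mul (x : ℤ) q
      rw [← this]; congr 1; push_cast; ring
    rw [sum_congr rfl this]; push_cast; ring

lemma mean_of_dvd {M N : ℕ} {h : ℤ → ℝ} (hM : 0 < M) (hN : 0 < N) (hd : M ∣ N) (hp : Per M h) :
    mean N h = mean M h := by
  obtain ⟨c, rfl⟩ := hd
  have hc : 0 < c := Nat.pos_of_mul_pos_left hN |> fun h => by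
    rcases Nat.eq_zero_or_pos c with h0 | h0
    · subst h0; simp at hN
    · exact h0
  unfold mean
  rw [mul_comm M c, hp.sum_range_mul c]
  have hM' : (M : ℝ) ≠ 0 := by positivity
  have hc' : (c : ℝ) ≠ 0 := by positivity
  push_cast
  field_simp

lemma mean_mul_coprime {M N : ℕ} {g h : ℤ → ℝ} (hM : 0 < M) (hN : 0 < N) (hc : Nat.Coprime M N)
    (hg : Per M g) (hh : Per N h) :
    mean (M * N) (fun k => g k * h k) = mean M g * mean N h := by
  unfold mean
  have key : ∑ k ∈ range (M * N), g k * h k = (∑ a ∈ range M, g a) * ∑ b ∈ range N, h b := by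
    rw [sum_mul_sum, ← sum_product']
    refine sum_nbij' (fun k => (k % M, k % N)) (fun p => (Nat.chineseRemainder hc p.1 p.2 : ℕ))
      ?_ ?_ ?_ ?_ ?_
    · intro k _
      simp only [mem_product, mem_range]
      exact ⟨Nat.mod_lt _ hM, Nat.mod_lt _ hN⟩
    · intro p _
      simp only [mem_range]
      exact Nat.chineseRemainder_lt_mul hc p.1 p.2 hM.ne' hN.ne'
    · intro k hk
      simp only [mem_range] at hk
      have h1 := (Nat.chineseRemainder hc (k % M) (k % N)).2
      have h2 : (Nat.chineseRemainder hc (k % M) (k % N) : ℕ) ≡ k [MOD M * N] := by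
        rw [← Nat.modEq_and_modEq_iff_modEq_mul hc]
        exact ⟨h1.1.trans (Nat.mod_modEq _ _), h1.2.trans (Nat.mod_modEq _ _)⟩
      exact Nat.ModEq.eq_of_lt_of_lt h2
        (Nat.chineseRemainder_lt_mul hc _ _ hM.ne' hN.ne') hk
    · intro p hp
      simp only [mem_product, mem_range] at hp
      have h1 := (Nat.chineseRemainder hc p.1 p.2).2
      refine Prod.ext ?_ ?_
      · have := h1.1
        unfold Nat.ModEq at this
        simp only [this]; exact Nat.mod_eq_of_lt hp.1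
      · have := h1.2
        unfold Nat.ModEq at this
        simp only [this]; exact Nat.mod_eq_of_lt hp.2
    · intro k _
      have e1 : g ((k % M : ℕ) : ℤ) = g k := by
        have := hg.emod (k : ℤ)
        rwa [← Int.natCast_mod] at this
      have e2 : h ((k % N : ℕ) : ℤ) = h k := by
        have := hh.emod (k : ℤ)
        rwa [← Int.natCast_mod] at this
      simp only [e1, e2]
  rw [key]; push_cast
  rw [div_mul_div_comm]

lemma mean_prod {ι : Type*} [DecidableEq ι] (I : Finset ι) (M : ι → ℕ) (h : ι → ℤ → ℝ)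
    (hM : ∀ i ∈ I, 0 < M i) (hc : ∀ i ∈ I, ∀ j ∈ I, i ≠ j → Nat.Coprime (M i) (M j))
    (hp : ∀ i ∈ I, Per (M i) (h i)) :
    mean (∏ i ∈ I, M i) (fun k => ∏ i ∈ I, h i k) = ∏ i ∈ I, mean (M i) (h i) := by
  induction I using Finset.induction_on with
  | empty => simp [mean]
  | insert a I ha ih =>
    rw [prod_insert ha, prod_insert ha]
    have hcop : Nat.Coprime (M a) (∏ i ∈ I, M i) := by
      apply Nat.Coprime.prod_right
      intro i hi
      exact hc a (mem_insert_self a I) i (mem_insert_of_mem hi) (fun h => ha (h ▸ hi))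
    have hper : Per (∏ i ∈ I, M i) (fun k => ∏ i ∈ I, h i k) :=
      Per.prod I fun i hi => (hp i (mem_insert_of_mem hi)).of_dvd (dvd_prod_of_mem M hi)
    have hpos : 0 < ∏ i ∈ I, M i := prod_pos fun i hi => hM i (mem_insert_of_mem hi)
    have := mean_mul_coprime (hM a (mem_insert_self a I)) hpos hcop
      (hp a (mem_insert_self a I)) hper
    rw [← ih (fun i hi => hM i (mem_insert_of_mem hi))
      (fun i hi j hj hij => hc i (mem_insert_of_mem hi) j (mem_insert_of_mem hj) hij)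
      (fun i hi => hp i (mem_insert_of_mem hi)), ← this]
    congr 1
    funext k
    rw [prod_insert ha]

lemma abs_sum_range_sub_mean {M : ℕ} {h : ℤ → ℝ} (hM : 0 < M) (hp : Per M h) {C : ℝ}
    (hC : ∀ k, |h k| ≤ C) (x : ℕ) :
    |∑ k ∈ range x, h k - x * mean M h| ≤ 2 * M * C := by
  have hC0 : 0 ≤ C := (abs_nonneg _).trans (hC 0)
  set S := ∑ k ∈ range M, h k with hS
  have hSle : |S| ≤ M * C := by
    calc |S| ≤ ∑ k ∈ range M, |h (k : ℤ)| := abs_sum_le_sum_abs _ _
      _ ≤ ∑ _k ∈ range M, C := sum_le_sum fun i _ => hC _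
      _ = M * C := by simp
  obtain ⟨q, r, hr, hx⟩ : ∃ q r, r < M ∧ x = q * M + r :=
    ⟨x / M, x % M, Nat.mod_lt _ hM, (Nat.div_add_mod' x M).symm⟩
  have h1 : ∑ k ∈ range x, h k = q * S + ∑ k ∈ range r, h ((q * M + k : ℕ) : ℤ) := by
    rw [hx, sum_range_add, hp.sum_range_mul q]
  have h2 : |∑ k ∈ range r, h ((q * M + k : ℕ) : ℤ)| ≤ M * C := by
    calc |∑ k ∈ range r, h ((q * M + k : ℕ) : ℤ)|
        ≤ ∑ k ∈ range r, |h ((q * M + k : ℕ) : ℤ)| := abs_sum_le_sum_abs _ _
      _ ≤ ∑ _k ∈ range r, C := sum_le_sum fun i _ => hC _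
      _ = r * C := by simp
      _ ≤ M * C := mul_le_mul_of_nonneg_right (by exact_mod_cast hr.le) hC0
  have hM' : (0 : ℝ) < M := by exact_mod_cast hM
  have h3 : (x : ℝ) * mean M h = q * S + r * S / M := by
    unfold mean
    rw [← hS, hx]; push_cast; field_simp
  have h4 : |(r : ℝ) * S / M| ≤ M * C := by
    rw [abs_div, abs_mul, abs_of_pos hM', Nat.abs_cast, div_le_iff₀ hM']
    have : (r : ℝ) ≤ M := by exact_mod_cast hr.le
    calc (r : ℝ) * |S| ≤ M * (M * C) := mul_le_mul this hSle (abs_nonneg _) hM'.le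
      _ = M * C * M := by ring
  rw [h1, h3]
  have : (q * S + ∑ k ∈ range r, h ((q * M + k : ℕ) : ℤ)) - (q * S + r * S / M)
      = ∑ k ∈ range r, h ((q * M + k : ℕ) : ℤ) - r * S / M := by ring
  rw [this]
  refine (abs_sub _ _).trans ?_
  linarith

end H3SP
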