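import Pool.Agent.H3SP.Mean

/-! MP_ae8ccf_nt: means of products of two centered indicators. -/

namespace H3SP

open Finset

lemma mean_congr {N : ℕ} {g h : ℤ → ℝ} (e : ∀ k, g k = h k) : mean N g = mean N h := by
  unfold mean; simp only [e]

lemma mean_const {N : ℕ} (hN : 0 < N) (c : ℝ) : mean N (fun _ => c) = c := by
  unfold mean
  have : (N : ℝ) ≠ 0 := by positivity
  simp only [sum_const, card_range, nsmul_eq_mul]
  field_simp

lemma mean_add {N : ℕ} (g h : ℤ → ℝ) : mean N (fun k => g k + h k) = mean N g + mean N h := by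
  unfold mean; rw [sum_add_distrib, add_div]

lemma mean_smul {N : ℕ} (c : ℝ) (g : ℤ → ℝ) : mean N (fun k => c * g k) = c * mean N g := by
  unfold mean; rw [← mul_sum, mul_div_assoc]

lemma mean_sum {N : ℕ} {ι : Type*} (I : Finset ι) (h : ι → ℤ → ℝ) :
    mean N (fun k => ∑ i ∈ I, h i k) = ∑ i ∈ I, mean N (h i) := by
  unfold mean; rw [sum_comm, sum_div]

lemma mean_nonneg {N : ℕ} {h : ℤ → ℝ} (h0 : ∀ k, 0 ≤ h k) : 0 ≤ mean N h := by
  unfold mean
  exact div_nonneg (sum_nonneg fun k _ => h0 _) (Nat.cast_nonneg _)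

lemma mean_ind_self {n : ℕ} (hn : 0 < n) (r : ℤ) : mean n (ind n r) = 1 / n := by
  have hn' : (n : ℤ) ≠ 0 := by exact_mod_cast hn.ne'
  have h0 := Int.emod_nonneg r hn'
  have h1 := Int.emod_lt_of_pos r (by exact_mod_cast hn : (0 : ℤ) < n)
  unfold mean
  congr 1
  rw [sum_eq_single_of_mem (r % n).toNat]
  · unfold ind
    have : (n : ℤ) ∣ ((r % n).toNat : ℤ) - r := by
      rw [Int.toNat_of_nonneg h0]
      have := Int.emod_add_mul_ediv r n
      exact ⟨-(r / n), by linarith⟩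
    rw [if_pos this]
  · rw [mem_range]; omega
  · intro b hb hne
    unfold ind
    rw [if_neg]
    intro hd
    apply hne
    rw [mem_range] at hb
    have h2 : (b : ℤ) % n = r % n :=
      (Int.emod_eq_emod_iff_emod_sub_eq_zero).2 (Int.emod_eq_zero_of_dvd hd)
    rw [Int.emod_eq_of_lt (by positivity) (by exact_mod_cast hb)] at h2
    rw [← h2]; simp

lemma mean_ind {n N : ℕ} (hN : 0 < N) (hd : n ∣ N) (r : ℤ) : mean N (ind n r) = 1 / n := by
  have hn : 0 < n := Nat.pos_of_dvd_of_pos hd hN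
  rw [mean_of_dvd hn hN hd (per_ind n r), mean_ind_self hn]

/-- the key estimate for pairs -/
lemma mean_cen_mul_cen_le {N n n' : ℕ} {r r' : ℤ} (hN : 0 < N) (hn : n ∣ N) (hn' : n' ∣ N) :
    mean N (fun k => cen n r k * cen n' r' k) ≤
      if 1 < Nat.gcd n n' ∧ ((Nat.gcd n n' : ℕ) : ℤ) ∣ r - r' then
        (Nat.gcd n n' : ℝ) / (n * n') else 0 := by
  have h0 : 0 < n := Nat.pos_of_dvd_of_pos hn hN
  have h0' : 0 < n' := Nat.pos_of_dvd_of_pos hn' hN
  have hnR : (0 : ℝ) < n := by exact_mod_cast h0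
  have hnR' : (0 : ℝ) < n' := by exact_mod_cast h0'
  have hexp : mean N (fun k => cen n r k * cen n' r' k)
      = mean N (fun k => ind n r k * ind n' r' k) - 1 / (n * n') := by
    have e : ∀ k, cen n r k * cen n' r' k = ind n r k * ind n' r' k
        + ((-(1 / (n' : ℝ))) * ind n r k + ((-(1 / (n : ℝ))) * ind n' r' k + 1 / (n * n'))) := by
      intro k; unfold cen; field_simp; ring
    rw [mean_congr e, mean_add, mean_add, mean_add, mean_smul, mean_smul, mean_const hN,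
      mean_ind hN hn, mean_ind hN hn']
    field_simp; ring
  rw [hexp]
  by_cases hex : ∃ k0 : ℤ, (n : ℤ) ∣ k0 - r ∧ (n' : ℤ) ∣ k0 - r'
  · obtain ⟨k0, hk, hk'⟩ := hex
    have hprod : ∀ k, ind n r k * ind n' r' k = ind (Nat.lcm n n') k0 k := by
      intro k
      unfold ind
      have e1 : (n : ℤ) ∣ k - r ↔ (n : ℤ) ∣ k - k0 := by
        have : k - r = (k - k0) + (k0 - r) := by ring
        rw [this]; exact (Int.dvd_add_left hk)
      have e2 : (n' : ℤ) ∣ k - r' ↔ (n' : ℤ) ∣ k - k0 := by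
        have : k - r' = (k - k0) + (k0 - r') := by ring
        rw [this]; exact (Int.dvd_add_left hk')
      have e3 : ((Nat.lcm n n' : ℕ) : ℤ) ∣ k - k0 ↔ (n : ℤ) ∣ k - k0 ∧ (n' : ℤ) ∣ k - k0 := by
        rw [← Int.lcm_natCast_natCast, Int.coe_lcm_dvd_iff]
      by_cases ha : (n : ℤ) ∣ k - k0 <;> by_cases hb : (n' : ℤ) ∣ k - k0 <;>
        simp [e1, e2, e3, ha, hb]
    have hl : Nat.lcm n n' ∣ N := Nat.lcm_dvd hn hn'
    rw [mean_congr hprod, mean_ind hN hl]
    have hgl : (Nat.gcd n n' : ℝ) * Nat.lcm n n' = n * n' := by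
      exact_mod_cast Nat.gcd_mul_lcm n n'
    have hlR : (0 : ℝ) < Nat.lcm n n' := by exact_mod_cast Nat.lcm_pos h0 h0'
    have hval : 1 / (Nat.lcm n n' : ℝ) = (Nat.gcd n n' : ℝ) / (n * n') := by
      rw [← hgl, div_eq_div_iff hlR.ne' (by rw [hgl]; positivity)]; ring
    rw [hval]
    have hcompat : ((Nat.gcd n n' : ℕ) : ℤ) ∣ r - r' := by
      have a1 : ((Nat.gcd n n' : ℕ) : ℤ) ∣ k0 - r :=
        (Int.natCast_dvd_natCast.2 (Nat.gcd_dvd_left n n')).trans hk
      have a2 : ((Nat.gcd n n' : ℕ) : ℤ) ∣ k0 - r' :=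
        (Int.natCast_dvd_natCast.2 (Nat.gcd_dvd_right n n')).trans hk'
      have : r - r' = (k0 - r') - (k0 - r) := by ring
      rw [this]; exact dvd_sub a2 a1
    by_cases hg : 1 < Nat.gcd n n'
    · rw [if_pos ⟨hg, hcompat⟩]
      have : (0 : ℝ) < 1 / (n * n') := by positivity
      linarith
    · rw [if_neg (fun h => hg h.1)]
      have hg1 : Nat.gcd n n' = 1 := by
        have := Nat.gcd_pos_of_pos_left n' h0
        omega
      rw [hg1]; simp
  · have hz : ∀ k, ind n r k * ind n' r' k = 0 := by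
      intro k
      unfold ind
      by_cases ha : (n : ℤ) ∣ k - r
      · have hb : ¬ (n' : ℤ) ∣ k - r' := fun hb => hex ⟨k, ha, hb⟩
        simp [hb]
      · simp [ha]
    rw [mean_congr hz, mean_const hN]
    have h1 : (0 : ℝ) < 1 / (n * n') := by positivity
    split_ifs
    · have : (0 : ℝ) ≤ (Nat.gcd n n' : ℝ) / (n * n') := by positivity
      linarith
    · linarith

/-- variance bound -/
lemma mean_sq_le {ι : Type*} [DecidableEq ι] (G : Finset ι) (n : ι → ℕ) (r : ι → ℤ) {N : ℕ}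
    (hN : 0 < N) (hd : ∀ e ∈ G, n e ∣ N)
    (hcomp : ∀ e ∈ G, ∑ e' ∈ G.filter (fun e' => 1 < Nat.gcd (n e) (n e') ∧
      ((Nat.gcd (n e) (n e') : ℕ) : ℤ) ∣ r e - r e'), (Nat.gcd (n e) (n e') : ℝ) / n e' ≤ 2) :
    mean N (fun k => (∑ e ∈ G, cen (n e) (r e) k) ^ 2) ≤ 2 * ∑ e ∈ G, 1 / (n e : ℝ) := by
  have e1 : ∀ k, (∑ e ∈ G, cen (n e) (r e) k) ^ 2
      = ∑ e ∈ G, ∑ e' ∈ G, cen (n e) (r e) k * cen (n e') (r e') k := by
    intro k; rw [sq, sum_mul_sum]
  rw [mean_congr e1, mean_sum, mul_sum]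
  refine sum_le_sum fun e he => ?_
  rw [mean_sum]
  have hpos : (0 : ℝ) < n e := by exact_mod_cast Nat.pos_of_dvd_of_pos (hd e he) hN
  calc ∑ e' ∈ G, mean N (fun k => cen (n e) (r e) k * cen (n e') (r e') k)
      ≤ ∑ e' ∈ G, if 1 < Nat.gcd (n e) (n e') ∧ ((Nat.gcd (n e) (n e') : ℕ) : ℤ) ∣ r e - r e' then
        (Nat.gcd (n e) (n e') : ℝ) / (n e * n e') else 0 :=
        sum_le_sum fun e' he' => mean_cen_mul_cen_le hN (hd e he) (hd e' he')
    _ = (1 / (n e : ℝ)) * ∑ e' ∈ G.filter (fun e' => 1 < Nat.gcd (n e) (n e') ∧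
      ((Nat.gcd (n e) (n e') : ℕ) : ℤ) ∣ r e - r e'), (Nat.gcd (n e) (n e') : ℝ) / n e' := by
        rw [← sum_filter, mul_sum]
        refine sum_congr rfl fun e' _ => ?_
        rw [div_mul_div_comm, one_mul]
    _ ≤ (1 / (n e : ℝ)) * 2 := mul_le_mul_of_nonneg_left (hcomp e he) (by positivity)
    _ = 2 * (1 / (n e : ℝ)) := by ring

end H3SP
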