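import Mathlib

/-! MP_ae8ccf_nt: the sum of the reciprocals of the primes up to `2^J`. -/

namespace H3SP

open Finset

private theorem block_dvd (m : ℕ) :
    ∏ p ∈ (Ioc m (2 * m)).filter Nat.Prime, p ∣ Nat.centralBinom m := by
  refine Finset.prod_primes_dvd _ (fun p hp => ((mem_filter.1 hp).2).prime) (fun p hp => ?_)
  obtain ⟨hp1, hp2⟩ := mem_filter.1 hp
  rw [mem_Ioc] at hp1
  have h1 : p ∣ (2 * m).factorial := (Nat.Prime.dvd_factorial hp2).2 hp1.2
  have h2 : ¬ p ∣ m.factorial := fun h => absurd ((Nat.Prime.dvd_factorial hp2).1 h) (by omega)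
  have h3 := Nat.choose_mul_factorial_mul_factorial (show m ≤ 2 * m by omega)
  have h4 : 2 * m - m = m := by omega
  rw [h4] at h3
  rw [← h3] at h1
  rcases (Nat.Prime.dvd_mul hp2).1 h1 with h5 | h5
  · rcases (Nat.Prime.dvd_mul hp2).1 h5 with h6 | h6
    · rw [Nat.centralBinom_eq_two_mul_choose]; exact h6
    · exact absurd h6 h2
  · exact absurd h5 h2

private theorem block_card {i : ℕ} :
    i * #((Ioc (2 ^ i) (2 ^ (i + 1))).filter Nat.Prime) ≤ 2 ^ (i + 1) := by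
  have e : (2 : ℕ) ^ (i + 1) = 2 * 2 ^ i := pow_succ' 2 i
  have h1 := block_dvd (2 ^ i)
  rw [← e] at h1
  have h2 := Nat.le_of_dvd (Nat.centralBinom_pos _) h1
  have h3 : Nat.centralBinom (2 ^ i) ≤ 2 ^ (2 ^ (i + 1)) := by
    rw [Nat.centralBinom_eq_two_mul_choose, ← e]
    exact Nat.choose_le_two_pow _ _
  have h4 : (2 ^ i) ^ #((Ioc (2 ^ i) (2 ^ (i + 1))).filter Nat.Prime) ≤
      ∏ p ∈ (Ioc (2 ^ i) (2 ^ (i + 1))).filter Nat.Prime, p := by
    rw [← Finset.prod_const]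
    refine Finset.prod_le_prod' fun p hp => ?_
    rw [mem_filter, mem_Ioc] at hp
    exact hp.1.1.le
  rw [← pow_mul] at h4
  exact (Nat.pow_le_pow_iff_right (by norm_num : 1 < 2)).1 (h4.trans (h2.trans h3))

private theorem block_sum {i : ℕ} (hi : 1 ≤ i) :
    ∑ p ∈ (Ioc (2 ^ i) (2 ^ (i + 1))).filter Nat.Prime, 1 / (p : ℝ) ≤ 2 / (i : ℝ) := by
  have hi0 : (0 : ℝ) < i := by exact_mod_cast hi
  have h1 : ∑ p ∈ (Ioc (2 ^ i) (2 ^ (i + 1))).filter Nat.Prime, 1 / (p : ℝ) ≤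
      #((Ioc (2 ^ i) (2 ^ (i + 1))).filter Nat.Prime) • (1 / (2 : ℝ) ^ i) := by
    refine Finset.sum_le_card_nsmul _ _ _ fun p hp => ?_
    rw [mem_filter, mem_Ioc] at hp
    have h2 : (2 : ℝ) ^ i ≤ p := by exact_mod_cast hp.1.1.le
    exact one_div_le_one_div_of_le (by positivity) h2
  refine h1.trans ?_
  rw [nsmul_eq_mul]
  have h3 : (i : ℝ) * #((Ioc (2 ^ i) (2 ^ (i + 1))).filter Nat.Prime) ≤ 2 ^ (i + 1) := by
    exact_mod_cast block_card (i := i)
  rw [mul_one_div, div_le_div_iff₀ (by positivity) hi0]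
  have h4 : (2 : ℝ) ^ (i + 1) = 2 * 2 ^ i := pow_succ' 2 i
  rw [h4] at h3
  linarith

private theorem split_sum (n : ℕ) :
    ∑ p ∈ (range (2 ^ (n + 1) + 1)).filter Nat.Prime, 1 / (p : ℝ) =
    ∑ p ∈ (range (2 ^ n + 1)).filter Nat.Prime, 1 / (p : ℝ) +
    ∑ p ∈ (Ioc (2 ^ n) (2 ^ (n + 1))).filter Nat.Prime, 1 / (p : ℝ) := by
  rw [← Finset.sum_union]
  · congr 1
    ext p
    have : 2 ^ n ≤ 2 ^ (n + 1) := Nat.pow_le_pow_right (by norm_num) (Nat.le_succ n)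
    simp only [mem_filter, mem_union, mem_range, mem_Ioc]
    constructor
    · rintro ⟨h1, h2⟩
      by_cases h3 : p < 2 ^ n + 1
      · exact Or.inl ⟨h3, h2⟩
      · exact Or.inr ⟨⟨by omega, by omega⟩, h2⟩
    · rintro (⟨h1, h2⟩ | ⟨⟨h1, h3⟩, h2⟩)
      · exact ⟨by omega, h2⟩
      · exact ⟨by omega, h2⟩
  · rw [Finset.disjoint_left]
    intro p hp hq
    simp only [mem_filter, mem_range, mem_Ioc] at hp hq
    omega

private theorem sum_le_harmonic (n : ℕ) :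
    ∑ p ∈ (range (2 ^ (n + 1) + 1)).filter Nat.Prime, 1 / (p : ℝ) ≤
      1 / 2 + 2 * ((harmonic n : ℚ) : ℝ) := by
  induction n with
  | zero =>
    have : (range (2 ^ (0 + 1) + 1)).filter Nat.Prime = {2} := by decide
    rw [this]
    simp
  | succ n ih =>
    rw [split_sum (n + 1), harmonic_succ]
    have h1 := block_sum (i := n + 1) (by omega)
    push_cast at h1 ⊢
    have h2 : (2 : ℝ) * ((harmonic n : ℚ) + ((n : ℝ) + 1)⁻¹) =
      2 * ((harmonic n : ℚ) : ℝ) + 2 / ((n : ℝ) + 1) := by ring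
    rw [h2]
    linarith

/-- primes in `(2^i, 2^(i+1)]`: their product divides `C(2^(i+1), 2^i) ≤ 4^(2^i)`, each is
`> 2^i`, so there are at most `2^(i+1)/i` of them (`i ≥ 1`), and the sum of their reciprocals is at
most `2/i`. -/
theorem prime_sum_le (J : ℕ) (hJ : 1 ≤ J) :
    ∑ p ∈ (range (2 ^ J + 1)).filter Nat.Prime, 1 / (p : ℝ) ≤ 3 + 2 * Real.log J := by
  obtain ⟨n, rfl⟩ : ∃ n, J = n + 1 := ⟨J - 1, by omega⟩
  refine (sum_le_harmonic n).trans ?_
  have h1 := harmonic_le_one_add_log n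
  have h2 : Real.log n ≤ Real.log ((n + 1 : ℕ) : ℝ) := by
    rcases Nat.eq_zero_or_pos n with rfl | h
    · simp
    · apply Real.log_le_log (by exact_mod_cast h)
      exact_mod_cast Nat.le_succ n
  linarith

end H3SP
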