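import Pool.Agent.H3SP.Count
import Pool.Agent.H3SP.PrimeSum

/-! MP_ae8ccf_nt: choice of the parameters. -/

namespace H3SP

open Finset

lemma clog_facts {m l : ℕ} (hm : 100 ≤ m) (hl : l = Nat.clog 2 m) :
    7 ≤ l ∧ m ≤ 2 ^ l ∧ 2 ^ (l - 1) < m := by
  have h1 : m ≤ 2 ^ l := by rw [hl]; exact Nat.le_pow_clog (by norm_num) m
  have h2 : 2 ^ (l - 1) < m := by
    rw [hl]; exact Nat.pow_pred_clog_lt_self (by norm_num) (by omega)
  refine ⟨?_, h1, h2⟩
  by_contra h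
  have : 2 ^ l ≤ 2 ^ 6 := Nat.pow_le_pow_right (by norm_num) (by omega)
  omega

lemma log_rho (a : ℕ) : Real.log ((2 ^ a : ℕ) : ℝ) = a * Real.log 2 := by
  push_cast; rw [Real.log_pow]

lemma log2_le : Real.log 2 ≤ 0.7 := by
  have := Real.log_two_lt_d9; linarith

lemma log2_ge : (0.69 : ℝ) ≤ Real.log 2 := by
  have := Real.log_two_gt_d9; linarith

lemma cond1 {m l : ℕ} (hm : 100 ≤ m) (hl : l = Nat.clog 2 m) :
    7 * (1 + Real.log ((2 ^ (10 * m * l) : ℕ) : ℝ)) *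
      (1 + 2 * m * Real.log ((2 ^ (10 * m * l) : ℕ) : ℝ)) ^ (2 * m) ≤
      ((2 ^ (10 * m * l) : ℕ) : ℝ) := by
  obtain ⟨h7, hml, -⟩ := clog_facts hm hl
  have hl1 : (1 : ℝ) ≤ l := by exact_mod_cast (by omega : 1 ≤ l)
  have hm1 : (100 : ℝ) ≤ m := by exact_mod_cast hm
  have hlog0 : 0 ≤ Real.log 2 := Real.log_nonneg (by norm_num)
  have hlog : Real.log ((2 ^ (10 * m * l) : ℕ) : ℝ) ≤ 10 * m * l := by
    rw [log_rho]; push_cast
    have := log2_le
    have h0 : (0 : ℝ) ≤ 10 * m * l := by positivity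
    nlinarith
  have hlogn : 0 ≤ Real.log ((2 ^ (10 * m * l) : ℕ) : ℝ) := by
    rw [log_rho]; positivity
  have hll : l < 2 ^ l := Nat.lt_two_pow_self
  have h3 : 1 + 20 * m ^ 2 * l ≤ 2 ^ (4 * l) := by
    have a1 : m ^ 2 ≤ (2 ^ l) ^ 2 := Nat.pow_le_pow_left hml 2
    have a2 : m ^ 2 * l ≤ (2 ^ l) ^ 2 * 2 ^ l := Nat.mul_le_mul a1 hll.le
    have a3 : (2 : ℕ) ^ 5 ≤ 2 ^ l := Nat.pow_le_pow_right (by norm_num) (by omega)
    have a4 : (2 : ℕ) ^ (4 * l) = (2 ^ l) ^ 2 * 2 ^ l * 2 ^ l := by ring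
    have a5 : 1 ≤ (2 ^ l) ^ 2 * 2 ^ l := Nat.one_le_iff_ne_zero.2 (by positivity)
    rw [a4]
    nlinarith
  have h4 : (1 + 2 * m * Real.log ((2 ^ (10 * m * l) : ℕ) : ℝ)) ^ (2 * m) ≤
      (2 : ℝ) ^ (8 * m * l) := by
    have b1 : 1 + 2 * m * Real.log ((2 ^ (10 * m * l) : ℕ) : ℝ) ≤ (2 : ℝ) ^ (4 * l) := by
      have b2 : ((1 + 20 * m ^ 2 * l : ℕ) : ℝ) ≤ ((2 ^ (4 * l) : ℕ) : ℝ) := by exact_mod_cast h3
      push_cast at b2
      have b3 : 2 * (m : ℝ) * Real.log ((2 ^ (10 * m * l) : ℕ) : ℝ) ≤ 2 * m * (10 * m * l) :=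
        mul_le_mul_of_nonneg_left hlog (by positivity)
      push_cast at b3 ⊢
      nlinarith
    calc _ ≤ ((2 : ℝ) ^ (4 * l)) ^ (2 * m) := pow_le_pow_left₀ (by positivity) b1 _
      _ = (2 : ℝ) ^ (8 * m * l) := by rw [← pow_mul]; congr 1; ring
  have h5 : 7 * (1 + Real.log ((2 ^ (10 * m * l) : ℕ) : ℝ)) ≤ (2 : ℝ) ^ (2 * m * l) := by
    have c1 : 7 * (1 + Real.log ((2 ^ (10 * m * l) : ℕ) : ℝ)) ≤ 7 * (1 + 10 * m * l) := by
      linarith
    refine c1.trans ?_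
    have c2 : 7 * (1 + 10 * (m * l)) ≤ 2 ^ (2 * (m * l)) := by
      have hu : 100 ≤ m * l := by nlinarith
      generalize m * l = u at hu
      induction u, hu using Nat.le_induction with
      | base => norm_num
      | succ u hu ih =>
        have : 2 ^ (2 * (u + 1)) = 4 * 2 ^ (2 * u) := by ring
        omega
    have c3 : ((7 * (1 + 10 * (m * l)) : ℕ) : ℝ) ≤ ((2 ^ (2 * (m * l)) : ℕ) : ℝ) := by
      exact_mod_cast c2
    push_cast at c3
    have c4 : (2 : ℝ) ^ (2 * (m * l)) = (2 : ℝ) ^ (2 * m * l) := by congr 1; ring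
    rw [c4] at c3
    nlinarith
  calc _ ≤ (2 : ℝ) ^ (2 * m * l) * (2 : ℝ) ^ (8 * m * l) :=
        mul_le_mul h5 h4 (by positivity) (by positivity)
    _ = ((2 ^ (10 * m * l) : ℕ) : ℝ) := by
        push_cast; rw [← pow_add]; congr 1; ring

/-- the exponent of `y` -/
def JJ (m l : ℕ) : ℕ := 30 * m ^ 2 * (m + 1) * l

lemma J_le {m l : ℕ} (hm : 100 ≤ m) (hl : l = Nat.clog 2 m) : JJ m l ≤ 2 ^ (6 * l) := by
  obtain ⟨h7, hml, -⟩ := clog_facts hm hl
  have hll : l < 2 ^ l := Nat.lt_two_pow_self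
  unfold JJ
  have a3 : (2 : ℕ) ^ 6 ≤ 2 ^ l := Nat.pow_le_pow_right (by norm_num) (by omega)
  calc 30 * m ^ 2 * (m + 1) * l ≤ 30 * m ^ 2 * (2 * m) * l :=
        Nat.mul_le_mul_right l (Nat.mul_le_mul_left _ (by omega))
    _ = 60 * (m ^ 3 * l) := by ring
    _ ≤ 2 ^ l * ((2 ^ l) ^ 3 * 2 ^ l) :=
        Nat.mul_le_mul (by omega) (Nat.mul_le_mul (Nat.pow_le_pow_left hml 3) hll.le)
    _ = 2 ^ (5 * l) := by ring
    _ ≤ 2 ^ (6 * l) := Nat.pow_le_pow_right (by norm_num) (by omega)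

lemma J_ge {m l : ℕ} (hm : 100 ≤ m) (hl : l = Nat.clog 2 m) :
    100 * m + 100 * l + 100 ≤ JJ m l := by
  obtain ⟨h7, hml, -⟩ := clog_facts hm hl
  unfold JJ
  have h1 : 100 * (100 * l) ≤ m ^ 2 * l := by
    have h0 : 100 * 100 ≤ m ^ 2 := by nlinarith
    calc 100 * (100 * l) = 100 * 100 * l := by ring
      _ ≤ m ^ 2 * l := Nat.mul_le_mul_right l h0
  have h2 : m * 7 ≤ m * l := Nat.mul_le_mul_left m h7
  have h3 : 30 * m ^ 2 * (m + 1) * l = 30 * (m ^ 2 * (m * l)) + 30 * (m ^ 2 * l) := by ring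
  have h4 : m ≤ m ^ 2 := by nlinarith
  have h5 : m ^ 2 * 7 ≤ m ^ 2 * (m * l) := Nat.mul_le_mul_left _ (by nlinarith)
  have h6 : 100 * m ≤ m ^ 2 := by nlinarith
  rw [h3]
  omega

lemma S_le {m l : ℕ} (hm : 100 ≤ m) (hl : l = Nat.clog 2 m) :
    3 + 2 * Real.log (JJ m l) ≤ 11 * l := by
  obtain ⟨h7, hml, -⟩ := clog_facts hm hl
  have h7R : (7 : ℝ) ≤ l := by exact_mod_cast h7
  have hJ0 : 0 < JJ m l := by have := J_ge hm hl; omega
  have h1 : Real.log (JJ m l) ≤ 6 * l * Real.log 2 := by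
    have : Real.log (JJ m l) ≤ Real.log ((2 ^ (6 * l) : ℕ) : ℝ) :=
      Real.log_le_log (by exact_mod_cast hJ0) (by exact_mod_cast J_le hm hl)
    rw [log_rho] at this
    push_cast at this
    exact this
  have := log2_le
  nlinarith

lemma exp_le_two_pow (l : ℕ) : Real.exp (22 * l) ≤ (2 : ℝ) ^ (32 * l) := by
  have h1 : Real.exp 22 ≤ (2 : ℝ) ^ 32 := by
    have : Real.exp 22 = (Real.exp 1) ^ 22 := by rw [← Real.exp_nat_mul]; norm_num
    rw [this]
    calc (Real.exp 1) ^ 22 ≤ (2.7182818286 : ℝ) ^ 22 :=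
          pow_le_pow_left₀ (Real.exp_pos 1).le Real.exp_one_lt_d9.le 22
      _ ≤ 2 ^ 32 := by norm_num
  have h2 : Real.exp (22 * l) = (Real.exp 22) ^ l := by
    rw [← Real.exp_nat_mul]; congr 1; ring
  rw [h2, pow_mul]
  exact pow_le_pow_left₀ (Real.exp_pos _).le h1 l

theorem core (L : ℝ) (hL : 1 ≤ L) (m l R x : ℕ) (hm : 100 ≤ m) (hmL : 300 * L ≤ m)
    (hl : l = Nat.clog 2 m) (hR : 1 ≤ R) (hRL : (R : ℝ) ≤ Real.exp L) :
    ({k : ℕ | k < x ∧ Exceptional k}.ncard : ℝ) ≤ 2 * (2 : ℝ) ^ (JJ m l * (88 * l + 2)) +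
      (x * (1 / (R : ℝ)) ^ R + 2 * (2 : ℝ) ^ (4 * (JJ m l * (88 * l + 2)) * R)) := by
  obtain ⟨h7, hml, hml'⟩ := clog_facts hm hl
  have h7R : (7 : ℝ) ≤ l := by exact_mod_cast h7
  have hmR : (100 : ℝ) ≤ m := by exact_mod_cast hm
  have hJge := J_ge hm hl
  have hJ1 : 1 ≤ JJ m l := by omega
  have hR0 : (0 : ℝ) < R := by exact_mod_cast hR
  set J := JJ m l with hJ
  set ρ : ℕ := 2 ^ (10 * m * l) with hρ
  set y : ℕ := 2 ^ J with hy
  set S : ℝ := 3 + 2 * Real.log J with hS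
  have hSle : S ≤ 11 * l := S_le hm hl
  have hS3 : 3 ≤ S := by
    have : 0 ≤ Real.log J := Real.log_nonneg (by exact_mod_cast hJ1)
    rw [hS]; linarith
  have hexp : Real.exp (2 * S) ≤ (2 : ℝ) ^ (32 * l) :=
    (Real.exp_le_exp.2 (by linarith)).trans (exp_le_two_pow l)
  have hyR : (y : ℝ) = (2 : ℝ) ^ J := by rw [hy]; push_cast; rfl
  have hRm : (R : ℝ) ≤ (2 : ℝ) ^ (2 * m) := by
    refine hRL.trans ?_
    have h1 : Real.exp L ≤ Real.exp m := Real.exp_le_exp.2 (by linarith)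
    refine h1.trans ?_
    have h2 : Real.exp m = (Real.exp 1) ^ m := by rw [← Real.exp_nat_mul]; simp
    rw [h2, pow_mul]
    refine pow_le_pow_left₀ (Real.exp_pos 1).le ?_ m
    have := Real.exp_one_lt_d9
    norm_num; linarith
  have hρ8 : 8 ≤ ρ := by
    calc 8 = 2 ^ 3 := by norm_num
      _ ≤ 2 ^ (10 * m * l) := Nat.pow_le_pow_right (by norm_num) (by nlinarith)
  have hlogρ : (2 : ℝ) ^ l ≤ Real.log ρ - 1 := by
    rw [hρ, log_rho]
    push_cast
    have h1 := log2_ge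
    have h2 : (2 : ℝ) ^ l < 2 * m := by
      have h3 : 2 ^ l < 2 * m := by
        have : 2 ^ l = 2 * 2 ^ (l - 1) := by
          rw [← pow_succ']; congr 1; omega
        omega
      exact_mod_cast h3
    have h4 : (0 : ℝ) ≤ 10 * m * l := by positivity
    nlinarith
  -- the weight
  have hU : 4 * (R : ℝ) ^ (88 * l + 2) * R ≤
      Real.exp (-2 * S) / 8 * (Real.log ρ - 1) ^ m := by
    have e1 : 4 * (R : ℝ) ^ (88 * l + 2) * R ≤ Real.exp (2 + (88 * l + 3) * L) := by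
      have a1 : (R : ℝ) ^ (88 * l + 3) ≤ Real.exp ((88 * l + 3) * L) := by
        have : Real.exp ((88 * l + 3) * L) = (Real.exp L) ^ (88 * l + 3) := by
          rw [← Real.exp_nat_mul]; push_cast; ring_nf
        rw [this]
        exact pow_le_pow_left₀ hR0.le hRL _
      have a2 : (4 : ℝ) ≤ Real.exp 2 := by
        have : Real.exp 2 = (Real.exp 1) ^ 2 := by rw [← Real.exp_nat_mul]; norm_num
        rw [this]
        have := Real.exp_one_gt_d9
        nlinarith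
      rw [Real.exp_add]
      calc 4 * (R : ℝ) ^ (88 * l + 2) * R = 4 * (R : ℝ) ^ (88 * l + 3) := by ring
        _ ≤ Real.exp 2 * Real.exp ((88 * l + 3) * L) :=
          mul_le_mul a2 a1 (by positivity) (by positivity)
    have e2 : Real.exp (-(22 * l) - 3 + 0.69 * l * m) ≤
        Real.exp (-2 * S) / 8 * (Real.log ρ - 1) ^ m := by
      have b1 : Real.exp (-(22 * l)) ≤ Real.exp (-2 * S) := Real.exp_le_exp.2 (by linarith)
      have b2 : Real.exp (-3) ≤ 1 / 8 := by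
        have h3 : (8 : ℝ) ≤ Real.exp 3 := by
          have : Real.exp 3 = (Real.exp 1) ^ 3 := by rw [← Real.exp_nat_mul]; norm_num
          rw [this]
          have h4 := Real.exp_one_gt_d9
          have : (2 : ℝ) ^ 3 ≤ (Real.exp 1) ^ 3 := pow_le_pow_left₀ (by norm_num) (by linarith) 3
          linarith
        rw [Real.exp_neg, inv_eq_one_div]
        exact one_div_le_one_div_of_le (by norm_num) h3
      have b3 : Real.exp (0.69 * l * m) ≤ (Real.log ρ - 1) ^ m := by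
        have c1 : Real.exp (0.69 * l) ≤ Real.log ρ - 1 := by
          refine le_trans ?_ hlogρ
          have : (2 : ℝ) ^ l = Real.exp (Real.log 2 * l) := by
            rw [Real.exp_mul, Real.exp_log (by norm_num)]; norm_cast
          rw [this]
          exact Real.exp_le_exp.2 (by nlinarith [log2_ge])
        have c2 : Real.exp (0.69 * l * m) = (Real.exp (0.69 * l)) ^ m := by
          rw [← Real.exp_nat_mul]; ring_nf
        rw [c2]
        exact pow_le_pow_left₀ (Real.exp_pos _).le c1 m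
      rw [show -(22 * (l : ℝ)) - 3 + 0.69 * l * m = (-(22 * (l : ℝ)) + (-3)) + 0.69 * l * m by ring,
        Real.exp_add, Real.exp_add]
      refine mul_le_mul ?_ b3 (Real.exp_pos _).le (by positivity)
      calc Real.exp (-(22 * l)) * Real.exp (-3) ≤ Real.exp (-2 * S) * (1 / 8) :=
            mul_le_mul b1 b2 (Real.exp_pos _).le (Real.exp_pos _).le
        _ = Real.exp (-2 * S) / 8 := by ring
    refine e1.trans (le_trans (Real.exp_le_exp.2 ?_) e2)
    have d1 : 0.69 * (l : ℝ) * m ≥ 0.69 * l * (300 * L) :=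
      mul_le_mul_of_nonneg_left hmL (by positivity)
    nlinarith
  have hcb := count_bound ρ m y (44 * l) R x S hρ8 (by omega) (cond1 hm hl)
    (by rw [hρ, hy, ← pow_mul, ← pow_mul]; refine le_of_eq ?_; congr 1; rw [hJ]; unfold JJ; ring)
    (by rw [hy, hS]; exact prime_sum_le J hJ1) (by linarith) (by push_cast; linarith)
    (by
      rw [hyR]
      calc 4 * Real.exp (2 * S) ≤ 4 * (2 : ℝ) ^ (32 * l) := by linarith
        _ = (2 : ℝ) ^ (32 * l + 2) := by ring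
        _ ≤ (2 : ℝ) ^ J := pow_le_pow_right₀ (by norm_num) (by omega))
    (by
      rw [hρ, ← pow_mul]
      refine Nat.pow_le_pow_right (by norm_num) ?_
      have : 10 * m * l * m ^ 2 = 10 * (m * (m ^ 2 * l)) := by ring
      have h1 : 100 * (100 * l) ≤ m ^ 2 * l := by
        have h0 : 100 * 100 ≤ m ^ 2 := by nlinarith
        calc 100 * (100 * l) = 100 * 100 * l := by ring
          _ ≤ m ^ 2 * l := Nat.mul_le_mul_right l h0
      have h2 : 1 * (m ^ 2 * l) ≤ m * (m ^ 2 * l) := Nat.mul_le_mul_right _ (by omega)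
      omega)
    hR
    (by
      rw [hyR]
      have e1 : (2 * ((44 * l : ℕ) : ℝ) + 2) ≤ (2 : ℝ) ^ (7 + l) := by
        have : 2 * (44 * l) + 2 ≤ 2 ^ (7 + l) := by
          have hll : l < 2 ^ l := Nat.lt_two_pow_self
          rw [pow_add]; omega
        exact_mod_cast this
      calc 64 * (R : ℝ) * (2 * ((44 * l : ℕ) : ℝ) + 2) * Real.exp (2 * S)
          ≤ 64 * (2 : ℝ) ^ (2 * m) * (2 : ℝ) ^ (7 + l) * (2 : ℝ) ^ (32 * l) := by
            gcongr
        _ = (2 : ℝ) ^ (13 + 2 * m + 33 * l) := by ring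
        _ ≤ (2 : ℝ) ^ J := pow_le_pow_right₀ (by norm_num) (by omega))
    (by
      have e1 : 2 * (44 * l) + 2 = 88 * l + 2 := by ring
      rw [e1]
      refine le_trans ?_ hU
      have h1 : (1 : ℝ) ≤ R := by exact_mod_cast hR
      have h2 : (0 : ℝ) ≤ (R : ℝ) ^ (88 * l + 2) := by positivity
      nlinarith)
    (by
      have h1 : m ≤ y := by
        calc m ≤ 2 ^ m := Nat.lt_two_pow_self.le
          _ ≤ 2 ^ J := Nat.pow_le_pow_right (by norm_num) (by omega)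
      have h2 : y ≤ y ^ (2 * (44 * l) + 2) := by
        calc y = y ^ 1 := (pow_one y).symm
          _ ≤ _ := Nat.pow_le_pow_right (by omega) (by omega)
      omega)
  refine hcb.trans ?_
  have e1 : 2 * (44 * l) + 2 = 88 * l + 2 := by ring
  rw [e1, hyR, ← pow_mul, ← pow_add, ← pow_mul]
  refine add_le_add le_rfl (add_le_add ?_ (le_of_eq ?_))
  · have hpos : 0 < Real.exp (-2 * S) / 8 * (Real.log ρ - 1) ^ m :=
      lt_of_lt_of_le (by positivity) hU
    refine mul_le_mul_of_nonneg_left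
      (pow_le_pow_left₀ (div_nonneg (by positivity) hpos.le) ?_ R) (Nat.cast_nonneg x)
    rw [div_le_div_iff₀ hpos hR0]
    linarith
  · congr 2; ring

end H3SP
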